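import Mathlib
import Pool.Agent.H668.Base

set_option autoImplicit false

/-! The data of the construction and the structures built from them. -/

namespace Pool.Agent.H668.Low

open Encodable Denumerable Nat.Partrec Pool.Agent.Helper941 Pool.Agent.Helper941.IsoProb
open Pool.Agent.Helper941.Zeta Pool.Agent.Helper941.Dim

/-- the data produced by the construction: outcomes, certificates, labels, parents and levels -/
structure Dt extends Dat where
  N : ℕ → ℕ

/-- `τ` witnesses that the node `u` is settled -/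
def St (d : Dt) (u τ : ℕ) : Prop :=
  ∀ i < d.N u, d.O u i = 1 → ∃ t < τ + 1, u < t ∧ agr d.toDat t u i ∧ d.O t i = 1

/-- the code `l` of a letter is admissible at the cut `c` -/
def W (d : Dt) (c l : ℕ) : Prop :=
  ¬ d.J l.unpair.1 = 0 ∧ c < l.unpair.1 ∧ St d l.unpair.1 l.unpair.2

/-- equivalence of admissible codes at the cut `c` -/
def E (d : Dt) (c l l' : ℕ) : Prop := anc d.pa c l.unpair.1 = anc d.pa c l'.unpair.1

theorem E.refl (d : Dt) (c l : ℕ) : E d c l l := rfl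

theorem E.symm {d : Dt} {c l l' : ℕ} (h : E d c l l') : E d c l' l := Eq.symm h

theorem E.trans {d : Dt} {c l l' l'' : ℕ} (h : E d c l l') (h' : E d c l' l'') :
    E d c l l'' := Eq.trans h h'

/-- the parent function is a tree function -/
structure PT (d : Dt) : Prop where
  lt : ∀ u, 1 ≤ u → d.pa u < u
  zero : d.pa 0 = 0

theorem PT.le {d : Dt} (h : PT d) (u : ℕ) : d.pa u ≤ u := le_of_lt' h.lt h.zero u

theorem W.mono {d : Dt} {c c' l : ℕ} (h : W d c' l) (hc : c ≤ c') : W d c l := by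
  obtain ⟨h1, h2, h4⟩ := h
  exact ⟨h1, by omega, h4⟩

theorem E.mono {d : Dt} (hd : PT d) {c c' l l' : ℕ} (h : E d c' l l') (hc : c ≤ c')
    (hl : W d c' l) (hl' : W d c' l') : E d c l l' := by
  unfold E at h ⊢
  rw [← anc_anc hd.lt hd.zero hc hl.2.1, ← anc_anc hd.lt hd.zero hc hl'.2.1, h]

/-- the least admissible code equivalent to `l` -/
noncomputable def rep (d : Dt) (c l : ℕ) : ℕ :=
  sInf {m | m = l ∨ (W d c l ∧ W d c m ∧ E d c l m)}

theorem rep_spec (d : Dt) (c l : ℕ) :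
    rep d c l = l ∨ (W d c l ∧ W d c (rep d c l) ∧ E d c l (rep d c l)) :=
  Nat.sInf_mem (s := {m | m = l ∨ (W d c l ∧ W d c m ∧ E d c l m)}) ⟨l, Or.inl rfl⟩

theorem rep_W {d : Dt} {c l : ℕ} (h : W d c l) : W d c (rep d c l) ∧ E d c l (rep d c l) := by
  rcases rep_spec d c l with h1 | h1
  · rw [h1]; exact ⟨h, E.refl _ _ _⟩
  · exact h1.2

theorem rep_le (d : Dt) (c l : ℕ) : rep d c l ≤ l :=
  Nat.sInf_le (s := {m | m = l ∨ (W d c l ∧ W d c m ∧ E d c l m)}) (Or.inl rfl)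

theorem rep_min {d : Dt} {c l m : ℕ} (h : W d c l) (hm : W d c m) (he : E d c l m) :
    rep d c l ≤ m :=
  Nat.sInf_le (s := {m | m = l ∨ (W d c l ∧ W d c m ∧ E d c l m)}) (Or.inr ⟨h, hm, he⟩)

theorem rep_eq {d : Dt} {c l m : ℕ} (h : W d c l) (hm : W d c m) (he : E d c l m) :
    rep d c l = rep d c m := by
  obtain ⟨h1, h2⟩ := rep_W h
  obtain ⟨h3, h4⟩ := rep_W hm
  refine le_antisymm (rep_min h h3 (he.trans h4)) (rep_min hm h1 (he.symm.trans h2))

theorem E_of_rep {d : Dt} {c l m : ℕ} (h : W d c l) (hm : W d c m)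
    (he : rep d c l = rep d c m) : E d c l m := by
  have h2 := (rep_W h).2
  rw [he] at h2
  exact h2.trans (rep_W hm).2.symm

/-- the letters at the cut `c` -/
def Lam (d : Dt) (c l : ℕ) : Prop := W d c l ∧ rep d c l = l

theorem rep_Lam {d : Dt} {c l : ℕ} (h : W d c l) : Lam d c (rep d c l) := by
  obtain ⟨h1, h2⟩ := rep_W h
  exact ⟨h1, (rep_eq h h1 h2).symm⟩

theorem rep_rep {d : Dt} (hd : PT d) {c c' l : ℕ} (h : W d c' l) (hc : c ≤ c') :
    rep d c (rep d c' l) = rep d c l := by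
  obtain ⟨h1, h2⟩ := rep_W h
  exact (rep_eq (h.mono hc) (h1.mono hc) (h2.mono hd hc h h1)).symm

/-- the words at the cut `c` -/
def Val (d : Dt) (c : ℕ) (w : Gm) : Prop := w ∈ Sb (Lam d c)

/-- the folding map -/
noncomputable def fold (d : Dt) (c : ℕ) (w : Gm) : Gm := FreeGroup.map (rep d c) w

theorem fold_mul (d : Dt) (c : ℕ) (w w' : Gm) : fold d c (w * w') = fold d c w * fold d c w' :=
  map_mul _ _ _

theorem fold_inv (d : Dt) (c : ℕ) (w : Gm) : fold d c w⁻¹ = (fold d c w)⁻¹ := map_inv _ _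

theorem fold_one (d : Dt) (c : ℕ) : fold d c 1 = 1 := map_one _

theorem fold_of (d : Dt) (c l : ℕ) :
    fold d c (FreeGroup.of l) = FreeGroup.of (rep d c l) := FreeGroup.map.of

theorem Val.fold' {d : Dt} {c c' : ℕ} (hc : c ≤ c') {w : Gm} (h : Val d c' w) :
    Val d c (fold d c w) :=
  map_mem (fun _ ha => rep_Lam (ha.1.mono hc)) h

theorem Val.one (d : Dt) (c : ℕ) : Val d c 1 := one_mem _

theorem Val.mul {d : Dt} {c : ℕ} {w w' : Gm} (h : Val d c w) (h' : Val d c w') :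
    Val d c (w * w') := mul_mem h h'

theorem Val.inv {d : Dt} {c : ℕ} {w : Gm} (h : Val d c w) : Val d c w⁻¹ := inv_mem h

theorem Val.of {d : Dt} {c l : ℕ} (h : Lam d c l) : Val d c (FreeGroup.of l) := of_mem h

theorem fold_id {d : Dt} {c : ℕ} {w : Gm} (h : Val d c w) : fold d c w = w :=
  map_id' (fun _ ha => ha.2) h

theorem fold_fold {d : Dt} (hd : PT d) {c c' c'' : ℕ} (hc : c ≤ c') (hc' : c' ≤ c'') {w : Gm}
    (h : Val d c'' w) : fold d c (fold d c' w) = fold d c w :=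
  map_map' (fun _ ha => rep_rep hd (ha.1.mono hc') hc) h

/-- folding a coherent sequence down -/
theorem fold_seq {d : Dt} (hd : PT d) {y : ℕ → Gm} {m0 M : ℕ} (hv : ∀ m, m0 ≤ m → m ≤ M →
    Val d m (y m)) (hf : ∀ m, m0 ≤ m → m < M → fold d m (y (m + 1)) = y m) {m n : ℕ}
    (h0 : m0 ≤ m) (hmn : m ≤ n) (hn : n ≤ M) : fold d m (y n) = y m := by
  induction n, hmn using Nat.le_induction with
  | base => exact fold_id (hv m h0 hn)
  | succ n hmn ih =>
    rw [← fold_fold hd hmn (Nat.le_succ n) (hv (n + 1) (by omega) hn),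
      hf n (by omega) (by omega)]
    exact ih (by omega)

/-- coherent families of words -/
structure Flw (d : Dt) (t : ℕ → Gm) : Prop where
  val : ∀ c, Val d c (t c)
  fold : ∀ c, fold d c (t (c + 1)) = t c

theorem Flw.one (d : Dt) : Flw d fun _ => 1 := ⟨fun c => Val.one d c, fun c => fold_one d c⟩

theorem Flw.mul {d : Dt} {t t' : ℕ → Gm} (h : Flw d t) (h' : Flw d t') :
    Flw d fun c => t c * t' c :=
  ⟨fun c => (h.val c).mul (h'.val c), fun c => by rw [fold_mul, h.fold, h'.fold]⟩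

theorem Flw.inv {d : Dt} {t : ℕ → Gm} (h : Flw d t) : Flw d fun c => (t c)⁻¹ :=
  ⟨fun c => (h.val c).inv, fun c => by rw [fold_inv, h.fold]⟩

theorem Flw.down {d : Dt} (hd : PT d) {t : ℕ → Gm} (h : Flw d t) {m n : ℕ} (hmn : m ≤ n) :
    Low.fold d m (t n) = t m :=
  fold_seq (M := n) hd (m0 := 0) (fun m _ _ => h.val m) (fun m _ _ => h.fold m) (Nat.zero_le m)
    hmn (le_refl _)

variable {κ : ℕ}

theorem dg_fold (d : Dt) (c : ℕ) (w : Gm) : dg κ (fold d c w) = dg κ w := by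
  refine Sb_ind (p := fun w => dg κ (fold d c w) = dg κ w) ?_ ?_ ?_ ?_ (mem_top w)
  · intro a _
    show dg κ (FreeGroup.map _ (FreeGroup.of a)) = _
    rw [FreeGroup.map.of, dg_of, dg_of]
  · rw [fold_one]
  · intro x y _ _ h1 h2
    rw [fold_mul, map_mul, map_mul, h1, h2]
  · intro x _ h1
    rw [fold_inv, map_inv, map_inv, h1]

/-! ### the structures on pairs -/

/-- the relations: `(0, _)` is the predicate of the words of degree `i` at the cut `0`,
`(1, c)` is the sort `c`, `(2, l)` is the multiplication by the letter `l`, and `(3, _)` is the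
folding map -/
def RelG (d : Dt) (i : Fin (κ + 1)) (sy c : ℕ) (w : Gm) (c' : ℕ) (w' : Gm) : Prop :=
  (sy.unpair.1 = 0 ∧ c = c' ∧ w = w' ∧ c = 0 ∧ dg κ w = Multiplicative.ofAdd i) ∨
  (sy.unpair.1 = 1 ∧ c = c' ∧ w = w' ∧ c = sy.unpair.2) ∨
  (sy.unpair.1 = 2 ∧ c = c' ∧ Lam d c sy.unpair.2 ∧ w' = w * FreeGroup.of sy.unpair.2) ∨
  (sy.unpair.1 = 3 ∧ c = c' + 1 ∧ w' = fold d c' w)

theorem relG_zero {d : Dt} {i : Fin (κ + 1)} {x c c' : ℕ} {w w' : Gm} :
    RelG d i (Nat.pair 0 x) c w c' w' ↔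
      c = c' ∧ w = w' ∧ c = 0 ∧ dg κ w = Multiplicative.ofAdd i := by
  unfold RelG
  simp [Nat.unpair_pair]

theorem relG_one {d : Dt} {i : Fin (κ + 1)} {x c c' : ℕ} {w w' : Gm} :
    RelG d i (Nat.pair 1 x) c w c' w' ↔ c = c' ∧ w = w' ∧ c = x := by
  unfold RelG
  simp [Nat.unpair_pair]

theorem relG_two {d : Dt} {i : Fin (κ + 1)} {x c c' : ℕ} {w w' : Gm} :
    RelG d i (Nat.pair 2 x) c w c' w' ↔ c = c' ∧ Lam d c x ∧ w' = w * FreeGroup.of x := by
  unfold RelG
  simp [Nat.unpair_pair]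

theorem relG_three {d : Dt} {i : Fin (κ + 1)} {x c c' : ℕ} {w w' : Gm} :
    RelG d i (Nat.pair 3 x) c w c' w' ↔ c = c' + 1 ∧ w' = fold d c' w := by
  unfold RelG
  simp [Nat.unpair_pair]

/-- an isomorphism from the structure of index `i` onto `B`, given on pairs -/
structure CI (d : Dt) (i : Fin (κ + 1)) (B : Str) (G : ℕ → Gm → ℕ) : Prop where
  rel : ∀ sy c w c' w', Val d c w → Val d c' w' →
    (RelG d i sy c w c' w' ↔ B sy (G c w) (G c' w'))
  inj : ∀ c w c' w', Val d c w → Val d c' w' → G c w = G c' w' → c = c' ∧ w = w'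
  surj : ∀ z, ∃ c w, Val d c w ∧ G c w = z

/-- left multiplication by a coherent family -/
theorem relG_shift {d : Dt} {t : ℕ → Gm} (ht : Flw d t) {i j : Fin (κ + 1)}
    (hij : i + Multiplicative.toAdd (dg κ (t 0)) = j) (sy c : ℕ) (w : Gm) (c' : ℕ) (w' : Gm) :
    RelG d i sy c w c' w' ↔ RelG d j sy c (t c * w) c' (t c' * w') := by
  unfold RelG
  refine or_congr ?_ (or_congr ?_ (or_congr ?_ ?_))
  · refine and_congr Iff.rfl (and_congr_right fun h1 => ?_)
    subst h1
    rw [mul_right_inj]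
    refine and_congr Iff.rfl (and_congr_right fun h1 => ?_)
    subst h1
    rw [map_mul, ← hij]
    constructor
    · intro h
      rw [h, mul_comm, ofAdd_add, ofAdd_toAdd]
    · intro h
      rw [ofAdd_add, ofAdd_toAdd, mul_comm] at h
      exact mul_right_cancel h
  · refine and_congr Iff.rfl (and_congr_right fun h1 => ?_)
    subst h1
    rw [mul_right_inj]
  · refine and_congr Iff.rfl (and_congr_right fun h1 => ?_)
    subst h1
    rw [mul_assoc, mul_right_inj]
  · refine and_congr Iff.rfl (and_congr_right fun h1 => ?_)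
    subst h1
    rw [fold_mul, ht.fold, mul_right_inj]

theorem CI.shift {d : Dt} {i j : Fin (κ + 1)} {B : Str} {G : ℕ → Gm → ℕ} (h : CI d j B G)
    {t : ℕ → Gm} (ht : Flw d t) (hij : i + Multiplicative.toAdd (dg κ (t 0)) = j) :
    CI d i B fun c w => G c (t c * w) where
  rel := fun sy c w c' w' hw hw' => by
    rw [relG_shift ht hij]
    exact h.rel _ _ _ _ _ ((ht.val c).mul hw) ((ht.val c').mul hw')
  inj := fun c w c' w' hw hw' e => by
    obtain ⟨h1, h2⟩ := h.inj _ _ _ _ ((ht.val c).mul hw) ((ht.val c').mul hw') e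
    subst h1
    exact ⟨rfl, mul_left_cancel h2⟩
  surj := fun z => by
    obtain ⟨c, w, h1, h2⟩ := h.surj z
    refine ⟨c, (t c)⁻¹ * w, (ht.val c).inv.mul h1, ?_⟩
    show G c (t c * ((t c)⁻¹ * w)) = z
    rw [mul_inv_cancel_left, h2]

end Pool.Agent.H668.Low
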