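import Mathlib
import Pool.Agent.H668.Comp
import Pool.Agent.H668.Low.Base

set_option autoImplicit false

/-! The rules of the construction. -/

namespace Pool.Agent.H668.Low

open Encodable Denumerable Nat.Partrec Pool.Agent.Helper941 Pool.Agent.Helper941.IsoProb
open Pool.Agent.Helper941.Zeta Pool.Agent.Helper941.Dim

def CertC (d : Dt) (s e c : ℕ) : Prop :=
  ∀ s' < s, prevr d.toDat s' s e → cM c = s' ∧
    cz c 0 = cy (d.C s' e - 1) (cM (d.C s' e - 1)) ∧
    cz c (cl c) = cy c (cM (d.C s' e - 1)) ∧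
    ∀ i < cl c, Fa e s (Nat.pair 2 (cw c i)) (cz c i) (cz c (i + 1)) ∨
      Fa e s (Nat.pair 2 (cw c i)) (cz c (i + 1)) (cz c i)

/-- `c` is a certificate for a response of the `e`-th structure -/
def Cert (d : Dt) (s e c : ℕ) : Prop := CertB s e c ∧ CertC d s e c

/-- the guess of the node `v` -/
def bt (d : Dt) (v k : ℕ) : ℕ := if k < d.N v then d.O v k else 2

/-- `x` is enumerated into the set with index `j` by the stage `s` -/
def En (j s x : ℕ) : Prop := Fa j s 0 x x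

/-- `a` is an ancestor of `u` -/
def Anb (d : Dt) (u a : ℕ) : Prop := a = 0 ∨ (a ≤ u ∧ anc d.pa (a - 1) u = a)

/-- the set with index `j` is a chain at the stage `s` -/
def Ch (d : Dt) (j s : ℕ) : Prop :=
  ∀ y < s, ∀ x < y + 1, En j s x → En j s y → Anb d y x

/-- the node `v` is blocked by the index `j` at the stage `s` -/
def Bl (d : Dt) (s j v : ℕ) : Prop :=
  Ch d j s ∧ ∃ η < v + 1, Anb d v η ∧ En j s η ∧
    ∀ w < v + 1, η ≤ w → Anb d v w → j < d.N w

/-- the new cone of level `n` at the stage `s` is to the left of the node `v` -/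
def Lf (d : Dt) (s v n : ℕ) : Prop :=
  ∃ i < n, d.O s i < bt d v i ∧ ∀ k < i, d.O s k = bt d v k

/-- there is no node with these parameters yet -/
def Fr (d : Dt) (s v j n : ℕ) : Prop :=
  ¬ ∃ u < s, d.pa u = v ∧ d.J u = j + 1 ∧ d.N u = n ∧ agr d.toDat u s n

/-- the type of a new node -/
def Ty (T : ℕ → Prop) (d : Dt) (s v j n : ℕ) : Prop :=
  (1 ≤ j ∧ T j ∧ d.J v = prn j + 1 ∧ d.N v = n ∧ agr d.toDat v s n) ∨ (j = 0 ∧ Lf d s v n)

/-- a node with parent `v`, label `j` and level `n` may be born at the stage `s` -/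
def Elig (T : ℕ → Prop) (d : Dt) (s v j n : ℕ) : Prop :=
  v < s ∧ ¬ d.J v = 0 ∧ (∀ j' < n, ¬ Bl d s j' v) ∧ Fr d s v j n ∧ Ty T d s v j n

/-- the same for a code -/
def El (T : ℕ → Prop) (d : Dt) (s q : ℕ) : Prop :=
  Elig T d s q.unpair.1 q.unpair.2.unpair.1 q.unpair.2.unpair.2

/-! ### the ancestors -/

theorem an_iff {d : Dt} (hd : PT d) (u a : ℕ) : Anb d u a ↔ An d.pa u a := by
  unfold Anb
  constructor
  · rintro (h | ⟨h1, h2⟩)
    · subst h
      -- the root is an ancestor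
      have key : ∀ n u, u ≤ n → An d.pa u 0 := by
        intro n
        induction n with
        | zero => intro u hu; have : u = 0 := by omega
                  subst this; exact An.refl 0
        | succ n ih =>
          intro u hu
          by_cases h1 : u = 0
          · subst h1; exact An.refl 0
          · have h2 := hd.lt u (by omega)
            exact An.trans ⟨1, rfl⟩ (ih (d.pa u) (by omega))
      exact key u u (le_refl u)
    · by_cases h3 : a = 0
      · subst h3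
        have : anc d.pa 0 u = 0 := h2
        by_cases h4 : u = 0
        · subst h4; exact An.refl 0
        · have h5 := (anc_spec hd.lt (show 0 < u by omega)).1
          omega
      · have h4 := anc_spec hd.lt (show a - 1 < u by omega)
        rw [h2] at h4
        exact h4.2.2
  · intro h
    by_cases h1 : a = 0
    · exact Or.inl h1
    · right
      have h2 := h.le hd.le
      have h3 := hd.lt a (by omega)
      exact ⟨h2, anc_eq hd.lt hd.zero h (by omega) (by omega)⟩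

theorem anc_congr {pa pa' : ℕ → ℕ} {s : ℕ} (h : ∀ x < s, pa x = pa' x)
    (hle : ∀ x, pa x ≤ x) {c u : ℕ} (hu : u < s) : anc pa c u = anc pa' c u := by
  unfold anc
  have key : ∀ n : ℕ, (Nat.rec u (fun _ x => if c < pa x then pa x else x) n : ℕ) =
      (Nat.rec u (fun _ x => if c < pa' x then pa' x else x) n : ℕ) ∧
      (Nat.rec u (fun _ x => if c < pa x then pa x else x) n : ℕ) ≤ u := by
    intro n
    induction n with
    | zero => exact ⟨rfl, le_refl _⟩
    | succ n ih =>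
      obtain ⟨h1, h2⟩ := ih
      set x : ℕ := (Nat.rec u (fun _ x => if c < pa x then pa x else x) n : ℕ) with hx
      have e1 : (Nat.rec u (fun _ x => if c < pa x then pa x else x) (n + 1) : ℕ) =
        if c < pa x then pa x else x := rfl
      have e2 : (Nat.rec u (fun _ x => if c < pa' x then pa' x else x) (n + 1) : ℕ) =
        if c < pa' x then pa' x else x := by rw [h1]
      rw [e1, e2, h x (by omega)]
      refine ⟨rfl, ?_⟩
      have h3 := hle x
      rw [h x (by omega)] at h3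
      split_ifs <;> omega
  exact (key u).1

/-! ### agreement of data -/

/-- agreement of data up to level `e` of stage `s` -/
structure DEq (d d' : Dt) (s e : ℕ) : Prop where
  O : ∀ s' < s, ∀ i, d.O s' i = d'.O s' i
  C : ∀ s' < s, ∀ i, d.C s' i = d'.C s' i
  J : ∀ s' < s, d.J s' = d'.J s'
  pa : ∀ s' < s, d.pa s' = d'.pa s'
  N : ∀ s' < s, d.N s' = d'.N s'
  cur : ∀ i < e, d.O s i = d'.O s i

variable {d d' : Dt} {s e : ℕ}

theorem DEq.symm (h : DEq d d' s e) : DEq d' d s e :=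
  ⟨fun s' h1 i => (h.O s' h1 i).symm, fun s' h1 i => (h.C s' h1 i).symm,
    fun s' h1 => (h.J s' h1).symm, fun s' h1 => (h.pa s' h1).symm,
    fun s' h1 => (h.N s' h1).symm, fun i h1 => (h.cur i h1).symm⟩

theorem DEq.old (h : DEq d d' s e) : Dim.DEq d.toDat d'.toDat s e :=
  ⟨h.O, h.C, h.J, h.pa, h.cur⟩

theorem DEq.mono (h : DEq d d' s e) {e' : ℕ} (he : e' ≤ e) : DEq d d' s e' :=
  ⟨h.O, h.C, h.J, h.pa, h.N, fun i hi => h.cur i (by omega)⟩

theorem DEq.certC (h : DEq d d' s e) {c : ℕ} (hh : CertC d s e c) : CertC d' s e c := by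
  intro s' hs' h1
  have h2 := hh s' hs' (h.symm.old.prevr hs' h1)
  rw [h.C s' hs'] at h2
  exact h2

theorem DEq.cert (h : DEq d d' s e) {c : ℕ} : Cert d s e c ↔ Cert d' s e c :=
  ⟨fun hh => ⟨hh.1, h.certC hh.2⟩, fun hh => ⟨hh.1, h.symm.certC hh.2⟩⟩

theorem DEq.anb (h : DEq d d' s e) (hd : PT d) {u a : ℕ} (hu : u < s) :
    Anb d u a ↔ Anb d' u a := by
  unfold Anb
  rw [anc_congr h.pa hd.le hu]

theorem DEq.bt (h : DEq d d' s e) {v k : ℕ} (hv : v < s) : bt d v k = Low.bt d' v k := by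
  unfold Low.bt
  rw [h.N v hv, h.O v hv]

theorem DEq.ch (h : DEq d d' s e) (hd : PT d) {j : ℕ} : Ch d j s ↔ Ch d' j s := by
  unfold Ch
  refine forall_congr' fun y => forall_congr' fun hy => forall_congr' fun x =>
    forall_congr' fun _ => forall_congr' fun _ => forall_congr' fun _ => h.anb hd hy

theorem DEq.bl' (h : DEq d d' s e) (hd : PT d) {j v : ℕ} (hv : v < s) (hh : Bl d s j v) :
    Bl d' s j v := by
  obtain ⟨h1, η, h2, h3, h4, h5⟩ := hh
  refine ⟨(h.ch hd).1 h1, η, h2, (h.anb hd hv).1 h3, h4, fun w hw h6 h7 => ?_⟩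
  rw [← h.N w (by omega)]
  exact h5 w hw h6 ((h.anb hd hv).2 h7)

theorem DEq.elig' (h : DEq d d' s e) (hd : PT d) (hd' : PT d') {T : ℕ → Prop} {v j n : ℕ}
    (hn : n ≤ e) (hh : Elig T d s v j n) : Elig T d' s v j n := by
  obtain ⟨hv, h1, h2, h3, h4⟩ := hh
  refine ⟨hv, by rw [← h.J v hv]; exact h1, fun j' hj' hb => h2 j' hj' (h.symm.bl' hd' hv hb),
    ?_, ?_⟩
  · rintro ⟨u, hu, h5, h6, h7, h8⟩
    refine h3 ⟨u, hu, ?_, ?_, ?_, ?_⟩
    · rw [h.pa u hu]; exact h5
    · rw [h.J u hu]; exact h6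
    · rw [h.N u hu]; exact h7
    · exact h.symm.old.agr (le_of_lt hu) (le_refl s) hn h8
  · rcases h4 with ⟨h5, h6, h7, h8, h9⟩ | ⟨h5, i, hi, h6, h7⟩
    · refine Or.inl ⟨h5, h6, ?_, ?_, h.old.agr (le_of_lt hv) (le_refl s) hn h9⟩
      · rw [← h.J v hv]; exact h7
      · rw [← h.N v hv]; exact h8
    · refine Or.inr ⟨h5, i, hi, ?_, fun k hk => ?_⟩
      · rw [← h.bt hv, ← h.cur i (by omega)]; exact h6
      · rw [← h.bt hv, ← h.cur k (by omega)]; exact h7 k hk

theorem DEq.elig (h : DEq d d' s e) (hd : PT d) (hd' : PT d') {T : ℕ → Prop} {v j n : ℕ}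
    (hn : n ≤ e) : Elig T d s v j n ↔ Elig T d' s v j n :=
  ⟨h.elig' hd hd' hn, h.symm.elig' hd' hd hn⟩

/-- the specification of the construction -/
structure Spec (T : ℕ → Prop) (d : Dt) : Prop where
  yes : ∀ s e, e < s → (∃ c < s, Cert d s e c) →
    ∃ c < s, Cert d s e c ∧ d.C s e = c + 1 ∧ d.O s e = 1
  no : ∀ s e, ¬ (e < s ∧ ∃ c < s, Cert d s e c) → d.C s e = 0 ∧ d.O s e = 2
  zero : d.J 0 = 1 ∧ d.pa 0 = 0 ∧ d.N 0 = 0
  pt : PT d
  succ : ∀ s, 1 ≤ s → (∃ q, q ≤ s ∧ El T d s q ∧ (∀ q' < q, ¬ El T d s q') ∧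
      d.pa s = q.unpair.1 ∧ d.J s = q.unpair.2.unpair.1 + 1 ∧ d.N s = q.unpair.2.unpair.2) ∨
    ((∀ q ≤ s, ¬ El T d s q) ∧ d.J s = 0 ∧ d.pa s = 0 ∧ d.N s = 0)

end Pool.Agent.H668.Low
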