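import Mathlib
import Pool.Agent.H668.Low.Cons

set_option autoImplicit false

namespace Pool.Agent.H668.Low

open Encodable Denumerable Nat.Partrec Pool.Agent.Helper941 Pool.Agent.Helper941.IsoProb
open Pool.Agent.Helper941.Zeta Pool.Agent.Helper941.Dim

/-- the data coded by a sequence of numbers -/
def dfn (h : ℕ → ℕ) : Dt where
  O s e := dO (h s) e
  C s e := dC (h s) e
  J s := if dJ (h s) = 0 then 0 else (dJ (h s) - 1).unpair.2.unpair.1 + 1
  pa s := if (dJ (h s) - 1).unpair.1 < s then (dJ (h s) - 1).unpair.1 else 0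
  N s := if dJ (h s) = 0 then 0 else (dJ (h s) - 1).unpair.2.unpair.2

theorem pt_dfn (h : ℕ → ℕ) : PT (dfn h) where
  lt := fun u hu => by
    show (if (dJ (h u) - 1).unpair.1 < u then (dJ (h u) - 1).unpair.1 else 0) < u
    split_ifs <;> omega
  zero := by
    show (if (dJ (h 0) - 1).unpair.1 < 0 then (dJ (h 0) - 1).unpair.1 else 0) = 0
    rw [if_neg (by omega)]

variable {α : Type} [Primcodable α] {H : α → List ℕ}

theorem n_O {s e : α → ℕ} (hH : Computable H) (hs : Computable s) (he : Computable e) :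
    Computable fun a => (dfn (getc (H a))).O (s a) (e a) := Dim.c_O hH hs he

theorem n_C {s e : α → ℕ} (hH : Computable H) (hs : Computable s) (he : Computable e) :
    Computable fun a => (dfn (getc (H a))).C (s a) (e a) := Dim.c_C hH hs he

theorem c_dJ {s : α → ℕ} (hH : Computable H) (hs : Computable s) :
    Computable fun a => dJ (getc (H a) (s a)) := c_up1 (c_getc hH hs)

theorem n_J {s : α → ℕ} (hH : Computable H) (hs : Computable s) :
    Computable fun a => (dfn (getc (H a))).J (s a) := by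
  have h := c_dJ hH hs
  exact c_ite (p_eq h (c_const 0)) (c_const 0) (c_succ (c_up1 (c_up2 (c_sub h (c_const 1)))))

theorem n_N {s : α → ℕ} (hH : Computable H) (hs : Computable s) :
    Computable fun a => (dfn (getc (H a))).N (s a) := by
  have h := c_dJ hH hs
  exact c_ite (p_eq h (c_const 0)) (c_const 0) (c_up2 (c_up2 (c_sub h (c_const 1))))

theorem n_pa {s : α → ℕ} (hH : Computable H) (hs : Computable s) :
    Computable fun a => (dfn (getc (H a))).pa (s a) := by
  have h := c_up1 (c_sub (c_dJ hH hs) (c_const 1))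
  exact c_ite (p_lt h hs) h (c_const 0)

theorem n_prevr {s' s e : α → ℕ} (hH : Computable H) (hs' : Computable s') (hs : Computable s)
    (he : Computable e) :
    ComputablePred fun a => prevr (dfn (getc (H a))).toDat (s' a) (s a) (e a) :=
  (p_prevr hH hs' hs he).of_eq fun _ => Iff.rfl

theorem n_agr {s s' e : α → ℕ} (hH : Computable H) (hs : Computable s) (hs' : Computable s')
    (he : Computable e) :
    ComputablePred fun a => agr (dfn (getc (H a))).toDat (s a) (s' a) (e a) :=
  (p_agr hH hs hs' he).of_eq fun _ => Iff.rfl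

theorem n_certC {s e c : α → ℕ} (hH : Computable H)
    (hs : Computable s) (he : Computable e) (hc : Computable c) :
    ComputablePred fun a => CertC (dfn (getc (H a))) (s a) (e a) (c a) := by
  unfold CertC
  have h1 := n_prevr (α := α × ℕ) (H := fun p => H p.1) (c_l hH) c_r (c_l hs) (c_l he)
  have c1 : Computable fun p : α × ℕ => (dfn (getc (H p.1))).C p.2 (e p.1) - 1 :=
    c_sub (n_C (c_l hH) c_r (c_l he)) (c_const 1)
  have h2 : ComputablePred fun p : α × ℕ => cM (c p.1) = p.2 := p_eq (c_cM (c_l hc)) c_r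
  have h3 : ComputablePred fun p : α × ℕ => cz (c p.1) 0 =
      cy ((dfn (getc (H p.1))).C p.2 (e p.1) - 1)
        (cM ((dfn (getc (H p.1))).C p.2 (e p.1) - 1)) :=
    p_eq (c_cz (c_l hc) (c_const 0)) (c_cy c1 (c_cM c1))
  have h4 : ComputablePred fun p : α × ℕ => cz (c p.1) (cl (c p.1)) =
      cy (c p.1) (cM ((dfn (getc (H p.1))).C p.2 (e p.1) - 1)) :=
    p_eq (c_cz (c_l hc) (c_cl (c_l hc))) (c_cy (c_l hc) (c_cM c1))
  have z0 : Computable fun p : α × ℕ => cz (c p.1) p.2 := c_cz (c_l hc) c_r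
  have z1 : Computable fun p : α × ℕ => cz (c p.1) (p.2 + 1) := c_cz (c_l hc) (c_succ c_r)
  have w0 : Computable fun p : α × ℕ => Nat.pair 2 (cw (c p.1) p.2) :=
    c_npair (c_const 2) (c_cw (c_l hc) c_r)
  have h5 : ComputablePred fun a : α => ∀ i < cl (c a),
      Fa (e a) (s a) (Nat.pair 2 (cw (c a) i)) (cz (c a) i) (cz (c a) (i + 1)) ∨
      Fa (e a) (s a) (Nat.pair 2 (cw (c a) i)) (cz (c a) (i + 1)) (cz (c a) i) :=
    p_ball (c_cl hc) (p_or (p_Fa (c_l he) (c_l hs) w0 z0 z1) (p_Fa (c_l he) (c_l hs) w0 z1 z0))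
  have h6 := computablePred_comp h5 (c_fst (c_id (α := α × ℕ)))
  exact p_ball hs (p_imp h1 (p_and h2 (p_and h3 (p_and h4 h6))))

theorem n_cert {s e c : α → ℕ} (hH : Computable H)
    (hs : Computable s) (he : Computable e) (hc : Computable c) :
    ComputablePred fun a => Cert (dfn (getc (H a))) (s a) (e a) (c a) := by
  unfold Cert
  exact p_and (p_certB' hs he hc) (n_certC hH hs he hc)

theorem n_bt {v k : α → ℕ} (hH : Computable H) (hv : Computable v) (hk : Computable k) :
    Computable fun a => bt (dfn (getc (H a))) (v a) (k a) := by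
  unfold bt
  exact c_ite (p_lt hk (n_N hH hv)) (n_O hH hv hk) (c_const 2)

theorem p_En {j s x : α → ℕ} (hj : Computable j) (hs : Computable s) (hx : Computable x) :
    ComputablePred fun a => En (j a) (s a) (x a) := by
  unfold En
  exact p_Fa hj hs (c_const 0) hx hx

theorem n_anc {c u : α → ℕ} (hH : Computable H) (hc : Computable c) (hu : Computable u) :
    Computable fun a => anc (dfn (getc (H a))).pa (c a) (u a) := by
  unfold anc
  refine Computable.nat_rec (f := u) (g := u)
    (h := fun (a : α) (q : ℕ × ℕ) => if c a < (dfn (getc (H a))).pa q.2 then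
      (dfn (getc (H a))).pa q.2 else q.2) hu hu ?_
  have h1 : Computable fun p : α × ℕ × ℕ => (dfn (getc (H p.1))).pa p.2.2 :=
    n_pa (α := α × ℕ × ℕ) (H := fun p => H p.1) (hH.comp (c_fst c_id)) (c_snd (c_snd c_id))
  have h2 : Computable fun p : α × ℕ × ℕ => c p.1 := hc.comp (c_fst c_id)
  exact c_ite (p_lt h2 h1) h1 (c_snd (c_snd c_id))

theorem n_anb {u x : α → ℕ} (hH : Computable H) (hu : Computable u) (hx : Computable x) :
    ComputablePred fun a => Anb (dfn (getc (H a))) (u a) (x a) := by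
  unfold Anb
  exact p_or (p_eq hx (c_const 0)) (p_and (p_le hx hu)
    (p_eq (n_anc hH (c_sub hx (c_const 1)) hu) hx))

theorem n_ch {j s : α → ℕ} (hH : Computable H) (hj : Computable j) (hs : Computable s) :
    ComputablePred fun a => Ch (dfn (getc (H a))) (j a) (s a) := by
  unfold Ch
  have h1 := n_anb (α := (α × ℕ) × ℕ) (H := fun p => H p.1.1) (c_l (c_l hH)) (c_l c_r) c_r
  have h2 : ComputablePred fun p : (α × ℕ) × ℕ => En (j p.1.1) (s p.1.1) p.2 :=
    p_En (c_l (c_l hj)) (c_l (c_l hs)) c_r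
  have h3 : ComputablePred fun p : (α × ℕ) × ℕ => En (j p.1.1) (s p.1.1) p.1.2 :=
    p_En (c_l (c_l hj)) (c_l (c_l hs)) (c_l c_r)
  exact p_ball hs (p_ball (c_succ c_r) (p_imp h2 (p_imp h3 h1)))

theorem n_bl {s j v : α → ℕ} (hH : Computable H) (hs : Computable s) (hj : Computable j)
    (hv : Computable v) :
    ComputablePred fun a => Bl (dfn (getc (H a))) (s a) (j a) (v a) := by
  unfold Bl
  have h1 := n_ch hH hj hs
  have h2 : ComputablePred fun p : α × ℕ => Anb (dfn (getc (H p.1))) (v p.1) p.2 :=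
    n_anb (α := α × ℕ) (H := fun p => H p.1) (c_l hH) (c_l hv) c_r
  have h3 : ComputablePred fun p : α × ℕ => En (j p.1) (s p.1) p.2 :=
    p_En (c_l hj) (c_l hs) c_r
  have h4 : ComputablePred fun p : (α × ℕ) × ℕ => Anb (dfn (getc (H p.1.1))) (v p.1.1) p.2 :=
    n_anb (α := (α × ℕ) × ℕ) (H := fun p => H p.1.1) (c_l (c_l hH)) (c_l (c_l hv)) c_r
  have h5 : ComputablePred fun p : (α × ℕ) × ℕ => j p.1.1 < (dfn (getc (H p.1.1))).N p.2 :=
    p_lt (c_l (c_l hj)) (n_N (α := (α × ℕ) × ℕ) (H := fun p => H p.1.1) (c_l (c_l hH)) c_r)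
  have h6 : ComputablePred fun p : (α × ℕ) × ℕ => p.1.2 ≤ p.2 := p_le (c_l c_r) c_r
  exact p_and h1 (p_bex (c_succ hv) (p_and h2 (p_and h3
    (p_ball (c_succ (c_l hv)) (p_imp h6 (p_imp h4 h5))))))

theorem n_lf {s v n : α → ℕ} (hH : Computable H) (hs : Computable s)
    (hv : Computable v) (hn : Computable n) :
    ComputablePred fun a => Lf (dfn (getc (H a))) (s a) (v a) (n a) := by
  unfold Lf
  have h1 : ComputablePred fun p : α × ℕ => (dfn (getc (H p.1))).O (s p.1) p.2 <
      bt (dfn (getc (H p.1))) (v p.1) p.2 :=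
    p_lt (n_O (c_l hH) (c_l hs) c_r) (n_bt (c_l hH) (c_l hv) c_r)
  have h2 : ComputablePred fun p : (α × ℕ) × ℕ => (dfn (getc (H p.1.1))).O (s p.1.1) p.2 =
      bt (dfn (getc (H p.1.1))) (v p.1.1) p.2 :=
    p_eq (n_O (c_l (c_l hH)) (c_l (c_l hs)) c_r) (n_bt (c_l (c_l hH)) (c_l (c_l hv)) c_r)
  exact p_bex hn (p_and h1 (p_ball c_r h2))

theorem n_fr {s v j n : α → ℕ} (hH : Computable H) (hs : Computable s)
    (hv : Computable v) (hj : Computable j) (hn : Computable n) :
    ComputablePred fun a => Fr (dfn (getc (H a))) (s a) (v a) (j a) (n a) := by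
  unfold Fr
  have h1 : ComputablePred fun p : α × ℕ => (dfn (getc (H p.1))).pa p.2 = v p.1 :=
    p_eq (n_pa (c_l hH) c_r) (c_l hv)
  have h2 : ComputablePred fun p : α × ℕ => (dfn (getc (H p.1))).J p.2 = j p.1 + 1 :=
    p_eq (n_J (c_l hH) c_r) (c_succ (c_l hj))
  have h3 : ComputablePred fun p : α × ℕ => (dfn (getc (H p.1))).N p.2 = n p.1 :=
    p_eq (n_N (c_l hH) c_r) (c_l hn)
  have h4 : ComputablePred fun p : α × ℕ =>
      agr (dfn (getc (H p.1))).toDat p.2 (s p.1) (n p.1) :=
    n_agr (α := α × ℕ) (H := fun p => H p.1) (c_l hH) c_r (c_l hs) (c_l hn)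
  exact p_not (p_bex hs (p_and h1 (p_and h2 (p_and h3 h4))))

theorem n_ty {T : ℕ → Prop} (hT : ComputablePred T) {s v j n : α → ℕ} (hH : Computable H)
    (hs : Computable s) (hv : Computable v) (hj : Computable j) (hn : Computable n) :
    ComputablePred fun a => Ty T (dfn (getc (H a))) (s a) (v a) (j a) (n a) := by
  unfold Ty
  exact p_or (p_and (p_le (c_const 1) hj) (p_and (computablePred_comp hT hj)
    (p_and (p_eq (n_J hH hv) (c_succ (c_prn.comp hj))) (p_and (p_eq (n_N hH hv) hn)
      (n_agr hH hv hs hn))))) (p_and (p_eq hj (c_const 0)) (n_lf hH hs hv hn))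

theorem n_elig {T : ℕ → Prop} (hT : ComputablePred T) {s v j n : α → ℕ} (hH : Computable H)
    (hs : Computable s) (hv : Computable v) (hj : Computable j) (hn : Computable n) :
    ComputablePred fun a => Elig T (dfn (getc (H a))) (s a) (v a) (j a) (n a) := by
  unfold Elig
  have h1 := n_bl (α := α × ℕ) (H := fun p => H p.1) (c_l hH) (c_l hs) c_r (c_l hv)
  exact p_and (p_lt hv hs) (p_and (p_not (p_eq (n_J hH hv) (c_const 0)))
    (p_and (p_ball hn (p_not h1)) (p_and (n_fr hH hs hv hj hn) (n_ty hT hH hs hv hj hn))))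

theorem n_el {T : ℕ → Prop} (hT : ComputablePred T) {s q : α → ℕ} (hH : Computable H)
    (hs : Computable s) (hq : Computable q) :
    ComputablePred fun a => El T (dfn (getc (H a))) (s a) (q a) := by
  unfold El
  exact n_elig hT hH hs (c_up1 hq) (c_up1 (c_up2 hq)) (c_up2 (c_up2 hq))

end Pool.Agent.H668.Low
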