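import Mathlib
import Pool.Agent.H668.Low.Comp

set_option autoImplicit false

/-! The construction. -/

namespace Pool.Agent.H668.Low

open Encodable Denumerable Nat.Partrec Pool.Agent.Helper941 Pool.Agent.Helper941.IsoProb
open Pool.Agent.Helper941.Zeta
open Pool.Agent.Helper941.Dim hiding entry row row_zero row_succ row_length row_get nxt hist
  hist_succ hist_length hist_get hh getc_hist con c_entry c_row c_nxt c_hist c_hh con_O con_C
  con_J con_pa hh_row con_ent con_ent' getc_ext getc_ext' entry_eq deq_con con_spec

variable {α : Type} [Primcodable α]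

open Classical in
/-- the entry of the opponent `w.length` at the stage `H.length` -/
noncomputable def entry (H w : List ℕ) : ℕ :=
  if lst H.length (Cert (dfn (getc (ext H w))) H.length w.length) < H.length ∧
    w.length < H.length then
    Nat.pair 1 (lst H.length (Cert (dfn (getc (ext H w))) H.length w.length) + 1)
  else 0

noncomputable def row (H : List ℕ) (n : ℕ) : List ℕ :=
  Nat.rec [] (fun _ w => w ++ [entry H w]) n

theorem row_succ (H : List ℕ) (n : ℕ) : row H (n + 1) = row H n ++ [entry H (row H n)] := rfl

theorem row_length (H : List ℕ) (n : ℕ) : (row H n).length = n := by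
  induction n with
  | zero => rfl
  | succ n ih => rw [row_succ, List.length_append, ih]; rfl

theorem row_get (H : List ℕ) {n i : ℕ} (h : i < n) :
    (row H n)[i]? = some (entry H (row H i)) := by
  induction n with
  | zero => omega
  | succ n ih =>
    rw [row_succ]
    by_cases h1 : i < n
    · rw [List.getElem?_append_left (by rw [row_length]; exact h1), ih h1]
    · have : i = n := by omega
      subst this
      rw [List.getElem?_append_right (by rw [row_length])]
      simp [row_length]

/-- the least eligible code -/
noncomputable def qj (T : ℕ → Prop) (H : List ℕ) : ℕ :=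
  lst (H.length + 1) (El T (dfn (getc (ext H (row H H.length)))) H.length)

open Classical in
noncomputable def nxt (T : ℕ → Prop) (H : List ℕ) : ℕ :=
  if H.length = 0 then Nat.pair 1 (Nat.pair 0 (encode (row H H.length)))
  else if qj T H < H.length + 1 then
    Nat.pair (qj T H + 1) (Nat.pair 0 (encode (row H H.length)))
  else Nat.pair 0 (Nat.pair 0 (encode (row H H.length)))

noncomputable def hist (T : ℕ → Prop) (n : ℕ) : List ℕ :=
  Nat.rec [] (fun _ H => H ++ [nxt T H]) n

theorem hist_succ (T : ℕ → Prop) (n : ℕ) :
    hist T (n + 1) = hist T n ++ [nxt T (hist T n)] := rfl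

theorem hist_length (T : ℕ → Prop) (n : ℕ) : (hist T n).length = n := by
  induction n with
  | zero => rfl
  | succ n ih => rw [hist_succ, List.length_append, ih]; rfl

theorem hist_get (T : ℕ → Prop) {n i : ℕ} (h : i < n) :
    (hist T n)[i]? = some (nxt T (hist T i)) := by
  induction n with
  | zero => omega
  | succ n ih =>
    rw [hist_succ]
    by_cases h1 : i < n
    · rw [List.getElem?_append_left (by rw [hist_length]; exact h1), ih h1]
    · have : i = n := by omega
      subst this
      rw [List.getElem?_append_right (by rw [hist_length])]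
      simp [hist_length]

noncomputable def hh (T : ℕ → Prop) (s : ℕ) : ℕ := nxt T (hist T s)

theorem getc_hist (T : ℕ → Prop) {n i : ℕ} (h : i < n) :
    getc (hist T n) i = hh T i := by
  unfold getc hh
  rw [hist_get T h]
  rfl

/-- the construction -/
noncomputable def con (T : ℕ → Prop) : Dt := dfn (hh T)

/-! ### computability -/

open Classical in
theorem c_entry {G w : α → List ℕ} (hG : Computable G)
    (hw : Computable w) : Computable fun a => entry (G a) (w a) := by
  have hE : Computable fun a => ext (G a) (w a) := c_ext hG hw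
  have hl : Computable fun a => lst (G a).length
      (Cert (dfn (getc (ext (G a) (w a)))) (G a).length (w a).length) :=
    c_lst (c_len hG) (n_cert (α := α × ℕ) (H := fun p => ext (G p.1) (w p.1)) (c_l hE)
      (c_l (c_len hG)) (c_l (c_len hw)) c_r)
  unfold entry
  exact c_ite (p_and (p_lt hl (c_len hG)) (p_lt (c_len hw) (c_len hG)))
    (c_npair (c_const 1) (c_succ hl)) (c_const 0)

theorem c_row {G : α → List ℕ} {n : α → ℕ}
    (hG : Computable G) (hn : Computable n) : Computable fun a => row (G a) (n a) := by
  unfold row
  refine Computable.nat_rec (f := n) (g := fun _ => ([] : List ℕ))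
    (h := fun (a : α) (q : ℕ × List ℕ) => q.2 ++ [entry (G a) q.2]) hn (c_const []) ?_
  have h1 : Computable fun p : α × ℕ × List ℕ => p.2.2 := c_snd (c_snd c_id)
  have h2 : Computable fun p : α × ℕ × List ℕ => G p.1 := hG.comp (c_fst c_id)
  exact Computable.list_concat.comp h1 (c_entry h2 h1)

theorem c_qj {T : ℕ → Prop} (hT : ComputablePred T) {G : α → List ℕ} (hG : Computable G) :
    Computable fun a => qj T (G a) := by
  have hr : Computable fun a => row (G a) (G a).length := c_row hG (c_len hG)
  have hE : Computable fun a => ext (G a) (row (G a) (G a).length) := c_ext hG hr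
  exact c_lst (c_succ (c_len hG)) (n_el (α := α × ℕ)
    (H := fun p => ext (G p.1) (row (G p.1) (G p.1).length)) hT (c_l hE) (c_l (c_len hG)) c_r)

open Classical in
theorem c_nxt {T : ℕ → Prop} (hT : ComputablePred T) {G : α → List ℕ} (hG : Computable G) :
    Computable fun a => nxt T (G a) := by
  have hr : Computable fun a => row (G a) (G a).length := c_row hG (c_len hG)
  have he : Computable fun a => encode (row (G a) (G a).length) := Computable.encode.comp hr
  have hq := c_qj hT hG
  unfold nxt
  exact c_ite (p_eq (c_len hG) (c_const 0)) (c_npair (c_const 1) (c_npair (c_const 0) he))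
    (c_ite (p_lt hq (c_succ (c_len hG))) (c_npair (c_succ hq) (c_npair (c_const 0) he))
      (c_npair (c_const 0) (c_npair (c_const 0) he)))

theorem c_hist {T : ℕ → Prop} (hT : ComputablePred T) : Computable (hist T) := by
  unfold hist
  refine Computable.nat_rec (f := fun n : ℕ => n) (g := fun _ => ([] : List ℕ))
    (h := fun (_ : ℕ) (q : ℕ × List ℕ) => q.2 ++ [nxt T q.2]) c_id (c_const []) ?_
  have h1 : Computable fun p : ℕ × ℕ × List ℕ => p.2.2 := c_snd (c_snd c_id)
  exact Computable.list_concat.comp h1 (c_nxt hT h1)

theorem c_hh {T : ℕ → Prop} (hT : ComputablePred T) : Computable (hh T) :=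
  c_nxt hT (c_hist hT)

/-- the data are computable -/
structure DtC (d : Dt) : Prop where
  O : Computable fun p : ℕ × ℕ => d.O p.1 p.2
  C : Computable fun p : ℕ × ℕ => d.C p.1 p.2
  J : Computable d.J
  pa : Computable d.pa
  N : Computable d.N

theorem con_comp {T : ℕ → Prop} (hT : ComputablePred T) : DtC (con T) := by
  have h := c_hh hT
  have h1 : Computable fun s => dJ (hh T s) := c_up1 h
  refine ⟨?_, ?_, ?_, ?_, ?_⟩
  · exact c_sub (c_const 2) (c_up1 (c_ent (c_up2 (c_up2 (h.comp (c_fst c_id)))) (c_snd c_id)))
  · exact c_up2 (c_ent (c_up2 (c_up2 (h.comp (c_fst c_id)))) (c_snd c_id))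
  · exact c_ite (p_eq h1 (c_const 0)) (c_const 0)
      (c_succ (c_up1 (c_up2 (c_sub h1 (c_const 1)))))
  · have h2 := c_up1 (c_sub h1 (c_const 1))
    exact c_ite (p_lt h2 c_id) h2 (c_const 0)
  · exact c_ite (p_eq h1 (c_const 0)) (c_const 0) (c_up2 (c_up2 (c_sub h1 (c_const 1))))

/-! ### the specification -/

theorem hh_row (T : ℕ → Prop) (s : ℕ) :
    (hh T s).unpair.2.unpair.2 = encode (row (hist T s) s) := by
  unfold hh nxt
  rw [hist_length]
  split_ifs <;> simp

theorem con_ent (T : ℕ → Prop) {s e : ℕ} (h : e < s) :
    ent (hh T s).unpair.2.unpair.2 e = entry (hist T s) (row (hist T s) e) := by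
  unfold ent
  rw [hh_row, ofNat_encode, row_get _ h]
  rfl

theorem con_ent' (T : ℕ → Prop) {s e : ℕ} (h : s ≤ e) :
    ent (hh T s).unpair.2.unpair.2 e = 0 := by
  unfold ent
  rw [hh_row, ofNat_encode, List.getElem?_eq_none (by rw [row_length]; exact h)]
  rfl

theorem getc_ext (T : ℕ → Prop) {s s' : ℕ} (h : s' < s) (w : List ℕ) :
    getc (ext (hist T s) w) s' = hh T s' := by
  rw [← getc_hist T h]
  unfold getc ext
  rw [List.getElem?_append_left (by rw [hist_length]; exact h)]

theorem getc_ext' (T : ℕ → Prop) (s : ℕ) (w : List ℕ) :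
    getc (ext (hist T s) w) s = Nat.pair 0 (Nat.pair 0 (encode w)) := by
  unfold getc ext
  rw [List.getElem?_append_right (by rw [hist_length]), hist_length]
  simp

open Classical in
theorem entry_eq {H w : List ℕ} {s e : ℕ} (h1 : H.length = s)
    (h2 : w.length = e) : entry H w =
    if lst s (Cert (dfn (getc (ext H w))) s e) < s ∧ e < s then
      Nat.pair 1 (lst s (Cert (dfn (getc (ext H w))) s e) + 1) else 0 := by
  subst h1 h2
  rfl

theorem deq_con (T : ℕ → Prop) {s e : ℕ} (he : e ≤ s) :
    DEq (dfn (getc (ext (hist T s) (row (hist T s) e)))) (con T) s e where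
  O := fun s' hs' i => by
    show dO (getc _ s') i = dO (hh T s') i
    rw [getc_ext T hs']
  C := fun s' hs' i => by
    show dC (getc _ s') i = dC (hh T s') i
    rw [getc_ext T hs']
  J := fun s' hs' => by
    show (if dJ (getc _ s') = 0 then 0 else (dJ (getc _ s') - 1).unpair.2.unpair.1 + 1) =
      if dJ (hh T s') = 0 then 0 else (dJ (hh T s') - 1).unpair.2.unpair.1 + 1
    rw [getc_ext T hs']
  pa := fun s' hs' => by
    show (if (dJ (getc _ s') - 1).unpair.1 < s' then (dJ (getc _ s') - 1).unpair.1 else 0) =
      if (dJ (hh T s') - 1).unpair.1 < s' then (dJ (hh T s') - 1).unpair.1 else 0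
    rw [getc_ext T hs']
  N := fun s' hs' => by
    show (if dJ (getc _ s') = 0 then 0 else (dJ (getc _ s') - 1).unpair.2.unpair.2) =
      if dJ (hh T s') = 0 then 0 else (dJ (hh T s') - 1).unpair.2.unpair.2
    rw [getc_ext T hs']
  cur := fun i hi => by
    show dO (getc _ s) i = dO (hh T s) i
    rw [getc_ext']
    unfold dO
    rw [con_ent T (by omega : i < s)]
    simp only [Nat.unpair_pair]
    unfold ent
    rw [ofNat_encode, row_get _ hi]
    rfl

theorem con_spec (T : ℕ → Prop) : Spec T (con T) where
  yes := by
    intro s e hes ⟨c0, hc0, hC0⟩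
    have hd := deq_con T (show e ≤ s by omega)
    set P := Cert (dfn (getc (ext (hist T s) (row (hist T s) e)))) s e with hP
    have h0 : P c0 := hd.cert.2 hC0
    have hlt : lst s P < s := lt_of_le_of_lt (lst_le h0) hc0
    have hm : P (lst s P) := lst_prop hlt
    have hm' : Cert (con T) s e (lst s P) := hd.cert.1 hm
    have hent : ent (hh T s).unpair.2.unpair.2 e =
        entry (hist T s) (row (hist T s) e) := con_ent T hes
    refine ⟨lst s P, hlt, hm', ?_⟩
    rw [entry_eq (hist_length T s) (row_length _ e), if_pos ⟨hlt, hes⟩] at hent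
    refine ⟨?_, ?_⟩
    · show dC (hh T s) e = _
      unfold dC
      rw [hent, Nat.unpair_pair]
    · show dO (hh T s) e = _
      unfold dO
      rw [hent, Nat.unpair_pair]
      rfl
  no := by
    intro s e hn
    have key : ent (hh T s).unpair.2.unpair.2 e = 0 := by
      by_cases hes : e < s
      · rw [con_ent T hes]
        rw [entry_eq (hist_length T s) (row_length _ e), if_neg]
        rintro ⟨h1, h2⟩
        exact hn ⟨h2, _, h1, (deq_con T (show e ≤ s by omega)).cert.1 (lst_prop h1)⟩
      · exact con_ent' T (by omega)
    constructor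
    · show dC (hh T s) e = _
      unfold dC
      rw [key, unpair_zero']
    · show dO (hh T s) e = _
      unfold dO
      rw [key, unpair_zero']
      rfl
  zero := by
    have h : dJ (hh T 0) = 1 := by
      show dJ (nxt T (hist T 0)) = _
      unfold nxt dJ
      rw [if_pos (hist_length T 0), Nat.unpair_pair]
    refine ⟨?_, (pt_dfn _).zero, ?_⟩
    · show (if dJ (hh T 0) = 0 then 0 else (dJ (hh T 0) - 1).unpair.2.unpair.1 + 1) = 1
      rw [h]
      simp
    · show (if dJ (hh T 0) = 0 then 0 else (dJ (hh T 0) - 1).unpair.2.unpair.2) = 0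
      rw [h]
      simp
  pt := pt_dfn _
  succ := by
    intro s hs
    have hd := deq_con T (le_refl s)
    set D := dfn (getc (ext (hist T s) (row (hist T s) s))) with hD
    have hEl : ∀ q ≤ s, (El T D s q ↔ El T (con T) s q) := by
      intro q hq
      have h1 := Nat.unpair_right_le q
      have h2 := Nat.unpair_right_le q.unpair.2
      exact hd.elig (pt_dfn _) (pt_dfn _) (by omega)
    have hval : hh T s = nxt T (hist T s) := rfl
    unfold nxt at hval
    rw [hist_length, if_neg (by omega)] at hval
    have hq : qj T (hist T s) = lst (s + 1) (El T D s) := by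
      unfold qj
      rw [hist_length]
    rw [hq] at hval
    set q := lst (s + 1) (El T D s) with hqd
    by_cases hqs : q < s + 1
    · left
      rw [if_pos hqs] at hval
      have hM : El T D s q := lst_prop hqs
      have hM' : El T (con T) s q := (hEl q (by omega)).1 hM
      have hJ : dJ (hh T s) = q + 1 := by
        unfold dJ
        rw [hval, Nat.unpair_pair]
      refine ⟨q, by omega, hM', fun q' hq' h' => lst_not hq' ((hEl q' (by omega)).2 h'),
        ?_, ?_, ?_⟩
      · show (if (dJ (hh T s) - 1).unpair.1 < s then (dJ (hh T s) - 1).unpair.1 else 0) = _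
        rw [hJ, Nat.add_sub_cancel, if_pos hM'.1]
      · show (if dJ (hh T s) = 0 then 0 else (dJ (hh T s) - 1).unpair.2.unpair.1 + 1) = _
        rw [hJ, Nat.add_sub_cancel, if_neg (by omega)]
      · show (if dJ (hh T s) = 0 then 0 else (dJ (hh T s) - 1).unpair.2.unpair.2) = _
        rw [hJ, Nat.add_sub_cancel, if_neg (by omega)]
    · right
      rw [if_neg hqs] at hval
      have hJ : dJ (hh T s) = 0 := by
        unfold dJ
        rw [hval, Nat.unpair_pair]
      refine ⟨fun q' hq' h' => lst_not (by omega : q' < q) ((hEl q' hq').2 h'), ?_, ?_, ?_⟩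
      · show (if dJ (hh T s) = 0 then 0 else (dJ (hh T s) - 1).unpair.2.unpair.1 + 1) = _
        rw [if_pos hJ]
      · show (if (dJ (hh T s) - 1).unpair.1 < s then (dJ (hh T s) - 1).unpair.1 else 0) = _
        rw [hJ]
        simp
      · show (if dJ (hh T s) = 0 then 0 else (dJ (hh T s) - 1).unpair.2.unpair.2) = _
        rw [if_pos hJ]

end Pool.Agent.H668.Low
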