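import Mathlib
import Pool.Agent.H668.Flow
import Pool.Agent.H668.Low.Build

set_option autoImplicit false

/-! The tree of nodes: potentials, blocking, births. -/

namespace Pool.Agent.H668.Low

open Encodable Denumerable Nat.Partrec Pool.Agent.Helper941 Pool.Agent.Helper941.IsoProb
open Pool.Agent.Helper941.Zeta
open Pool.Agent.Helper941.Dim hiding entry row row_zero row_succ row_length row_get nxt hist
  hist_succ hist_length hist_get hh getc_hist con c_entry c_row c_nxt c_hist c_hh con_O con_C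
  con_J con_pa hh_row con_ent con_ent' getc_ext getc_ext' entry_eq deq_con con_spec

variable {d : Dt} {T : ℕ → Prop} {g : ℕ → ℕ}

theorem Spec.O_cases (hS : Spec T d) (s e : ℕ) : d.O s e = 1 ∨ d.O s e = 2 := by
  by_cases h : e < s ∧ ∃ c < s, Cert d s e c
  · obtain ⟨c, _, _, _, h1⟩ := hS.yes s e h.1 h.2
    exact Or.inl h1
  · exact Or.inr (hS.no s e h).2

theorem Spec.O_le (hS : Spec T d) (s e : ℕ) : d.O s e ≤ 2 := by
  rcases hS.O_cases s e with h | h <;> omega

theorem Spec.C_ne (hS : Spec T d) {s e : ℕ} (h : ¬ d.C s e = 0) :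
    Cert d s e (d.C s e - 1) ∧ d.O s e = 1 ∧ d.C s e - 1 < s := by
  by_cases hc : e < s ∧ ∃ c < s, Cert d s e c
  · obtain ⟨c, h0, h1, h2, h3⟩ := hS.yes s e hc.1 hc.2
    have h4 : d.C s e - 1 = c := by omega
    rw [h4]
    exact ⟨h1, h3, h0⟩
  · exact (h (hS.no s e hc).1).elim

theorem Spec.O_ne (hS : Spec T d) {s e : ℕ} (h : ¬ d.O s e = 2) : ¬ d.C s e = 0 := by
  by_cases hc : e < s ∧ ∃ c < s, Cert d s e c
  · obtain ⟨c, _, _, h2, _⟩ := hS.yes s e hc.1 hc.2
    omega
  · exact (h (hS.no s e hc).2).elim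

/-- the facts on a new node -/
theorem Spec.child (hS : Spec T d) {u : ℕ} (hu : 1 ≤ u) (hJ : ¬ d.J u = 0) :
    Elig T d u (d.pa u) (d.J u - 1) (d.N u) := by
  rcases hS.succ u hu with ⟨q, _, h1, _, h2, h3, h4⟩ | ⟨_, h1, _, _⟩
  · rw [h2, h3, h4, Nat.add_sub_cancel]
    exact h1
  · exact (hJ h1).elim

theorem Spec.leafN (hS : Spec T d) {u : ℕ} (hJ : d.J u = 0) : d.N u = 0 := by
  by_cases hu : 1 ≤ u
  · rcases hS.succ u hu with ⟨q, _, h1, _, h2, h3, h4⟩ | ⟨_, _, _, h1⟩
    · omega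
    · exact h1
  · have : u = 0 := by omega
    rw [this]
    exact hS.zero.2.2

theorem Spec.node_pa (hS : Spec T d) {u : ℕ} (hJ : ¬ d.J u = 0) : ¬ d.J (d.pa u) = 0 := by
  by_cases hu : 1 ≤ u
  · exact (hS.child hu hJ).2.1
  · have : u = 0 := by omega
    subst this
    rw [hS.zero.2.1]
    exact hJ

theorem Spec.node_an (hS : Spec T d) {u a : ℕ} (hJ : ¬ d.J u = 0) (h : An d.pa u a) :
    ¬ d.J a = 0 := by
  obtain ⟨n, rfl⟩ := h
  induction n with
  | zero => exact hJ
  | succ n ih =>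
    rw [Function.iterate_succ_apply']
    exact hS.node_pa ih

theorem bt_le (hS : Spec T d) (v k : ℕ) : bt d v k ≤ 2 := by
  unfold bt
  split_ifs
  · exact hS.O_le v k
  · exact le_refl _

/-- the step from the parent to the child is in a cone -/
def TS (T : ℕ → Prop) (d : Dt) (u : ℕ) : Prop :=
  1 ≤ d.J u - 1 ∧ T (d.J u - 1) ∧ d.J (d.pa u) = prn (d.J u - 1) + 1 ∧
    d.N (d.pa u) = d.N u ∧ agr d.toDat (d.pa u) u (d.N u)

theorem TS.bt {u : ℕ} (h : TS T d u) (k : ℕ) : bt d u k = bt d (d.pa u) k := by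
  unfold Low.bt
  rw [h.2.2.2.1]
  split_ifs with h1
  · exact (h.2.2.2.2 k h1).symm
  · rfl

theorem Spec.step_cases (hS : Spec T d) {u : ℕ} (hu : 1 ≤ u) (hJ : ¬ d.J u = 0) :
    TS T d u ∨ (d.J u = 1 ∧ ∃ i < d.N u, bt d u i < bt d (d.pa u) i ∧
      ∀ k < i, bt d u k = bt d (d.pa u) k) := by
  obtain ⟨_, _, _, _, h⟩ := hS.child hu hJ
  rcases h with h | ⟨h1, i, hi, h2, h3⟩
  · exact Or.inl h
  · right
    refine ⟨by omega, i, hi, ?_, fun k hk => ?_⟩
    · have : bt d u i = d.O u i := if_pos hi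
      rw [this]; exact h2
    · have : bt d u k = d.O u k := if_pos (by omega)
      rw [this]; exact h3 k hk

/-! ### potentials -/

/-- the potential -/
def pot (d : Dt) (v : ℕ) : ℕ → ℕ
  | 0 => 0
  | j + 1 => 3 * pot d v j + bt d v j

theorem pot_eq {u v j : ℕ} (h : ∀ k < j, bt d u k = bt d v k) : pot d u j = pot d v j := by
  induction j with
  | zero => rfl
  | succ j ih =>
    show 3 * pot d u j + bt d u j = 3 * pot d v j + bt d v j
    rw [ih fun k hk => h k (by omega), h j (by omega)]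

theorem pot_lt (hS : Spec T d) {u v i j : ℕ} (hi : i < j) (h : bt d u i < bt d v i)
    (h' : ∀ k < i, bt d u k = bt d v k) : pot d u j < pot d v j := by
  induction j with
  | zero => omega
  | succ j ih =>
    show 3 * pot d u j + bt d u j < 3 * pot d v j + bt d v j
    by_cases h1 : i = j
    · subst h1
      rw [pot_eq h']
      omega
    · have h2 := ih (by omega)
      have h3 := bt_le hS u j
      omega

theorem pot_inj (hS : Spec T d) {u v j : ℕ} (h : pot d u j = pot d v j) :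
    ∀ k < j, bt d u k = bt d v k := by
  induction j with
  | zero => intro k hk; omega
  | succ j ih =>
    have h1 : 3 * pot d u j + bt d u j = 3 * pot d v j + bt d v j := h
    have h2 := bt_le hS u j
    have h3 := bt_le hS v j
    intro k hk
    by_cases h4 : k = j
    · subst h4; omega
    · exact ih (by omega) k (by omega)

theorem Spec.pot_step (hS : Spec T d) {u : ℕ} (hu : 1 ≤ u) (hJ : ¬ d.J u = 0) (j : ℕ) :
    pot d u j ≤ pot d (d.pa u) j ∧
      (pot d u j = pot d (d.pa u) j → TS T d u ∨ j < d.N u) := by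
  rcases hS.step_cases hu hJ with h | ⟨_, i, hi, h1, h2⟩
  · exact ⟨le_of_eq (pot_eq fun k _ => h.bt k), fun _ => Or.inl h⟩
  · by_cases hij : i < j
    · have := pot_lt hS hij h1 h2
      exact ⟨le_of_lt this, fun h3 => by omega⟩
    · refine ⟨le_of_eq (pot_eq fun k hk => h2 k (by omega)), fun _ => Or.inr (by omega)⟩

theorem Spec.pot_an (hS : Spec T d) {u a : ℕ} (hJ : ¬ d.J u = 0) (h : An d.pa u a) (j : ℕ) :
    pot d u j ≤ pot d a j := by
  obtain ⟨n, rfl⟩ := h
  induction n with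
  | zero => exact le_refl _
  | succ n ih =>
    rw [Function.iterate_succ_apply']
    refine le_trans ih ?_
    by_cases h1 : 1 ≤ d.pa^[n] u
    · exact (hS.pot_step h1 (hS.node_an hJ ⟨n, rfl⟩) j).1
    · have h2 : d.pa^[n] u = 0 := by omega
      rw [h2, hS.zero.2.1]

/-! ### blocking -/

theorem En.mono {j s s' x : ℕ} (h : En j s x) (hs : s ≤ s') : En j s' x :=
  haltsIn_mono _ _ hs h

theorem an_pos {u a : ℕ} (hd : PT d) (h : An d.pa u a) (hne : u ≠ a) : 1 ≤ u := by
  have := h.le hd.le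
  omega

theorem no_child (hS : Spec T d) {j η s1 v : ℕ} (hCh : ∀ s, Ch d j s) (hη : En j s1 η)
    (hη1 : η < s1) (hv : s1 ≤ v) (hJ : ¬ d.J v = 0) (hA : An d.pa v η)
    (hall : ∀ w, An d.pa v w → An d.pa w η → j < d.N w) : False := by
  have hd := hS.pt
  obtain ⟨h1, h2, h3⟩ := anc_spec hd.lt (show s1 - 1 < v by omega)
  set u := anc d.pa (s1 - 1) v with hu
  have h4 : An d.pa u η := hA.total hd.le h3 (by omega)
  have h5 : An d.pa (d.pa u) η := an_pa h4 (by omega)
  obtain ⟨_, _, h6, _, _⟩ := hS.child (by omega) (hS.node_an hJ h3)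
  refine h6 j (hall u h3 h4) ⟨hCh u, η, ?_, (an_iff hd _ _).2 h5, hη.mono (by omega), ?_⟩
  · have := h5.le hd.le
    omega
  · intro w hw h7 h8
    have h9 := (an_iff hd _ _).1 h8
    exact hall w ((h3.step).trans h9) (h5.total hd.le h9 h7)

theorem chain_an (hS : Spec T d) {j x y s s' : ℕ} (hCh : ∀ s, Ch d j s) (hx : En j s x)
    (hy : En j s' y) (hxy : x ≤ y) : An d.pa y x := by
  have h := hCh (s + s' + y + 1) y (by omega) x (by omega) (hx.mono (by omega))
    (hy.mono (by omega))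
  exact (an_iff hS.pt _ _).1 h

/-- an index of a chain enumerates only finitely many nodes of high level -/
theorem fin_high (hS : Spec T d) {j : ℕ} (hCh : ∀ s, Ch d j s) :
    ∃ M, ∀ x s, En j s x → ¬ d.J x = 0 → j < d.N x → x < M := by
  classical
  by_contra hc
  push Not at hc
  let K : ℕ → Prop := fun x => (∃ s, En j s x) ∧ ¬ d.J x = 0 ∧ j < d.N x
  have hK : ∀ M, ∃ x, M ≤ x ∧ K x := by
    intro M
    obtain ⟨x, s, h1, h2, h3, h4⟩ := hc M
    exact ⟨x, h4, ⟨s, h1⟩, h2, h3⟩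
  obtain ⟨x0, hx0, hmin⟩ : ∃ x0, K x0 ∧ ∀ x, K x → pot d x0 j ≤ pot d x j := by
    obtain ⟨x1, _, hx1⟩ := hK 0
    have hex : ∃ m, ∃ x, K x ∧ pot d x j = m := ⟨_, x1, hx1, rfl⟩
    obtain ⟨x0, h1, h2⟩ := Nat.find_spec hex
    refine ⟨x0, h1, fun x hx => ?_⟩
    rw [h2]
    exact Nat.find_min' hex ⟨x, hx, rfl⟩
  obtain ⟨⟨s0, hs0⟩, h1, h2⟩ := hx0
  obtain ⟨x, hx, hKx⟩ := hK (s0 + x0 + 1)
  have hKx' := hKx
  obtain ⟨⟨s, hs⟩, h3, h4⟩ := hKx'
  have hA := chain_an hS hCh hs0 hs (by omega)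
  have hpot : ∀ w, An d.pa x w → An d.pa w x0 → pot d w j = pot d x0 j := by
    intro w hw hw'
    have h5 := hS.pot_an h3 hw j
    have h6 := hS.pot_an (hS.node_an h3 hw) hw' j
    have h7 := hmin x hKx
    omega
  have hN : ∀ w, An d.pa x w → An d.pa w x0 → j < d.N w := by
    intro w
    induction w using Nat.strong_induction_on with
    | _ w ih =>
      intro hw hw'
      by_cases hwx : w = x0
      · rw [hwx]; exact h2
      · have h5 := an_pos hS.pt hw' hwx
        have h6 := hS.pt.lt w h5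
        have h7 := an_pa hw' (fun h => hwx h.symm)
        have h8 := ih (d.pa w) h6 hw.step h7
        have h9 := (hS.pot_step h5 (hS.node_an h3 hw) j).2 (by
          rw [hpot w hw hw', hpot (d.pa w) hw.step h7])
        rcases h9 with h9 | h9
        · rw [← h9.2.2.2.1]; exact h8
        · exact h9
  exact no_child hS hCh (hs0.mono (show s0 ≤ s0 + x0 + 1 by omega)) (by omega) hx h3 hA hN

/-- blocking by a fixed index concerns only finitely many nodes -/
theorem bl_bound (hS : Spec T d) (j : ℕ) : ∃ M, ∀ s v, Bl d s j v → v < s → v < M := by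
  classical
  by_cases hCh : ∀ s, Ch d j s
  · obtain ⟨M1, hM1⟩ := fin_high hS hCh
    obtain ⟨S, hSS⟩ : ∃ S, ∀ s, S ≤ s → ∀ x < M1, (∃ s', En j s' x) → En j s x := by
      refine Dim.ev_ball (P := fun x s => (∃ s', En j s' x) → En j s x) (M := M1) fun x _ => ?_
      by_cases h : ∃ s', En j s' x
      · obtain ⟨s', hs'⟩ := h
        exact ⟨s', fun s hs _ => hs'.mono hs⟩
      · exact ⟨0, fun s _ h' => (h h').elim⟩
    refine ⟨S + M1 + 1, fun s v hB hvs => ?_⟩
    by_contra hc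
    obtain ⟨_, η, h1, h2, h3, h4⟩ := hB
    have h5 := (an_iff hS.pt _ _).1 h2
    have hNv := h4 v (by omega) (by omega) ((an_iff hS.pt _ _).2 (An.refl v))
    have hJv : ¬ d.J v = 0 := fun h => by
      have := hS.leafN h
      omega
    have hJη := hS.node_an hJv h5
    have hNη := h4 η (by omega) (le_refl _) h2
    have h6 := hM1 η s h3 hJη hNη
    refine no_child hS hCh (hSS (S + M1 + 1) (by omega) η h6 ⟨s, h3⟩) (by omega) (by omega)
      hJv h5 fun w hw hw' => ?_
    have h7 := hw.le hS.pt.le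
    exact h4 w (by omega) (hw'.le hS.pt.le) ((an_iff hS.pt _ _).2 hw)
  · push Not at hCh
    obtain ⟨s1, hs1⟩ := hCh
    refine ⟨s1, fun s v hB hvs => ?_⟩
    by_contra hc
    refine hs1 fun y hy x hx h1 h2 => hB.1 y (by omega) x hx (h1.mono (by omega))
      (h2.mono (by omega))

theorem bl_bounds (hS : Spec T d) (n : ℕ) :
    ∃ M, ∀ j < n, ∀ s v, Bl d s j v → v < s → v < M := by
  choose M hM using bl_bound hS
  refine ⟨∑ j ∈ Finset.range n, M j, fun j hj s v h1 h2 => ?_⟩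
  have h3 := hM j s v h1 h2
  have h4 : M j ≤ ∑ j ∈ Finset.range n, M j :=
    Finset.single_le_sum (f := M) (fun _ _ => Nat.zero_le _) (Finset.mem_range.2 hj)
  omega

/-! ### births -/

/-- the code of the guess of a stage -/
def sc (d : Dt) (s : ℕ) : ℕ → ℕ
  | 0 => 0
  | n + 1 => 3 * sc d s n + d.O s n

theorem sc_lt (hS : Spec T d) (s n : ℕ) : sc d s n < 3 ^ n := by
  induction n with
  | zero => show 0 < 3 ^ 0; norm_num
  | succ n ih =>
    show 3 * sc d s n + d.O s n < 3 ^ (n + 1)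
    have := hS.O_le s n
    rw [pow_succ]
    omega

theorem sc_inj (hS : Spec T d) {s s' n : ℕ} (h : sc d s n = sc d s' n) :
    agr d.toDat s s' n := by
  induction n with
  | zero => intro i hi; omega
  | succ n ih =>
    have h1 : 3 * sc d s n + d.O s n = 3 * sc d s' n + d.O s' n := h
    have h2 := hS.O_le s n
    have h3 := hS.O_le s' n
    intro i hi
    by_cases h4 : i = n
    · subst h4; omega
    · exact ih (by omega) i (by omega)

theorem born (hS : Spec T d) (hg : TP d.toDat g) {v j n : ℕ} (hv : ¬ d.J v = 0) (M : ℕ)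
    (hB : ∀ s, M ≤ s → v < s → ∀ j' < n, ¬ Bl d s j' v)
    (hty : ∀ s, M ≤ s → v < s → vis d.toDat g s n → Ty T d s v j n) :
    ∃ u, d.pa u = v ∧ d.J u = j + 1 ∧ d.N u = n ∧ vis d.toDat g u n := by
  classical
  by_contra hc
  push Not at hc
  set q := Nat.pair v (Nat.pair j n) with hq
  let A : Set ℕ := {s | M + v + 1 + q ≤ s ∧ vis d.toDat g s n}
  have hA : A.Infinite := by
    rw [Set.infinite_iff_exists_gt]
    intro a
    obtain ⟨s, h1, h2⟩ := hg.inf n (M + v + 1 + q + a + 1)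
    exact ⟨s, ⟨by omega, h2⟩, by omega⟩
  have hEl : ∀ s ∈ A, El T d s q := by
    rintro s ⟨h1, h2⟩
    have : Elig T d s v j n := by
      refine ⟨by omega, hv, hB s (by omega) (by omega), ?_, hty s (by omega) (by omega) h2⟩
      rintro ⟨u, _, h3, h4, h5, h6⟩
      exact hc u h3 h4 h5 (h2.of_agr h6)
    unfold El
    rw [hq]
    simp only [Nat.unpair_pair]
    exact this
  have hch : ∀ s ∈ A, ∃ q', q' ≤ q ∧ El T d s q' ∧ d.pa s = q'.unpair.1 ∧
      d.J s = q'.unpair.2.unpair.1 + 1 ∧ d.N s = q'.unpair.2.unpair.2 := by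
    intro s hs
    rcases hS.succ s (by have := hs.1; omega) with ⟨q', _, h1, h2, h3, h4, h5⟩ | ⟨h1, _⟩
    · refine ⟨q', ?_, h1, h3, h4, h5⟩
      by_contra h6
      exact h2 q (by omega) (hEl s hs)
    · exact (h1 q (by have := hs.1; omega) (hEl s hs)).elim
  choose! Q hQ using hch
  obtain ⟨s1, hs1, s2, hs2, hne, heq⟩ := hA.exists_ne_map_eq_of_mapsTo
    (t := Set.Iic q ×ˢ Set.Iic (3 ^ q)) (f := fun s => (Q s, sc d s (d.N s))) (by
      intro s hs
      refine ⟨(hQ s hs).1, ?_⟩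
      show sc d s (d.N s) ≤ 3 ^ q
      have h1 := sc_lt hS s (d.N s)
      have h2 : d.N s ≤ q := by
        rw [(hQ s hs).2.2.2.2]
        exact le_trans (Nat.unpair_right_le _) (le_trans (Nat.unpair_right_le _) (hQ s hs).1)
      have h3 : 3 ^ d.N s ≤ 3 ^ q := Nat.pow_le_pow_right (by norm_num) h2
      omega) ((Set.finite_Iic q).prod (Set.finite_Iic _))
  have key : ∀ a ∈ A, ∀ b ∈ A, a < b → Q a = Q b → sc d a (d.N a) = sc d b (d.N b) → False := by
    intro a ha b hb hab h1 h2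
    obtain ⟨_, h3, h4, h5, h6⟩ := hQ b hb
    obtain ⟨_, _, h7, h8, h9⟩ := hQ a ha
    rw [h1] at h7 h8 h9
    have h10 : d.N a = d.N b := h9.trans h6.symm
    rw [h10] at h2
    have h11 := sc_inj hS h2
    rw [h6] at h11
    exact h3.2.2.2.1 ⟨a, hab, h7, h8, h9, h11⟩
  have h1 : Q s1 = Q s2 := (Prod.ext_iff.1 heq).1
  have h2 : sc d s1 (d.N s1) = sc d s2 (d.N s2) := (Prod.ext_iff.1 heq).2
  rcases Nat.lt_or_ge s1 s2 with h | h
  · exact key s1 hs1 s2 hs2 h h1 h2
  · exact key s2 hs2 s1 hs1 (by omega) h1.symm h2.symm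

end Pool.Agent.H668.Low
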