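import Mathlib
import Pool.Agent.H668.Low.Tree

set_option autoImplicit false

/-! There is no computable infinite chain of nodes. -/

namespace Pool.Agent.H668.Low

open Encodable Denumerable Nat.Partrec Pool.Agent.Helper941 Pool.Agent.Helper941.IsoProb
open Pool.Agent.Helper941.Zeta
open Pool.Agent.Helper941.Dim hiding entry row row_zero row_succ row_length row_get nxt hist
  hist_succ hist_length hist_get hh getc_hist con c_entry c_row c_nxt c_hist c_hh con_O con_C
  con_J con_pa hh_row con_ent con_ent' getc_ext getc_ext' entry_eq deq_con con_spec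

variable {d : Dt} {T : ℕ → Prop} {g : ℕ → ℕ}

/-- the label of a node -/
def lab (d : Dt) (x : ℕ) : ℕ := d.J x - 1

theorem TS.lab_pa {u : ℕ} (h : TS T d u) : lab d (d.pa u) = prn (lab d u) := by
  unfold lab
  rw [h.2.2.1, Nat.add_sub_cancel]

theorem TS.pf {u : ℕ} (h : TS T d u) : Pf (lab d (d.pa u)) (lab d u) := by
  rw [h.lab_pa]
  exact pf_prn h.1

theorem TS.len {u : ℕ} (h : TS T d u) : len (lab d (d.pa u)) + 1 = len (lab d u) := by
  rw [h.lab_pa]
  exact len_prn h.1

theorem no_chain (hS : Spec T d) (hT : TH T prn) (hd : DtC d)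
    (hNC : ∀ f : ℕ → ℕ, Computable f → ¬ ∀ k, T (nod f k)) {j : ℕ} (hCh : ∀ s, Ch d j s)
    (hinf : ∀ M, ∃ x s, M ≤ x ∧ En j s x) (hn : ∀ x s, En j s x → ¬ d.J x = 0) : False := by
  classical
  obtain ⟨M, hM⟩ := fin_high hS hCh
  let K : ℕ → Prop := fun x => (∃ s, En j s x) ∧ M ≤ x
  have hKJ : ∀ x, K x → ¬ d.J x = 0 := fun x ⟨⟨s, hs⟩, _⟩ => hn x s hs
  have hKN : ∀ x, K x → ¬ j < d.N x := by
    rintro x ⟨⟨s, hs⟩, h1⟩ h2
    have := hM x s hs (hn x s hs) h2
    omega
  have hK : ∀ m, ∃ x, m ≤ x ∧ K x := by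
    intro m
    obtain ⟨x, s, h1, h2⟩ := hinf (m + M)
    exact ⟨x, by omega, ⟨s, h2⟩, by omega⟩
  obtain ⟨x0, hx0, hmin⟩ : ∃ x0, K x0 ∧ ∀ x, K x → pot d x0 j ≤ pot d x j := by
    obtain ⟨x1, _, hx1⟩ := hK 0
    have hex : ∃ m, ∃ x, K x ∧ pot d x j = m := ⟨_, x1, hx1, rfl⟩
    obtain ⟨x0, h1, h2⟩ := Nat.find_spec hex
    refine ⟨x0, h1, fun x hx => ?_⟩
    rw [h2]
    exact Nat.find_min' hex ⟨x, hx, rfl⟩
  have hAn : ∀ x y, K x → K y → x ≤ y → An d.pa y x := by
    rintro x y ⟨⟨s, hs⟩, _⟩ ⟨⟨s', hs'⟩, _⟩ h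
    exact chain_an hS hCh hs hs' h
  have hpot : ∀ x, K x → ∀ w, An d.pa x w → An d.pa w x0 → pot d w j = pot d x0 j := by
    intro x hx w hw hw'
    have h5 := hS.pot_an (hKJ x hx) hw j
    have h6 := hS.pot_an (hS.node_an (hKJ x hx) hw) hw' j
    have h7 := hmin x hx
    omega
  have hTS : ∀ x, K x → ∀ w, An d.pa x w → An d.pa w x0 → w ≠ x0 → TS T d w := by
    intro x hx w hw hw' hne
    have h5 := an_pos hS.pt hw' hne
    have h7 := an_pa hw' (fun h => hne h.symm)
    rcases (hS.pot_step h5 (hS.node_an (hKJ x hx) hw) j).2 (by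
      rw [hpot x hx w hw hw', hpot x hx (d.pa w) hw.step h7]) with h | h
    · exact h
    · exfalso
      have key : ∀ w', An d.pa x w' → An d.pa w' w → j < d.N w' := by
        intro w'
        induction w' using Nat.strong_induction_on with
        | _ w' ih =>
          intro h8 h9
          by_cases hww : w' = w
          · rw [hww]; exact h
          · have h10 := an_pos hS.pt h9 hww
            have h11 := hS.pt.lt w' h10
            have h12 := an_pa h9 (fun h => hww h.symm)
            have h13 := ih (d.pa w') h11 h8.step h12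
            rcases (hS.pot_step h10 (hS.node_an (hKJ x hx) h8) j).2 (by
              rw [hpot x hx w' h8 (h9.trans hw'), hpot x hx (d.pa w') h8.step
                (h12.trans hw')]) with h14 | h14
            · rw [← h14.2.2.2.1]; exact h13
            · exact h14
      exact hKN x hx (key x (An.refl x) hw)
  have hPf : ∀ x, K x → ∀ w, An d.pa w x0 → ∀ w', An d.pa x w' → An d.pa w' w →
      Pf (lab d w) (lab d w') := by
    intro x hx w hw w'
    induction w' using Nat.strong_induction_on with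
    | _ w' ih =>
      intro h8 h9
      by_cases hww : w' = w
      · rw [hww]; exact Pf.refl _
      · have h10 := an_pos hS.pt h9 hww
        have h11 := hS.pt.lt w' h10
        have h12 := an_pa h9 (fun h => hww h.symm)
        have h13 := ih (d.pa w') h11 h8.step h12
        have h14 : w' ≠ x0 := by
          rintro rfl
          have h15 := hw.le hS.pt.le
          have h16 := h9.le hS.pt.le
          omega
        exact h13.trans (hTS x hx w' h8 (h9.trans hw) h14).pf
  have hlen : ∀ n, ∃ x, K x ∧ x0 < x ∧ n ≤ len (lab d x) := by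
    intro n
    induction n with
    | zero =>
      obtain ⟨x, h1, h2⟩ := hK (x0 + 1)
      exact ⟨x, h2, by omega, Nat.zero_le _⟩
    | succ n ih =>
      obtain ⟨x, h1, h2, h3⟩ := ih
      obtain ⟨x', h4, h5⟩ := hK (x + 1)
      refine ⟨x', h5, by omega, ?_⟩
      have h6 := hAn x x' h1 h5 (by omega)
      have h7 := an_pa h6 (by omega)
      have h8 := hTS x' h5 x' (An.refl x') (hAn x0 x' hx0 h5 (by omega)) (by omega)
      have h9 := hPf x' h5 x (hAn x0 x hx0 h1 (by omega)) (d.pa x') (An.refl x').step h7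
      have h10 := h8.len
      have h11 := h9.1
      omega
  let R : ℕ → ℕ → Prop := fun y q => En j q.unpair.1 q.unpair.2 ∧ M ≤ q.unpair.2 ∧
    x0 ≤ q.unpair.2 ∧ y < len (lab d q.unpair.2)
  have hRex : ∀ y, ∃ q, R y q := by
    intro y
    obtain ⟨x, ⟨⟨s, h1⟩, h2⟩, h3, h4⟩ := hlen (y + 1)
    refine ⟨Nat.pair s x, ?_⟩
    show En j (Nat.pair s x).unpair.1 (Nat.pair s x).unpair.2 ∧ _
    rw [Nat.unpair_pair]
    exact ⟨h1, h2, le_of_lt h3, by show y < len (lab d x); omega⟩
  have cl : Computable (lab d) := c_sub hd.J (c_const 1)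
  have hRc : ComputablePred fun p : ℕ × ℕ => R p.1 p.2 := by
    have h2 : Computable fun p : ℕ × ℕ => p.2.unpair.2 := c_up2 (c_snd c_id)
    exact p_and (p_En (c_const j) (c_up1 (c_snd c_id)) h2) (p_and (p_le (c_const M) h2)
      (p_and (p_le (c_const x0) h2) (p_lt (c_fst c_id) (c_lenj (cl.comp h2)))))
  let f : ℕ → ℕ := fun y => dig (lab d (sInf {q | R y q}).unpair.2) y
  have hf : Computable f := c_dig (cl.comp (c_up2 (c_least hRc hRex))) c_id
  have hfx : ∀ x, K x → x0 ≤ x → ∀ y, y < len (lab d x) → f y = dig (lab d x) y := by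
    intro x hx hxx y hy
    have h1 : R y (sInf {q | R y q}) := Nat.sInf_mem (s := {q | R y q}) (hRex y)
    obtain ⟨h2, h3, h4, h5⟩ := h1
    show dig (lab d (sInf {q | R y q}).unpair.2) y = _
    set x' := (sInf {q | R y q}).unpair.2 with hx'
    have hKx' : K x' := ⟨⟨_, h2⟩, h3⟩
    rcases Nat.le_total x x' with h | h
    · have := hPf x' hKx' x (hAn x0 x hx0 hx hxx) x' (An.refl _) (hAn x x' hx hKx' h)
      exact (this.2 y hy).symm
    · have := hPf x hx x' (hAn x0 x' hx0 hKx' h4) x (An.refl _) (hAn x' x hKx' hx h)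
      exact this.2 y h5
  refine hNC f hf fun k => ?_
  obtain ⟨x, h1, h2, h3⟩ := hlen k
  have h4 : nod f k = nod (dig (lab d x)) k := by
    have h5 := nod_ext (f := f) (j := nod (dig (lab d x)) k) (fun i hi => by
      rw [len_nod] at hi
      rw [dig_nod _ hi]
      exact (hfx x h1 (le_of_lt h2) i (by omega)).symm)
    rw [len_nod] at h5
    exact h5.symm
  rw [h4]
  have h5 := hTS x h1 x (An.refl x) (hAn x0 x hx0 h1 (le_of_lt h2)) (by omega)
  exact t_pf (P := ⟨T, fun _ _ => 0, 1⟩) hT h5.2.1 h3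

end Pool.Agent.H668.Low
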