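import Mathlib
import Pool.Agent.H668.Low.Code

set_option autoImplicit false

/-! The responses of the opponents. -/

namespace Pool.Agent.H668.Low

open Encodable Denumerable Nat.Partrec Pool.Agent.Helper941 Pool.Agent.Helper941.IsoProb
open Pool.Agent.Helper941.Zeta
open Pool.Agent.Helper941.Dim hiding entry row row_zero row_succ row_length row_get nxt hist
  hist_succ hist_length hist_get hh getc_hist con c_entry c_row c_nxt c_hist c_hh con_O con_C
  con_J con_pa hh_row con_ent con_ent' getc_ext getc_ext' entry_eq deq_con con_spec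
  el idx el_valid idx_el el_idx c_idx c_el As as_comp

/-- the response stages -/
def Rs (d : Dt) (g : ℕ → ℕ) (e N s : ℕ) : Prop := N ≤ s ∧ vis d.toDat g s e ∧ d.O s e = 1

/-- the abstract properties of the responses of an opponent -/
structure Rsp (d : Dt) (g : ℕ → ℕ) (e N : ℕ) (M : ℕ → ℕ) (y : ℕ → ℕ → Gm) : Prop where
  inf : ∀ n, ∃ s, n ≤ s ∧ Rs d g e N s
  cut : ∀ s' s, pv (Rs d g e N) s' s → M s = s'
  val : ∀ s m, Rs d g e N s → m ≤ M s → Val d m (y s m)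
  coh : ∀ s m, Rs d g e N s → m < M s → fold d m (y s (m + 1)) = y s m
  tr : ∀ s' s, pv (Rs d g e N) s' s → ∃ n ∈ Sb (fun l => Lam d (M s') l ∧ l < s),
    y s (M s') = y s' (M s') * n

section
variable {d : Dt} {κ : ℕ} {i : Fin (κ + 1)} {B : Str} {G : ℕ → Gm → ℕ}

theorem CI.two (h : CI d i B G) {l c : ℕ} {w : Gm} (hw : Val d c w) {y : ℕ}
    (hB : B (Nat.pair 2 l) (G c w) y) : Lam d c l ∧ y = G c (w * FreeGroup.of l) := by
  obtain ⟨c', w', h1, rfl⟩ := h.surj y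
  obtain ⟨h2, h3, h4⟩ := relG_two.1 ((h.rel _ _ _ _ _ hw h1).2 hB)
  subst h2 h4
  exact ⟨h3, rfl⟩

theorem CI.two' (h : CI d i B G) {l c : ℕ} {w : Gm} (hw : Val d c w) {y : ℕ}
    (hB : B (Nat.pair 2 l) y (G c w)) : Lam d c l ∧ y = G c (w * (FreeGroup.of l)⁻¹) := by
  obtain ⟨c', w', h1, rfl⟩ := h.surj y
  obtain ⟨h2, h3, h4⟩ := relG_two.1 ((h.rel _ _ _ _ _ h1 hw).2 hB)
  subst h2 h4
  exact ⟨h3, by rw [mul_inv_cancel_right]⟩

theorem CI.mk_two (h : CI d i B G) {l c : ℕ} {w : Gm} (hw : Val d c w) (hl : Lam d c l) :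
    B (Nat.pair 2 l) (G c w) (G c (w * FreeGroup.of l)) :=
  (h.rel _ _ _ _ _ hw (hw.mul (Val.of hl))).1 (relG_two.2 ⟨rfl, hl, rfl⟩)

theorem CI.one (h : CI d i B G) {c z : ℕ} (hB : B (Nat.pair 1 c) z z) :
    ∃ w, Val d c w ∧ G c w = z := by
  obtain ⟨c', w', h1, rfl⟩ := h.surj z
  have h2 := (relG_one.1 ((h.rel _ _ _ _ _ h1 h1).2 hB)).2.2
  subst h2
  exact ⟨w', h1, rfl⟩

theorem CI.mk_one (h : CI d i B G) {c : ℕ} {w : Gm} (hw : Val d c w) :
    B (Nat.pair 1 c) (G c w) (G c w) :=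
  (h.rel _ _ _ _ _ hw hw).1 (relG_one.2 ⟨rfl, rfl, rfl⟩)

theorem CI.three (h : CI d i B G) {x c : ℕ} {w : Gm} (hw : Val d (c + 1) w) {y : ℕ}
    (hB : B (Nat.pair 3 x) (G (c + 1) w) y) : y = G c (fold d c w) := by
  obtain ⟨c', w', h1, rfl⟩ := h.surj y
  obtain ⟨h2, h3⟩ := relG_three.1 ((h.rel _ _ _ _ _ hw h1).2 hB)
  have h4 : c = c' := by omega
  subst h4 h3
  rfl

theorem CI.mk_three (h : CI d i B G) {x c : ℕ} {w : Gm} (hw : Val d (c + 1) w) :
    B (Nat.pair 3 x) (G (c + 1) w) (G c (fold d c w)) :=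
  (h.rel _ _ _ _ _ hw (hw.fold' (Nat.le_succ c))).1 (relG_three.2 ⟨rfl, rfl⟩)

theorem reach_sound (h : CI d i B G) {S : ℕ → Prop} {c : ℕ} {w : Gm} (hw : Val d c w) {z : ℕ}
    (hr : Relation.ReflTransGen (Stp B S) (G c w) z) :
    ∃ n ∈ Sb (fun l => Lam d c l ∧ S l), z = G c (w * n) := by
  induction hr with
  | refl => exact ⟨1, one_mem _, by rw [mul_one]⟩
  | @tail b y _ h1 ih =>
    obtain ⟨n, hn, rfl⟩ := ih
    have hwn : Val d c (w * n) := hw.mul (Sb_mono (fun _ h => h.1) hn)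
    obtain ⟨l, h2, h3 | h3⟩ := h1
    · obtain ⟨h4, rfl⟩ := h.two hwn h3
      exact ⟨n * FreeGroup.of l, mul_mem hn (of_mem ⟨h4, h2⟩), by rw [mul_assoc]⟩
    · obtain ⟨h4, rfl⟩ := h.two' hwn h3
      exact ⟨n * (FreeGroup.of l)⁻¹, mul_mem hn (inv_mem (of_mem ⟨h4, h2⟩)), by
        rw [mul_assoc]⟩

theorem reach_complete (h : CI d i B G) {S : ℕ → Prop} {c : ℕ} {n : Gm}
    (hn : n ∈ Sb (fun l => Lam d c l ∧ S l)) {w : Gm} (hw : Val d c w) :
    Relation.ReflTransGen (Stp B S) (G c w) (G c (w * n)) := by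
  have key : ∀ w, Val d c w → Relation.ReflTransGen (Stp B S) (G c w) (G c (w * n)) := by
    refine Sb_ind (p := fun n => ∀ w, Val d c w →
      Relation.ReflTransGen (Stp B S) (G c w) (G c (w * n))) ?_ ?_ ?_ ?_ hn
    · rintro l ⟨h1, h2⟩ w hw
      exact Relation.ReflTransGen.single ⟨l, h2, Or.inl (h.mk_two hw h1)⟩
    · intro w _
      rw [mul_one]
    · intro x y hx _ h1 h2 w hw
      have hx' : Val d c x := Sb_mono (fun _ h => h.1) hx
      have h3 := h2 (w * x) (hw.mul hx')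
      rw [mul_assoc] at h3
      exact (h1 w hw).trans h3
    · intro x hx h1 w hw
      have hx' : Val d c x := Sb_mono (fun _ h => h.1) hx
      have h3 := h1 (w * x⁻¹) (hw.mul hx'.inv)
      rw [inv_mul_cancel_right] at h3
      exact rtg_symm (stp_symm B S) h3
  exact key w hw

/-- the cut of an element -/
noncomputable def cs (h : CI d i B G) (z : ℕ) : ℕ := (h.surj z).choose

/-- the word of an element -/
noncomputable def cr (h : CI d i B G) (z : ℕ) : Gm := (h.surj z).choose_spec.choose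

theorem cr_spec (h : CI d i B G) (z : ℕ) :
    Val d (cs h z) (cr h z) ∧ G (cs h z) (cr h z) = z :=
  (h.surj z).choose_spec.choose_spec

theorem cr_one (h : CI d i B G) {c z : ℕ} (hB : B (Nat.pair 1 c) z z) :
    Val d c (cr h z) ∧ G c (cr h z) = z := by
  obtain ⟨h1, h2⟩ := cr_spec h z
  obtain ⟨w, h3, h4⟩ := h.one hB
  obtain ⟨h5, h6⟩ := h.inj _ _ _ _ h1 h3 (h2.trans h4.symm)
  rw [h6]
  exact ⟨h3, h4⟩

theorem cr_G (h : CI d i B G) {c : ℕ} {w : Gm} (hw : Val d c w) : cr h (G c w) = w := by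
  obtain ⟨h1, h2⟩ := cr_spec h (G c w)
  exact (h.inj _ _ _ _ h1 hw h2).2

end

section
variable {d : Dt} {T : ℕ → Prop} {g : ℕ → ℕ} {e N : ℕ} {κ : ℕ} {i : Fin (κ + 1)} {B : Str}
  {G : ℕ → Gm → ℕ}

theorem prevr_of' (hS : Spec T d)
    (hN : ∀ s, N ≤ s → ∀ i < e, vis d.toDat g s i → g i ≤ d.O s i) {s' s : ℕ}
    (hp : pv (Rs d g e N) s' s) : prevr d.toDat s' s e := by
  obtain ⟨h1, h2, h3, h4⟩ := hp
  refine ⟨hS.O_ne (by have := h1.2.2; omega), ⟨h1.2.1.agr h2.2.1, fun x hx1 hx2 => ?_⟩,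
    fun x hx1 hx2 hx3 => ?_⟩
  · exact not_lft hN (by have := h1.1; omega) h2.2.1 (le_refl e)
  · by_contra hc
    exact h4 x hx2 hx1 ⟨by have := h1.1; omega, h2.2.1.of_agr hx3, (hS.C_ne hc).2.1⟩

/-- the coordinates of the base points of the responses -/
noncomputable def yt (h : CI d i B G) (e s m : ℕ) : Gm := cr h (cy (d.C s e - 1) m)

variable (hS : Spec T d) (hG : CI d i B G)
  (hB : ∀ i x y, B i x y ↔ (Code.eval (ofNat Code e) (Nat.pair i (Nat.pair x y))).Dom)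

include hS hG hB in
/-- there are infinitely many responses -/
theorem inf_resp' (hg : TP d.toDat g) (n : ℕ) : ∃ s, n ≤ s ∧ Rs d g e N s := by
  classical
  by_contra hc
  push Not at hc
  have hno : ∀ s, n + N ≤ s → vis d.toDat g s e → d.C s e = 0 := by
    intro s hs hv
    by_contra h
    exact hc s (by omega) ⟨by omega, hv, (hS.C_ne h).2.1⟩
  let Q : ℕ → Prop := fun s' => vis d.toDat g s' e ∧ ¬ d.C s' e = 0
  obtain ⟨s0, M', y0, hs0, ⟨w0, hw0, hy0⟩, hM0⟩ : ∃ s0 M' y0 : ℕ,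
      (∀ s s', n + N ≤ s → s' < s → vis d.toDat g s e → prevr d.toDat s' s e → s' = s0 ∧
        cM (d.C s' e - 1) = M' ∧ cy (d.C s' e - 1) M' = y0) ∧
      (∃ w, Val d M' w ∧ G M' w = y0) ∧ M' ≤ s0 := by
    by_cases hP : ∃ s', Q s'
    · obtain ⟨s1, hs1⟩ := hP
      let s0 := Nat.findGreatest Q (n + N)
      have hlt : ∀ s', Q s' → s' ≤ n + N := fun s' h => by
        by_contra hc'
        exact h.2 (hno s' (by omega) h.1)
      have h1 : Q s0 := Nat.findGreatest_spec (hlt s1 hs1) hs1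
      obtain ⟨h2, _, h3⟩ := hS.C_ne h1.2
      refine ⟨s0, cM (d.C s0 e - 1), cy (d.C s0 e - 1) (cM (d.C s0 e - 1)), ?_,
        hG.one (fa_sound hB (h2.1.1 _ (by omega))), ?_⟩
      · intro s s' hs hs' hv hp
        have h3 : Q s' := ⟨hv.of_agr hp.2.1.1, hp.1⟩
        have h4 : s' ≤ s0 := Nat.le_findGreatest (hlt _ h3) h3
        have h5 : s' = s0 := by
          by_contra h
          have h6 : s0 < s := by
            by_contra h7
            have h8 := hlt s0 h1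
            have h9 : s0 = s := by omega
            exact h1.2 (hno s0 (by omega) h1.1)
          exact h1.2 (hp.2.2 s0 h6 (by omega) (h1.1.agr hv))
        subst h5
        exact ⟨rfl, rfl, rfl⟩
      · have : cM (d.C s0 e - 1) ≤ d.C s0 e - 1 := Nat.unpair_left_le _
        omega
    · refine ⟨0, 0, G 0 1, fun s s' _ _ hv hp => (hP ⟨s', hv.of_agr hp.2.1.1, hp.1⟩).elim,
        ⟨1, Val.one d 0, rfl⟩, le_refl _⟩
  -- the path to the new base point
  have hr : Relation.ReflTransGen (Stp B fun _ => True) y0 (G M' 1) := by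
    have h1 := reach_complete hG (S := fun _ => True) (c := M') (n := w0⁻¹)
      (Sb_mono (fun _ h => ⟨h, trivial⟩) (inv_mem hw0)) hw0
    rwa [mul_inv_cancel, hy0] at h1
  obtain ⟨l, z, wl, hz0, hzl, hzs⟩ := seq_of_reach (r := fun l x y => True ∧
    (B (Nat.pair 2 l) x y ∨ B (Nat.pair 2 l) y x)) hr
  obtain ⟨w1, hw1⟩ := exists_ent (s0 + 1) fun i => G i 1
  obtain ⟨w2, hw2⟩ := exists_ent (l + 1) z
  obtain ⟨w3, hw3⟩ := exists_ent l wl
  set c := Nat.pair s0 (Nat.pair w1 (Nat.pair l (Nat.pair w2 w3))) with hcd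
  have ecM : cM c = s0 := by unfold cM; rw [hcd, Nat.unpair_pair]
  have ecy : ∀ i, i ≤ s0 → cy c i = G i 1 := by
    intro i hi
    unfold cy
    rw [hcd, Nat.unpair_pair]
    show ent (Nat.unpair (Nat.pair w1 _)).1 i = _
    rw [Nat.unpair_pair]
    exact hw1 i (by omega)
  have ecl : cl c = l := by
    unfold cl
    rw [hcd]
    simp only [Nat.unpair_pair]
  have ecz : ∀ i, i ≤ l → cz c i = z i := by
    intro i hi
    unfold cz
    rw [hcd]
    simp only [Nat.unpair_pair]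
    exact hw2 i (by omega)
  have ecw : ∀ i, i < l → cw c i = wl i := by
    intro i hi
    unfold cw
    rw [hcd]
    simp only [Nat.unpair_pair]
    exact hw3 i hi
  -- all facts are enumerated
  obtain ⟨S1, hS1⟩ := ev_ball (P := fun v s => Fa e s (Nat.pair 1 v) (G v 1) (G v 1))
    (M := s0 + 1) (fun v _ => fa_ev hB (hG.mk_one (Val.one d v)))
  obtain ⟨S2, hS2⟩ := ev_ball (P := fun v s => Fa e s (Nat.pair 3 0) (G (v + 1) 1) (G v 1))
    (M := s0) (fun v _ => fa_ev hB (by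
      have := hG.mk_three (x := 0) (Val.one d (v + 1))
      rwa [fold_one] at this))
  obtain ⟨S3, hS3⟩ := ev_ball (P := fun v s => Fa e s (Nat.pair 2 (wl v)) (z v) (z (v + 1)) ∨
      Fa e s (Nat.pair 2 (wl v)) (z (v + 1)) (z v)) (M := l) (fun v hv => by
    rcases (hzs v hv).2 with h | h
    · obtain ⟨S, hS⟩ := fa_ev hB h
      exact ⟨S, fun s hs => Or.inl (hS s hs)⟩
    · obtain ⟨S, hS⟩ := fa_ev hB h
      exact ⟨S, fun s hs => Or.inr (hS s hs)⟩)
  obtain ⟨s, hs, hv⟩ := hg.inf e (n + N + S1 + S2 + S3 + e + c + 1)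
  have hcert : Cert d s e c := by
    refine ⟨⟨fun i hi => ?_, fun i hi => ?_⟩, ?_⟩
    · rw [ecM] at hi
      rw [ecy i (by omega)]
      exact hS1 s (by omega) i hi
    · rw [ecM] at hi
      rw [ecy i (by omega), ecy (i + 1) (by omega)]
      exact hS2 s (by omega) i hi
    · intro s' hs' hp
      obtain ⟨h1, h2, h3⟩ := hs0 s s' (by omega) hs' hv hp
      rw [ecM, ecl, h2, h3, ecz 0 (Nat.zero_le _), ecz l (le_refl _), hz0, hzl,
        ecy M' hM0]
      refine ⟨h1.symm, rfl, rfl, fun i hi => ?_⟩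
      rw [ecz i (by omega), ecz (i + 1) (by omega), ecw i hi]
      exact hS3 s (by omega) i hi
  obtain ⟨c', _, _, h1, _⟩ := hS.yes s e (by omega) ⟨c, by omega, hcert⟩
  have := hno s (by omega) hv
  omega

include hS hG hB in
theorem exists_rsp' (hg : TP d.toDat g)
    (hN : ∀ s, N ≤ s → ∀ i < e, vis d.toDat g s i → g i ≤ d.O s i) :
    Rsp d g e N (fun s => cM (d.C s e - 1)) (yt hG e) ∧
      ∀ s m, Rs d g e N s → m ≤ cM (d.C s e - 1) → G m (yt hG e s m) = cy (d.C s e - 1) m := by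
  have hcert : ∀ s, Rs d g e N s → Cert d s e (d.C s e - 1) ∧ d.C s e - 1 < s := by
    intro s hs
    obtain ⟨h1, _, h2⟩ := hS.C_ne (hS.O_ne (s := s) (e := e) (by have := hs.2.2; omega))
    exact ⟨h1, h2⟩
  have hv : ∀ s m, Rs d g e N s → m ≤ cM (d.C s e - 1) →
      Val d m (yt hG e s m) ∧ G m (yt hG e s m) = cy (d.C s e - 1) m := by
    intro s m hs hm
    exact cr_one hG (fa_sound hB ((hcert s hs).1.1.1 m (by omega)))
  have hcut : ∀ s' s, pv (Rs d g e N) s' s → cM (d.C s e - 1) = s' := by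
    intro s' s hp
    exact ((hcert s hp.2.1).1.2 s' hp.2.2.1 (prevr_of' hS hN hp)).1
  refine ⟨⟨inf_resp' hS hG hB hg, hcut, fun s m hs hm => (hv s m hs hm).1,
    fun s m hs hm => ?_, fun s' s hp => ?_⟩, fun s m hs hm => (hv s m hs hm).2⟩
  · have h1 := fa_sound hB ((hcert s hs).1.1.2 m hm)
    obtain ⟨h2, h3⟩ := hv s (m + 1) hs hm
    obtain ⟨h4, h5⟩ := hv s m hs (by omega)
    rw [← h3, ← h5] at h1
    have h6 := hG.three h2 h1
    exact ((hG.inj _ _ _ _ h4 (h2.fold' (Nat.le_succ m)) h6).2).symm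
  · obtain ⟨h1, h2, h3, h4⟩ := (hcert s hp.2.1).1.2 s' hp.2.2.1 (prevr_of' hS hN hp)
    have hle : cM (d.C s' e - 1) ≤ d.C s' e - 1 := Nat.unpair_left_le _
    have hlt := (hcert s' hp.1).2
    obtain ⟨h5, h6⟩ := hv s' (cM (d.C s' e - 1)) hp.1 (le_refl _)
    obtain ⟨h7, h8⟩ := hv s (cM (d.C s' e - 1)) hp.2.1 (by omega)
    have hr : Relation.ReflTransGen (Stp B fun l => l < s) (cz (d.C s e - 1) 0)
        (cz (d.C s e - 1) (cl (d.C s e - 1))) := by
      refine reach_of_seq (r := fun l x y => l < s ∧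
        (B (Nat.pair 2 l) x y ∨ B (Nat.pair 2 l) y x)) (w := cw (d.C s e - 1)) fun i hi => ?_
      rcases h4 i hi with h | h
      · have := fa_lt h
        have := Nat.right_le_pair 2 (cw (d.C s e - 1) i)
        exact ⟨by omega, Or.inl (fa_sound hB h)⟩
      · have := fa_lt h
        have := Nat.right_le_pair 2 (cw (d.C s e - 1) i)
        exact ⟨by omega, Or.inr (fa_sound hB h)⟩
    rw [h2, h3, ← h6, ← h8] at hr
    obtain ⟨n, hn, h9⟩ := reach_sound hG h5 hr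
    refine ⟨n, hn, ?_⟩
    exact (hG.inj _ _ _ _ h7 (h5.mul (Sb_mono (fun _ h => h.1) hn)) h9).2

end

end Pool.Agent.H668.Low
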