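import Mathlib
import Pool.Agent.H668.Low.Resp

set_option autoImplicit false

/-! The good letters and the words of the responses. -/

namespace Pool.Agent.H668.Low

open Encodable Denumerable Nat.Partrec Pool.Agent.Helper941 Pool.Agent.Helper941.IsoProb
open Pool.Agent.Helper941.Zeta
open Pool.Agent.Helper941.Dim hiding entry row row_zero row_succ row_length row_get nxt hist
  hist_succ hist_length hist_get hh getc_hist con c_entry c_row c_nxt c_hist c_hh con_O con_C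
  con_J con_pa hh_row con_ent con_ent' getc_ext getc_ext' entry_eq deq_con con_spec
  el idx el_valid idx_el el_idx c_idx c_el As as_comp

variable {d : Dt} {T : ℕ → Prop} {g p : ℕ → ℕ} {e m0 : ℕ}

/-- the number `m0` is large for the opponent `e` -/
structure Lrg (d : Dt) (g : ℕ → ℕ) (e m0 : ℕ) : Prop where
  stab : ∀ s, m0 ≤ s → ∀ i < e + 1, vis d.toDat g s i → g i ≤ d.O s i
  blk : ∀ j < e + 1, ∀ s v, Bl d s j v → v < s → v < m0
  one : g e = 1

/-- good nodes -/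
def GN (d : Dt) (g p : ℕ → ℕ) (e m0 u : ℕ) : Prop :=
  (∃ k, d.J u = nod p k + 1) ∧ d.N u = e + 1 ∧ vis d.toDat g u (e + 1) ∧ m0 ≤ u

/-- good letters -/
def GdL (d : Dt) (g p : ℕ → ℕ) (e m0 c l : ℕ) : Prop :=
  W d c l ∧ ∃ u, GN d g p e m0 u ∧ c < u ∧ anc d.pa c l.unpair.1 = anc d.pa c u

section
variable (hS : Spec T d) (hg : TP d.toDat g) (hp : ∀ k, T (nod p k)) (L : Lrg d g e m0)

include hS in
theorem one_le {u : ℕ} (h : 1 ≤ d.N u) : 1 ≤ u := by
  by_contra hc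
  have : u = 0 := by omega
  rw [this, hS.zero.2.2] at h
  omega

include hS hg hp L in
theorem gn_next {u : ℕ} (h : GN d g p e m0 u) : ∃ u', GN d g p e m0 u' ∧ d.pa u' = u := by
  obtain ⟨⟨k, h1⟩, h2, h3, h4⟩ := h
  obtain ⟨u', h5, h6, h7, h8⟩ := born hS hg (v := u) (j := nod p (k + 1)) (n := e + 1)
    (by omega) 0 (fun s _ hs j' hj' hb => by
      have := L.blk j' hj' s u hb hs
      omega) (fun s _ _ hv => Or.inl ⟨nod_pos p k, hp _, by rw [prn_nod, h1], h2, h3.agr hv⟩)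
  have h9 := one_le hS (u := u') (by omega)
  have h10 := hS.pt.lt u' h9
  exact ⟨u', ⟨⟨k + 1, h6⟩, h7, h8, by omega⟩, h5⟩

include hS hg hp L in
theorem gn_far {u : ℕ} (h : GN d g p e m0 u) (c : ℕ) :
    ∃ u', GN d g p e m0 u' ∧ c < u' ∧ An d.pa u' u := by
  induction c with
  | zero =>
    have := one_le hS (u := u) (by rw [h.2.1]; omega)
    exact ⟨u, h, by omega, An.refl u⟩
  | succ c ih =>
    obtain ⟨u1, h1, h2, h3⟩ := ih
    obtain ⟨u2, h4, h5⟩ := gn_next hS hg hp L h1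
    have h6 := hS.pt.lt u2 (one_le hS (by rw [h4.2.1]; omega))
    exact ⟨u2, h4, by omega, An.trans ⟨1, h5⟩ h3⟩

theorem St.mono {u τ τ' : ℕ} (h : St d u τ) (ht : τ ≤ τ') : St d u τ' := by
  intro i hi ho
  obtain ⟨t, h1, h2⟩ := h i hi ho
  exact ⟨t, by omega, h2⟩

/-- nodes on the true path are settled -/
theorem exists_St (hg : TP d.toDat g) {u n : ℕ} (hn : d.N u = n) (hv : vis d.toDat g u n) :
    ∃ τ, St d u τ := by
  obtain ⟨S, hS⟩ := Dim.ev_ball (P := fun i s => d.O u i = 1 →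
    ∃ t < s + 1, u < t ∧ agr d.toDat t u i ∧ d.O t i = 1) (M := n) (by
    intro i hi
    obtain ⟨t, ht, hvt⟩ := hg.inf (i + 1) (u + 1)
    refine ⟨t, fun s hs ho => ⟨t, by omega, by omega, ?_, ?_⟩⟩
    · exact (hvt.mono (by omega)).agr (hv.mono (by omega))
    · rw [← ho, hv i hi]
      exact hvt i (by omega))
  refine ⟨S, fun i hi ho => ?_⟩
  exact hS S (le_refl S) i (by omega) ho

theorem g_le (hS : Spec T d) (hg : TP d.toDat g) (i : ℕ) : g i ≤ 2 := by
  obtain ⟨s, _, h⟩ := hg.inf (i + 1) 0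
  rw [← h i (by omega)]
  exact hS.O_le s i

include hS hg L in
/-- the guess of a large node is not to the left of the true path -/
theorem not_left {a i : ℕ} (ha : m0 ≤ a) (hi : i < e + 1) (h1 : ∀ k < i, bt d a k = g k) :
    g i ≤ bt d a i := by
  by_contra hc
  have h2 := g_le hS hg i
  have h3 : i < d.N a := by
    by_contra h4
    have : bt d a i = 2 := if_neg h4
    omega
  have h4 : bt d a i = d.O a i := if_pos h3
  have h5 := L.stab a ha i hi fun k hk => by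
    have : bt d a k = d.O a k := if_pos (by omega)
    rw [← this]
    exact h1 k hk
  omega

theorem exists_first {P : ℕ → Prop} {n : ℕ} (h : ¬ ∀ k < n, P k) :
    ∃ i < n, ¬ P i ∧ ∀ k < i, P k := by
  classical
  push Not at h
  obtain ⟨h1, h2⟩ := Nat.find_spec h
  refine ⟨Nat.find h, h1, h2, fun k hk => ?_⟩
  by_contra hc
  exact Nat.find_min h hk ⟨by omega, hc⟩

include hS hg L in
/-- the letters used by the opponent are good -/
theorem twist {s'' s' s l : ℕ} (h1 : pv (Rs d g e m0) s'' s') (h2 : pv (Rs d g e m0) s' s)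
    (hl : Lam d s'' l) (hls : l < s) : GdL d g p e m0 s'' l := by
  have hpt := hS.pt
  obtain ⟨hJ, hu, hSt⟩ := hl.1
  set u0 := l.unpair.1 with hu0
  obtain ⟨ha1, ha2, ha3⟩ := anc_spec hpt.lt hu
  set a := anc d.pa s'' u0 with ha
  have hm : m0 ≤ s'' := h1.1.1
  have hJa := hS.node_an hJ ha3
  have key : ¬ ∀ k < e + 1, bt d a k = g k := by
    intro hk
    have h3 : ∀ k < e + 1, bt d u0 k = g k := by
      by_contra hc
      obtain ⟨i, hi, h4, h5⟩ := exists_first hc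
      have h6 := not_left hS hg L (a := u0) (by omega) hi h5
      have h7 := hS.pot_an hJ ha3 (e + 1)
      have h8 := pot_lt hS (u := a) (v := u0) (i := i) (j := e + 1) hi (by
        rw [hk i hi]; omega) (fun k hk' => by rw [hk k (by omega), h5 k hk'])
      omega
    have h4 : e < d.N u0 := by
      by_contra hc
      have h5 : bt d u0 e = 2 := if_neg hc
      have h6 := h3 e (by omega)
      rw [L.one] at h6
      omega
    have h5 : ∀ k < e + 1, d.O u0 k = g k := by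
      intro k hk'
      have h6 : bt d u0 k = d.O u0 k := if_pos (by omega)
      rw [← h6]
      exact h3 k hk'
    have h6 : Rs d g e m0 u0 :=
      ⟨by omega, fun i hi => h5 i (by omega), by rw [h5 e (by omega), L.one]⟩
    have h7 : s' ≤ u0 := by
      by_contra hc
      exact h1.2.2.2 u0 hu (by omega) h6
    obtain ⟨t, ht1, ht2, ht3, ht4⟩ := hSt e h4 h6.2.2
    have h8 : Rs d g e m0 t := ⟨by omega, h6.2.1.of_agr ht3, ht4⟩
    have h9 := Nat.unpair_right_le l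
    exact h2.2.2.2 t (by omega) (by omega) h8
  obtain ⟨i, hi, h4, h5⟩ := exists_first key
  have h6 := not_left hS hg L (a := a) (by omega) hi h5
  obtain ⟨u, h7, h8, h9, h10⟩ := born hS hg (v := a) (j := 0) (n := e + 1) hJa 0
    (fun s _ hs j' hj' hb => by
      have := L.blk j' hj' s a hb hs
      omega) (fun s _ _ hv => Or.inr ⟨rfl, i, hi, by
        rw [hv i hi]
        omega, fun k hk => by rw [hv k (by omega), h5 k hk]⟩)
  have h11 := hS.pt.lt u (one_le hS (by omega))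
  refine ⟨hl.1, u, ⟨⟨0, h8⟩, h9, h10, by omega⟩, by omega, ?_⟩
  have h12 : An d.pa u a := ⟨1, h7⟩
  rw [anc_desc hpt.lt hpt.zero h12 ha1, ← anc_desc hpt.lt hpt.zero ha3 ha1]

include hS in
theorem gl_down {c c' l : ℕ} (h : GdL d g p e m0 c' l) (hc : c ≤ c') :
    Lam d c (rep d c l) ∧ GdL d g p e m0 c (rep d c l) := by
  obtain ⟨h1, u, h2, h3, h4⟩ := h
  have h5 := h1.mono hc
  obtain ⟨h6, h7⟩ := rep_W h5
  refine ⟨rep_Lam h5, h6, u, h2, by omega, ?_⟩
  have h8 : anc d.pa c l.unpair.1 = anc d.pa c (rep d c l).unpair.1 := h7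
  rw [← h8, ← anc_anc hS.pt.lt hS.pt.zero hc h1.2.1, h4, anc_anc hS.pt.lt hS.pt.zero hc h3]

include hS hg hp L in
theorem gl_up {c l : ℕ} (hl : Lam d c l) (h : GdL d g p e m0 c l) :
    ∃ l', (Lam d (c + 1) l' ∧ GdL d g p e m0 (c + 1) l') ∧ rep d c l' = l := by
  obtain ⟨h1, u, h2, h3, h4⟩ := h
  obtain ⟨u', h5, h6, h7⟩ := gn_far hS hg hp L h2 (c + 1)
  obtain ⟨τ, hτ⟩ := exists_St hg h5.2.1 h5.2.2.1
  have h8 : W d (c + 1) (Nat.pair u' τ) := by
    unfold W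
    rw [Nat.unpair_pair]
    obtain ⟨⟨k, hk⟩, _⟩ := h5
    exact ⟨by show ¬ d.J u' = 0; omega, h6, hτ⟩
  have h9 : (Nat.pair u' τ).unpair.1 = u' := by rw [Nat.unpair_pair]
  refine ⟨rep d (c + 1) (Nat.pair u' τ), ?_, ?_⟩
  · refine gl_down hS (c' := c + 1) ⟨h8, u', h5, h6, by rw [h9]⟩ (le_refl _)
  · rw [rep_rep hS.pt h8 (Nat.le_succ c), rep_eq (h8.mono (Nat.le_succ c)) hl.1, hl.2]
    unfold E
    rw [h9, anc_desc hS.pt.lt hS.pt.zero h7 h3, ← h4]

/-- the group of the good words -/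
def GW (d : Dt) (g p : ℕ → ℕ) (e m0 c : ℕ) : Subgroup Gm :=
  Sb fun l => Lam d c l ∧ GdL d g p e m0 c l

theorem GW.val {c : ℕ} {w : Gm} (h : w ∈ GW d g p e m0 c) : Val d c w :=
  Sb_mono (fun _ h => h.1) h

include hS in
theorem gw_down {c c' : ℕ} {w : Gm} (h : w ∈ GW d g p e m0 c') (hc : c ≤ c') :
    fold d c w ∈ GW d g p e m0 c :=
  map_mem (fun _ h => gl_down hS h.2 hc) h

include hS hg hp L in
theorem gw_up {c : ℕ} {w : Gm} (h : w ∈ GW d g p e m0 c) :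
    ∃ w' ∈ GW d g p e m0 (c + 1), fold d c w' = w := by
  refine Sb_ind (p := fun w => ∃ w' ∈ GW d g p e m0 (c + 1), fold d c w' = w) ?_ ?_ ?_ ?_ h
  · rintro l ⟨h1, h2⟩
    obtain ⟨l', h3, h4⟩ := gl_up hS hg hp L h1 h2
    exact ⟨FreeGroup.of l', of_mem h3, by rw [fold_of, h4]⟩
  · exact ⟨1, one_mem _, fold_one _ _⟩
  · rintro x y _ _ ⟨x', h1, h2⟩ ⟨y', h3, h4⟩
    exact ⟨x' * y', mul_mem h1 h3, by rw [fold_mul, h2, h4]⟩
  · rintro x _ ⟨x', h1, h2⟩
    exact ⟨x'⁻¹, inv_mem h1, by rw [fold_inv, h2]⟩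

variable {M : ℕ → ℕ} {y : ℕ → ℕ → Gm}

include hS in
theorem y_fold (H : Rsp d g e m0 M y) {s' s m : ℕ} (h1 : pv (Rs d g e m0) s' s) {m' : ℕ}
    (hm : m ≤ m') (hm' : m' ≤ s') : fold d m (y s m') = y s m := by
  have hc := H.cut s' s h1
  refine fold_seq (M := M s) (m0 := 0) hS.pt (fun k _ hk => H.val s k h1.2.1 hk)
    (fun k _ hk => H.coh s k h1.2.1 hk) (Nat.zero_le _) hm (by omega)

include hS hg L in
theorem y_step (H : Rsp d g e m0 M y) {s'' s' s m : ℕ} (h1 : pv (Rs d g e m0) s'' s')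
    (h2 : pv (Rs d g e m0) s' s) (hm : m ≤ s'') :
    ∃ n ∈ GW d g p e m0 m, y s m = y s' m * n := by
  obtain ⟨n, hn, h3⟩ := H.tr s' s h2
  rw [H.cut s'' s' h1] at h3 hn
  have h4 : n ∈ GW d g p e m0 s'' :=
    Sb_mono (fun l hl => ⟨hl.1, twist hS hg L h1 h2 hl.1 hl.2⟩) hn
  refine ⟨fold d m n, gw_down hS h4 hm, ?_⟩
  have h5 := h1.2.2.1
  rw [← y_fold hS H h2 hm (by omega), h3, fold_mul, y_fold hS H h1 hm (le_refl _)]

include hS hg L in
theorem y_steps (H : Rsp d g e m0 M y) {r' r m : ℕ} (h1 : pv (Rs d g e m0) r' r)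
    (hm : m ≤ r') (s : ℕ) (hs : Rs d g e m0 s) (hrs : r ≤ s) :
    ∃ n ∈ GW d g p e m0 m, y s m = y r m * n := by
  induction s using Nat.strong_induction_on with
  | _ s ih =>
    by_cases h : s = r
    · rw [h]
      exact ⟨1, one_mem _, by rw [mul_one]⟩
    · obtain ⟨s0, h2, h3⟩ := exists_pv h1.2.1 hs (by omega)
      obtain ⟨n, hn, h4⟩ := ih s0 h2.2.2.1 h2.1 h3
      have h5 : ∃ s'', pv (Rs d g e m0) s'' s0 ∧ m ≤ s'' := by
        by_cases h6 : s0 = r
        · rw [h6]; exact ⟨r', h1, hm⟩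
        · obtain ⟨s'', h7, h8⟩ := exists_pv h1.2.1 h2.1 (by omega)
          have := h1.2.2.1
          exact ⟨s'', h7, by omega⟩
      obtain ⟨s'', h7, h8⟩ := h5
      obtain ⟨n', hn', h9⟩ := y_step (p := p) hS hg L H h7 h2 h8
      exact ⟨n * n', mul_mem hn hn', by rw [h9, h4, mul_assoc]⟩

/-- good words at the cut `c` -/
def Gd (d : Dt) (g p : ℕ → ℕ) (e m0 : ℕ) (y : ℕ → ℕ → Gm) (c : ℕ) (w : Gm) : Prop :=
  ∃ s' s, pv (Rs d g e m0) s' s ∧ c ≤ s' ∧ ∃ n ∈ GW d g p e m0 c, w = y s c * n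

include hS hg hp L in
/-- good words extend -/
theorem gd_next (H : Rsp d g e m0 M y) {c : ℕ} {w : Gm} (h : Gd d g p e m0 y c w) :
    ∃ w', Gd d g p e m0 y (c + 1) w' ∧ fold d c w' = w := by
  obtain ⟨s', s, h1, h2, n, hn, rfl⟩ := h
  obtain ⟨r, hr, hrs⟩ := H.inf (s + c + 1)
  obtain ⟨t, ht, hts⟩ := H.inf (r + 1)
  obtain ⟨t', h3, h4⟩ := exists_pv hrs hts (by omega)
  obtain ⟨n1, hn1, h5⟩ := y_steps (p := p) hS hg L H h1 h2 t hts (by omega)
  obtain ⟨n2, hn2, h6⟩ := gw_up hS hg hp L (c := c) (mul_mem (inv_mem hn1) hn)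
  refine ⟨y t (c + 1) * n2, ⟨t', t, h3, by omega, n2, hn2, rfl⟩, ?_⟩
  have hc := H.cut t' t h3
  rw [fold_mul, H.coh t c hts (by omega), h5, h6]
  group

theorem Gd.val (H : Rsp d g e m0 M y) {c : ℕ} {w : Gm} (h : Gd d g p e m0 y c w) :
    Val d c w := by
  obtain ⟨s', s, h1, h2, n, hn, rfl⟩ := h
  have hc := H.cut s' s h1
  exact (H.val s c h1.2.1 (by omega)).mul (GW.val hn)

end

end Pool.Agent.H668.Low
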