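import Mathlib
import Pool.Graph.R_seed8.Helper743.Oracle
import Pool.Agent.H668.Low.Route

set_option autoImplicit false

/-! Searches relative to an oracle. -/

namespace Pool.Agent.H668.Low

open Encodable Denumerable Nat.Partrec Pool.Agent.Helper941 Pool.Agent.Helper941.IsoProb
open Pool.Agent.Helper941.Zeta
open Pool.Agent.Helper743 (TR RecT pre recT_pre cert pre_length pre_getElem?)
open Pool.Agent.Helper941.Dim hiding entry row row_zero row_succ row_length row_get nxt hist
  hist_succ hist_length hist_get hh getc_hist con c_entry c_row c_nxt c_hist c_hh con_O con_C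
  con_J con_pa hh_row con_ent con_ent' getc_ext getc_ext' entry_eq deq_con con_spec
  el idx el_valid idx_el el_idx c_idx c_el As as_comp

variable {p : ℕ → ℕ}

theorem nod_pre (p : ℕ → ℕ) (n : ℕ) : nod p n = encode (pre p n).reverse := rfl

theorem rec_nod (p : ℕ → ℕ) : RecT {(p : ℕ →. ℕ)} (nod p) := by
  have h1 := recT_pre (O := {(p : ℕ →. ℕ)}) (G := p) (TR.refl p)
  have h2 : Computable fun z : ℕ => encode (ofNat (List ℕ) z).reverse :=
    Computable.encode.comp (Primrec.list_reverse.to_comp.comp (Computable.ofNat (List ℕ)))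
  have h3 := (Pool.Agent.Helper743.Computable.recT (O := {(p : ℕ →. ℕ)}) h2).comp h1
  have h4 : (fun n => encode (ofNat (List ℕ) (encode (pre p n))).reverse) = nod p := by
    funext n
    rw [ofNat_encode]
    rfl
  rw [h4] at h3
  exact h3

theorem find_rec {O : Set (ℕ →. ℕ)} {P : ℕ → ℕ → Prop} [∀ a n, Decidable (P a n)]
    (h : RecT O fun v => if P v.unpair.1 v.unpair.2 then 0 else 1) (hex : ∀ a, ∃ n, P a n) :
    ∃ fd : ℕ → ℕ, RecT O fd ∧ ∀ a, P a (fd a) := by
  have hex' : ∀ a, ∃ n, (fun v : ℕ => if P v.unpair.1 v.unpair.2 then 0 else 1)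
      (Nat.pair a n) = 0 := by
    intro a
    obtain ⟨n, hn⟩ := hex a
    refine ⟨n, ?_⟩
    show (if P (Nat.pair a n).unpair.1 (Nat.pair a n).unpair.2 then 0 else 1) = 0
    rw [if_pos (by rw [Nat.unpair_pair]; exact hn)]
  refine ⟨_, RecT.find h hex', fun a => ?_⟩
  have h1 := Nat.find_spec (hex' a)
  by_contra hc
  have h2 : (fun v : ℕ => if P v.unpair.1 v.unpair.2 then 0 else 1)
      (Nat.pair a (Nat.find (hex' a))) = 1 := by
    show (if P (Nat.pair a (Nat.find (hex' a))).unpair.1
      (Nat.pair a (Nat.find (hex' a))).unpair.2 then 0 else 1) = 1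
    rw [if_neg (by rw [Nat.unpair_pair]; exact hc)]
  omega

/-- a search relative to an oracle which is iterated infinitely often -/
theorem xsearch {Nx : ℕ → ℕ → ℕ → ℕ → Prop}
    (hc : ComputablePred fun v : ℕ × ℕ × ℕ × ℕ => Nx v.1 v.2.1 v.2.2.1 v.2.2.2) {val : ℕ → ℕ}
    (hval : Computable val) (Gd : ℕ → ℕ → Prop) (x0 : ℕ) (h0 : Gd 0 x0)
    (hsound : ∀ c x q, Gd c x → Nx c x q (nod p q.unpair.1) → Gd (c + 1) (val q))
    (hcompl : ∀ c x, Gd c x → ∃ q, Nx c x q (nod p q.unpair.1)) :
    ∃ X : ℕ → ℕ, RecT {(p : ℕ →. ℕ)} X ∧ X 0 = x0 ∧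
      ∀ k, Gd k (X k) ∧ ∃ q, Nx k (X k) q (nod p q.unpair.1) ∧ X (k + 1) = val q := by
  classical
  -- the step function
  let Hc : ℕ → ℕ := fun w => if Nx w.unpair.1.unpair.1 w.unpair.1.unpair.2
    w.unpair.2.unpair.1 w.unpair.2.unpair.2 then
    Nat.pair (w.unpair.1.unpair.1 + 1) (val w.unpair.2.unpair.1) else w.unpair.1
  have hHc : Computable Hc := by
    have a1 : Computable fun w : ℕ => w.unpair.1 := c_up1 c_id
    have a2 : Computable fun w : ℕ => w.unpair.2.unpair.1 := c_up1 (c_up2 c_id)
    refine c_ite ?_ (c_npair (c_succ (c_up1 a1)) (hval.comp a2)) a1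
    exact computablePred_comp hc (c_pair (c_up1 a1) (c_pair (c_up2 a1) (c_pair a2
      (c_up2 (c_up2 c_id)))))
  let stp : ℕ → ℕ → ℕ := fun t ih =>
    Hc (Nat.pair ih (Nat.pair t.unpair.1 (nod p t.unpair.1.unpair.1)))
  let z : ℕ → ℕ := fun t => Nat.rec (Nat.pair 0 x0) (fun t ih => stp t ih) t
  have hz0 : z 0 = Nat.pair 0 x0 := rfl
  have hzs : ∀ t, z (t + 1) = if Nx (z t).unpair.1 (z t).unpair.2 t.unpair.1
      (nod p t.unpair.1.unpair.1) then Nat.pair ((z t).unpair.1 + 1) (val t.unpair.1)
      else z t := by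
    intro t
    show Hc (Nat.pair (z t) (Nat.pair t.unpair.1 (nod p t.unpair.1.unpair.1))) = _
    show (if Nx _ _ _ _ then _ else _) = _
    simp only [Nat.unpair_pair]
  have hz : RecT {(p : ℕ →. ℕ)} z := by
    have b1 : Computable fun v : ℕ => v.unpair.2.unpair.2 := c_up2 (c_up2 c_id)
    have b2 : Computable fun v : ℕ => v.unpair.2.unpair.1.unpair.1 := c_up1 (c_up1 (c_up2 c_id))
    have h1 : RecT {(p : ℕ →. ℕ)} fun v : ℕ => Hc (Nat.pair v.unpair.2.unpair.2
        (Nat.pair v.unpair.2.unpair.1.unpair.1 (nod p v.unpair.2.unpair.1.unpair.1.unpair.1))) :=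
      (Pool.Agent.Helper743.Computable.recT hHc).comp
        (RecT.pair (Pool.Agent.Helper743.Computable.recT b1)
          (RecT.pair (Pool.Agent.Helper743.Computable.recT b2)
            ((rec_nod p).comp (Pool.Agent.Helper743.Computable.recT (c_up1 b2)))))
    have h2 := RecT.prec (f := fun _ => Nat.pair 0 x0)
      (Pool.Agent.Helper743.Computable.recT (c_const _)) h1
    have h3 := h2.comp (RecT.pair (Pool.Agent.Helper743.Computable.recT
      (O := {(p : ℕ →. ℕ)}) (c_const 0)) (Pool.Agent.Helper743.Computable.recT c_id))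
    have h4 : (fun n : ℕ => (Nat.rec (Nat.pair 0 x0)
        (fun y ih => Hc (Nat.pair (Nat.pair (Nat.pair 0 n).unpair.1 (Nat.pair y ih)).unpair.2.unpair.2
        (Nat.pair (Nat.pair (Nat.pair 0 n).unpair.1 (Nat.pair y ih)).unpair.2.unpair.1.unpair.1
          (nod p (Nat.pair (Nat.pair 0 n).unpair.1
            (Nat.pair y ih)).unpair.2.unpair.1.unpair.1.unpair.1))))
        (Nat.pair 0 n).unpair.2 : ℕ)) = z := by
      funext n
      simp only [Nat.unpair_pair]
      rfl
    rw [h4] at h3
    exact h3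
  -- the invariant
  have hinv : ∀ t, Gd (z t).unpair.1 (z t).unpair.2 := by
    intro t
    induction t with
    | zero => rw [hz0, Nat.unpair_pair]; exact h0
    | succ t ih =>
      rw [hzs]
      split_ifs with h
      · rw [Nat.unpair_pair]
        exact hsound _ _ _ ih h
      · exact ih
  have hmono1 : ∀ t, z (t + 1) = z t ∨ (z (t + 1)).unpair.1 = (z t).unpair.1 + 1 := by
    intro t
    rw [hzs]
    split_ifs with h
    · right; rw [Nat.unpair_pair]
    · left; rfl
  have hmono : ∀ t t', t ≤ t' → (z t).unpair.1 ≤ (z t').unpair.1 := by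
    intro t t' h
    induction t', h using Nat.le_induction with
    | base => exact le_refl _
    | succ t' _ ih =>
      rcases hmono1 t' with h | h
      · rw [h]; exact ih
      · omega
  have hsame : ∀ t t', t ≤ t' → (z t).unpair.1 = (z t').unpair.1 → z t = z t' := by
    intro t t' h
    induction t', h using Nat.le_induction with
    | base => intro _; rfl
    | succ t' h1 ih =>
      intro h2
      rcases hmono1 t' with h | h
      · rw [h]
        exact ih (by rw [h2, h])
      · have := hmono t t' h1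
        omega
  have hreach : ∀ k, ∃ t, (z t).unpair.1 = k := by
    intro k
    induction k with
    | zero => exact ⟨0, by rw [hz0, Nat.unpair_pair]⟩
    | succ k ih =>
      obtain ⟨t, ht⟩ := ih
      by_contra hc
      push Not at hc
      have h1 : ∀ t', t ≤ t' → z t' = z t := by
        intro t' h
        induction t', h using Nat.le_induction with
        | base => rfl
        | succ t' _ ih =>
          rcases hmono1 t' with h | h
          · rw [h]; exact ih
          · rw [ih, ht] at h
            exact (hc (t' + 1) h).elim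
      obtain ⟨q, hq⟩ := hcompl _ _ (hinv t)
      have h2 := h1 (Nat.pair q t) (Nat.right_le_pair q t)
      have h3 := hzs (Nat.pair q t)
      rw [h2, Nat.unpair_pair, if_pos hq] at h3
      refine hc (Nat.pair q t + 1) ?_
      rw [h3, Nat.unpair_pair, ht]
  let X : ℕ → ℕ := fun k => (z (Nat.find (hreach k))).unpair.2
  have hX : ∀ k t, (z t).unpair.1 = k → X k = (z t).unpair.2 := by
    intro k t ht
    have h1 := Nat.find_spec (hreach k)
    have h2 := Nat.find_min' (hreach k) ht
    show (z (Nat.find (hreach k))).unpair.2 = _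
    rw [hsame _ _ h2 (h1.trans ht.symm)]
  refine ⟨X, ?_, ?_, fun k => ⟨?_, ?_⟩⟩
  · have h1 : RecT {(p : ℕ →. ℕ)} fun v : ℕ => if (z v.unpair.2).unpair.1 = v.unpair.1
        then 0 else 1 := by
      have h2 : Computable fun v : ℕ => (if v.unpair.2.unpair.1 = v.unpair.1
        then 0 else 1 : ℕ) :=
        c_ite (p_eq (c_up1 (c_up2 c_id)) (c_up1 c_id)) (c_const 0) (c_const 1)
      have h3 := (Pool.Agent.Helper743.Computable.recT (O := {(p : ℕ →. ℕ)}) h2).comp
        (RecT.pair (Pool.Agent.Helper743.Computable.recT (c_up1 c_id))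
          (hz.comp (Pool.Agent.Helper743.Computable.recT (c_up2 c_id))))
      have h4 : (fun n : ℕ => (if (Nat.pair n.unpair.1 (z n.unpair.2)).unpair.2.unpair.1 =
          (Nat.pair n.unpair.1 (z n.unpair.2)).unpair.1 then 0 else 1 : ℕ)) =
          fun v : ℕ => if (z v.unpair.2).unpair.1 = v.unpair.1 then 0 else 1 := by
        funext n
        simp only [Nat.unpair_pair]
      rw [h4] at h3
      exact h3
    obtain ⟨fd, h2, h5⟩ := find_rec (P := fun a n => (z n).unpair.1 = a) h1 hreach
    have h3 := (Pool.Agent.Helper743.Computable.recT (O := {(p : ℕ →. ℕ)})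
      (c_up2 c_id)).comp (hz.comp h2)
    have h4 : (fun n => (z (fd n)).unpair.2) = X := by
      funext k
      exact (hX k _ (h5 k)).symm
    rw [h4] at h3
    exact h3
  · rw [hX 0 0 (by rw [hz0, Nat.unpair_pair]), hz0, Nat.unpair_pair]
  · have h1 := Nat.find_spec (hreach k)
    have h2 := hinv (Nat.find (hreach k))
    rw [h1] at h2
    exact h2
  · have h1 := Nat.find_spec (hreach (k + 1))
    set t1 := Nat.find (hreach (k + 1)) with ht1
    have h2 : 1 ≤ t1 := by
      by_contra hc
      have h3 : t1 = 0 := by omega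
      rw [h3, hz0, Nat.unpair_pair] at h1
      have : (0 : ℕ) = k + 1 := h1
      omega
    have h3 : (z (t1 - 1)).unpair.1 ≠ k + 1 := fun hc => by
      have := Nat.find_min' (hreach (k + 1)) hc
      omega
    have h4 := hzs (t1 - 1)
    rw [show t1 - 1 + 1 = t1 by omega] at h4
    split_ifs at h4 with h5
    · have h6 : (z (t1 - 1)).unpair.1 = k := by
        rw [h4, Nat.unpair_pair] at h1
        have : (z (t1 - 1)).unpair.1 + 1 = k + 1 := h1
        omega
      refine ⟨(t1 - 1).unpair.1, ?_, ?_⟩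
      · rw [hX k _ h6]
        rw [h6] at h5
        exact h5
      · show (z t1).unpair.2 = _
        rw [h4, Nat.unpair_pair]
    · rw [h4] at h1
      exact (h3 h1).elim

/-! ### walking along the letters relative to an oracle -/

section
variable {d : Dt} {κ : ℕ} {i : Fin (κ + 1)} {B : Str} {G : ℕ → Gm → ℕ} {F : ℕ → Gm}

/-- walking along the letters of a word -/
theorem walkX {O : Set (ℕ →. ℕ)} (hd : DtC d) (hBc : IsComp B) (hG : CI d i B G)
    (hF : Flw d F) (hZ : RecT O fun c => G c (F c)) :
    RecT O fun n => G (ec d n) (F (ec d n) * ew d n) := by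
  classical
  let L : ℕ → List (ℕ × Bool) := fun n => lw (el d n).unpair.2
  have hL : Computable L := c_lel hd
  let Q : ℕ → ℕ → ℕ → Prop := fun b n m => ent m 0 = b ∧
    ∀ k < (L n).length,
      ((gl (L n) k).2 = true → B (Nat.pair 2 (gl (L n) k).1) (ent m k) (ent m (k + 1))) ∧
      ((gl (L n) k).2 = false → B (Nat.pair 2 (gl (L n) k).1) (ent m (k + 1)) (ent m k))
  have hQ : ComputablePred fun p : ℕ × ℕ × ℕ => Q p.1 p.2.1 p.2.2 := by
    have m' : Computable fun p : (ℕ × ℕ × ℕ) × ℕ => p.1.2.2 := c_snd (c_snd (c_fst c_id))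
    have e0 : Computable fun p : (ℕ × ℕ × ℕ) × ℕ => ent p.1.2.2 p.2 :=
      c_ent m' (c_snd c_id)
    have e1 : Computable fun p : (ℕ × ℕ × ℕ) × ℕ => ent p.1.2.2 (p.2 + 1) :=
      c_ent m' (c_succ (c_snd c_id))
    have g1 : Computable fun p : (ℕ × ℕ × ℕ) × ℕ => gl (L p.1.2.1) p.2 :=
      c_gl (hL.comp (c_fst (c_snd (c_fst c_id)))) (c_snd c_id)
    have b1 : ComputablePred fun p : (ℕ × ℕ × ℕ) × ℕ =>
        B (Nat.pair 2 (gl (L p.1.2.1) p.2).1) (ent p.1.2.2 p.2) (ent p.1.2.2 (p.2 + 1)) :=
      computablePred_comp (P := fun q : ℕ × ℕ × ℕ => B q.1 q.2.1 q.2.2) hBc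
        (c_pair (c_npair (c_const 2) (c_fst g1)) (c_pair e0 e1))
    have b2 : ComputablePred fun p : (ℕ × ℕ × ℕ) × ℕ =>
        B (Nat.pair 2 (gl (L p.1.2.1) p.2).1) (ent p.1.2.2 (p.2 + 1)) (ent p.1.2.2 p.2) :=
      computablePred_comp (P := fun q : ℕ × ℕ × ℕ => B q.1 q.2.1 q.2.2) hBc
        (c_pair (c_npair (c_const 2) (c_fst g1)) (c_pair e1 e0))
    refine p_and (p_eq (c_ent (c_snd (c_snd c_id)) (c_const 0)) (c_fst c_id)) (p_ball
      (Computable.list_length.comp (hL.comp (c_fst (c_snd c_id)))) (p_and (p_imp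
      (p_of_bool (c_snd g1)) b1) (p_imp ?_ b2)))
    exact p_eqb (c_snd g1) (c_const false)
  have hlam : ∀ n, ∀ k < (L n).length, Lam d (ec d n) (gl (L n) k).1 := by
    intro n k hk
    rw [gl_of_lt hk]
    exact (el_vd d n).2 _ (List.getElem_mem hk)
  have hvt : ∀ n k, Val d (ec d n) (FreeGroup.mk ((L n).take k)) := fun n k =>
    mk_mem fun x hx => (el_vd d n).2 x (List.mem_of_mem_take hx)
  have hvf : ∀ n k, Val d (ec d n) (F (ec d n) * FreeGroup.mk ((L n).take k)) := fun n k =>
    (hF.val _).mul (hvt n k)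
  have hstep : ∀ n, ∀ k < (L n).length,
      ((gl (L n) k).2 = true →
        F (ec d n) * FreeGroup.mk ((L n).take (k + 1)) =
          F (ec d n) * FreeGroup.mk ((L n).take k) * FreeGroup.of (gl (L n) k).1) ∧
      ((gl (L n) k).2 = false →
        F (ec d n) * FreeGroup.mk ((L n).take (k + 1)) =
          F (ec d n) * FreeGroup.mk ((L n).take k) * (FreeGroup.of (gl (L n) k).1)⁻¹) := by
    intro n k hk
    rw [take_succ' hk]
    constructor
    · intro h
      have : gl (L n) k = ((gl (L n) k).1, true) := Prod.ext rfl h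
      rw [this, mul_assoc]
      rfl
    · intro h
      have : gl (L n) k = ((gl (L n) k).1, false) := Prod.ext rfl h
      rw [this, mk_false, mul_assoc]
  have hex : ∀ n, ∃ m, Q (G (ec d n) (F (ec d n))) n m := by
    intro n
    obtain ⟨m, hm⟩ := exists_ent ((L n).length + 1) fun k =>
      G (ec d n) (F (ec d n) * FreeGroup.mk ((L n).take k))
    refine ⟨m, ?_, fun k hk => ?_⟩
    · rw [hm 0 (by omega), List.take_zero]
      show G _ (F _ * 1) = _
      rw [mul_one]
    · rw [hm k (by omega), hm (k + 1) (by omega)]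
      obtain ⟨h1, h2⟩ := hstep n k hk
      constructor
      · intro h
        rw [h1 h]
        exact hG.mk_two (hvf n k) (hlam n k hk)
      · intro h
        have h3 := hG.mk_two (hvf n (k + 1)) (hlam n k hk)
        have h4 : F (ec d n) * FreeGroup.mk ((L n).take (k + 1)) *
            FreeGroup.of (gl (L n) k).1 = F (ec d n) * FreeGroup.mk ((L n).take k) := by
          rw [h2 h, inv_mul_cancel_right]
        rwa [h4] at h3
  have huniq : ∀ n m, Q (G (ec d n) (F (ec d n))) n m → ∀ k ≤ (L n).length,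
      ent m k = G (ec d n) (F (ec d n) * FreeGroup.mk ((L n).take k)) := by
    intro n m hm k
    induction k with
    | zero =>
      intro _
      rw [hm.1, List.take_zero]
      show _ = G _ (F _ * 1)
      rw [mul_one]
    | succ k ih =>
      intro hk
      have h1 := ih (by omega)
      obtain ⟨h2, h3⟩ := hstep n k (by omega)
      cases hb : (gl (L n) k).2 with
      | true =>
        have h4 := (hm.2 k (by omega)).1 hb
        rw [h1] at h4
        rw [(hG.two (hvf n k) h4).2, h2 hb]
      | false =>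
        have h4 := (hm.2 k (by omega)).2 hb
        rw [h1] at h4
        rw [(hG.two' (hvf n k) h4).2, h3 hb]
  have hfin : ∀ n m, Q (G (ec d n) (F (ec d n))) n m →
      ent m (L n).length = G (ec d n) (F (ec d n) * ew d n) := by
    intro n m h
    rw [huniq n _ h _ (le_refl _), List.take_length]
    rfl
  refine cert (G := fun c => G c (F c)) hZ (fun σ n m =>
    if ec d n < σ.length ∧ Q ((σ[ec d n]?).getD 0) n m then some (ent m (L n).length) else none)
    ?_ _ ?_ ?_
  · have s1 : Computable fun q : (List ℕ × ℕ) × ℕ => q.1.1 := c_fst (c_fst c_id)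
    have n1 : Computable fun q : (List ℕ × ℕ) × ℕ => q.1.2 := c_snd (c_fst c_id)
    have e1 : Computable fun q : (List ℕ × ℕ) × ℕ => ec d q.1.2 := (c_ec hd).comp n1
    have b1 : Computable fun q : (List ℕ × ℕ) × ℕ => (q.1.1[ec d q.1.2]?).getD 0 :=
      (Primrec.option_getD.to_comp).comp (Computable.list_getElem?.comp s1 e1)
        (Computable.const 0)
    refine c_ite (p_and (p_lt e1 (Computable.list_length.comp s1))
      (computablePred_comp hQ (c_pair b1 (c_pair n1 (c_snd c_id))))) ?_ (c_const none)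
    exact Computable.option_some.comp (c_ent (c_snd c_id)
      (Computable.list_length.comp (hL.comp n1)))
  · intro n
    obtain ⟨m, hm⟩ := hex n
    refine ⟨ec d n + 1, m, ?_⟩
    have h1 : ((pre (fun c => G c (F c)) (ec d n + 1))[ec d n]?).getD 0 =
        G (ec d n) (F (ec d n)) := by
      rw [pre_getElem?, if_pos (by omega)]
      rfl
    rw [if_pos ⟨by rw [pre_length]; omega, by rw [h1]; exact hm⟩]
    rfl
  · intro n k m y h
    split_ifs at h with h1
    obtain ⟨h2, h3⟩ := h1
    rw [pre_length] at h2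
    rw [pre_getElem?, if_pos h2] at h3
    have h4 := hfin n m h3
    rw [← h4]
    exact (Option.some.inj h).symm

end

end Pool.Agent.H668.Low
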