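import Mathlib
import Pool.Agent.H668.Low.Oracle

set_option autoImplicit false

/-! Every computable copy is isomorphic to one of the structures relative to the path. -/

namespace Pool.Agent.H668.Low

open Encodable Denumerable Nat.Partrec Pool.Agent.Helper941 Pool.Agent.Helper941.IsoProb
open Pool.Agent.Helper941.Zeta
open Pool.Agent.Helper743 (TR RecT pre recT_pre cert pre_length pre_getElem?)
open Pool.Agent.Helper941.Dim hiding entry row row_zero row_succ row_length row_get nxt hist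
  hist_succ hist_length hist_get hh getc_hist con c_entry c_row c_nxt c_hist c_hh con_O con_C
  con_J con_pa hh_row con_ent con_ent' getc_ext getc_ext' entry_eq deq_con con_spec
  el idx el_valid idx_el el_idx c_idx c_el As as_comp

variable {d : Dt} {T : ℕ → Prop} {g p : ℕ → ℕ} {e m0 : ℕ} {κ : ℕ} {j : Fin (κ + 1)} {B : Str}
  {G : ℕ → Gm → ℕ}

theorem d_vis (hd : DtC d) (g : ℕ → ℕ) (e : ℕ) : ComputablePred fun s => vis d.toDat g s e := by
  induction e with
  | zero =>
    refine (p_eq (c_const 0) (c_const 0)).of_eq fun s => ?_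
    exact ⟨fun _ i hi => by omega, fun _ => rfl⟩
  | succ e ih =>
    refine (p_and ih (p_eq (hd.O.comp (c_pair c_id (c_const e))) (c_const (g e)))).of_eq
      fun s => ?_
    constructor
    · rintro ⟨h1, h2⟩ i hi
      rcases Nat.lt_succ_iff_lt_or_eq.1 hi with h | h
      · exact h1 i h
      · rw [h]; exact h2
    · intro h
      exact ⟨fun i hi => h i (by omega), h e (by omega)⟩

theorem d_Rs (hd : DtC d) (g : ℕ → ℕ) (e N : ℕ) : ComputablePred (Rs d g e N) :=
  p_and (p_le (c_const N) c_id) (p_and (d_vis hd g e)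
    (p_eq (hd.O.comp (c_pair c_id (c_const e))) (c_const 1)))

/-- the witness `u` of the good letter `l` -/
def Wu (d : Dt) (g : ℕ → ℕ) (e m0 C σ l u : ℕ) : Prop :=
  W d C l ∧ (¬ d.J u = 0 ∧ Pf (d.J u - 1) σ ∧ d.N u = e + 1 ∧ vis d.toDat g u (e + 1) ∧
    m0 ≤ u) ∧ C < u ∧ anc d.pa C l.unpair.1 = anc d.pa C u

/-- one step of the search: `x` is the point at the cut `C` -/
def Sx (d : Dt) (g : ℕ → ℕ) (e m0 : ℕ) (B : Str) (C x σ y s' s l z w u : ℕ) : Prop :=
  (pv (Rs d g e m0) s' s ∧ C + 1 ≤ s') ∧ ent z 0 = cy (d.C s e - 1) (C + 1) ∧ ent z l = y ∧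
    B (Nat.pair 3 0) y x ∧
    ∀ i < l, Wu d g e m0 (C + 1) σ (ent w i) (ent u i) ∧
      (B (Nat.pair 2 (ent w i)) (ent z i) (ent z (i + 1)) ∨
        B (Nat.pair 2 (ent w i)) (ent z (i + 1)) (ent z i))

theorem p_Wu (hd : DtC d) (g : ℕ → ℕ) (e m0 : ℕ) {α : Type} [Primcodable α]
    {C σ l u : α → ℕ} (hC : Computable C) (hσ : Computable σ) (hl : Computable l)
    (hu : Computable u) : ComputablePred fun x => Wu d g e m0 (C x) (σ x) (l x) (u x) := by
  unfold Wu
  refine p_and (d_W hd hC hl) (p_and (p_and (p_not (p_eq (hd.J.comp hu) (c_const 0)))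
    (p_and ?_ (p_and (p_eq (hd.N.comp hu) (c_const _)) (p_and
      (computablePred_comp (d_vis hd g (e + 1)) hu) (p_le (c_const m0) hu)))))
    (p_and (p_lt hC hu) (p_eq (d_anc hd hC (c_up1 hl)) (d_anc hd hC hu))))
  exact p_Pf (c_sub (hd.J.comp hu) (c_const 1)) hσ

theorem p_Sx (hd : DtC d) (hBc : IsComp B) (g : ℕ → ℕ) (e m0 : ℕ) {α : Type} [Primcodable α]
    {C x σ y s' s l z w u : α → ℕ} (hC : Computable C) (hx : Computable x) (hσ : Computable σ)
    (hy : Computable y) (hs' : Computable s') (hs : Computable s) (hl : Computable l)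
    (hz : Computable z) (hw : Computable w) (hu : Computable u) : ComputablePred fun a =>
      Sx d g e m0 B (C a) (x a) (σ a) (y a) (s' a) (s a) (l a) (z a) (w a) (u a) := by
  have hR := d_Rs hd g e m0
  have h1 : ComputablePred fun a => pv (Rs d g e m0) (s' a) (s a) := by
    unfold pv
    refine p_and (computablePred_comp hR hs') (p_and (computablePred_comp hR hs)
      (p_and (p_lt hs' hs) ?_))
    have h2 : ComputablePred fun a => ∀ y < s a, s' a < y → ¬ Rs d g e m0 y :=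
      p_ball hs (p_imp (p_lt (c_l hs') c_r) (p_not (computablePred_comp hR c_r)))
    exact h2.of_eq fun a => ⟨fun h y h3 h4 => h y h4 h3, fun h y h3 h4 => h y h4 h3⟩
  have hBB : ∀ {β : Type} [Primcodable β] {f g h : β → ℕ}, Computable f → Computable g →
      Computable h → ComputablePred fun x => B (f x) (g x) (h x) := fun hf hg hh =>
    computablePred_comp (P := fun q : ℕ × ℕ × ℕ => B q.1 q.2.1 q.2.2) hBc
      (c_pair hf (c_pair hg hh))
  have hwk : Computable fun p : α × ℕ => ent (w p.1) p.2 := c_ent (c_l hw) c_r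
  have huk : Computable fun p : α × ℕ => ent (u p.1) p.2 := c_ent (c_l hu) c_r
  have hzk : Computable fun p : α × ℕ => ent (z p.1) p.2 := c_ent (c_l hz) c_r
  have hzk' : Computable fun p : α × ℕ => ent (z p.1) (p.2 + 1) := c_ent (c_l hz) (c_succ c_r)
  have hCy : Computable fun a => cy (d.C (s a) e - 1) (C a + 1) :=
    c_cy (c_sub (hd.C.comp (c_pair hs (c_const e))) (c_const 1)) (c_succ hC)
  unfold Sx
  refine p_and (p_and h1 (p_le (c_succ hC) hs')) (p_and (p_eq (c_ent hz (c_const 0)) hCy)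
    (p_and (p_eq (c_ent hz hl) hy) (p_and (hBB (c_const _) hy hx) (p_ball hl (p_and
      (p_Wu hd g e m0 (c_succ (c_l hC)) (c_l hσ) hwk huk) (p_or
      (hBB (c_npair (c_const 2) hwk) hzk hzk') (hBB (c_npair (c_const 2) hwk) hzk' hzk)))))))

theorem pf_nod {a K : ℕ} (h : Pf a (nod p K)) : a = nod p (len a) := by
  refine nod_ext fun i hi => ?_
  obtain ⟨h1, h2⟩ := h
  rw [len_nod] at h1
  rw [h2 i hi, dig_nod p (by omega)]

theorem nod_pf {k K : ℕ} (h : k ≤ K) : Pf (nod p k) (nod p K) := by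
  refine ⟨by rw [len_nod, len_nod]; exact h, fun i hi => ?_⟩
  rw [len_nod] at hi
  rw [dig_nod p hi, dig_nod p (by omega)]

section
variable (hS : Spec T d) (hg : TP d.toDat g) (hp : ∀ k, T (nod p k)) (L : Lrg d g e m0)
  (hG : CI d j B G) (H : Rsp d g e m0 (fun s => cM (d.C s e - 1)) (yt hG e))
  (hy : ∀ s m, Rs d g e m0 s → m ≤ cM (d.C s e - 1) → G m (yt hG e s m) = cy (d.C s e - 1) m)

include hG H hy in
theorem sx_sound {C K y s' s l z w u x : ℕ}
    (h : Sx d g e m0 B C x (nod p K) y s' s l z w u) :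
    ∃ v', Gd d g p e m0 (yt hG e) (C + 1) v' ∧ G (C + 1) v' = y := by
  obtain ⟨⟨h1, h2⟩, h3, h4, h5, h6⟩ := h
  have hc := H.cut s' s h1
  have hle : C + 1 ≤ cM (d.C s e - 1) := by
    have : cM (d.C s e - 1) = s' := hc
    omega
  have hr : Relation.ReflTransGen (Stp B (GdL d g p e m0 (C + 1))) (ent z 0) (ent z l) := by
    refine reach_of_seq (r := fun l x y => GdL d g p e m0 (C + 1) l ∧
      (B (Nat.pair 2 l) x y ∨ B (Nat.pair 2 l) y x)) (z := ent z) (w := ent w) fun i hi => ?_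
    obtain ⟨⟨h7, ⟨h8, h9, h10, h11, h12⟩, h13, h14⟩, h15⟩ := h6 i hi
    refine ⟨⟨h7, ent u i, ⟨⟨len (d.J (ent u i) - 1), ?_⟩, h10, h11, h12⟩, h13, h14⟩, h15⟩
    rw [← pf_nod h9]
    omega
  rw [h3, h4, ← hy s (C + 1) h1.2.1 hle] at hr
  have hv : Val d (C + 1) (yt hG e s (C + 1)) := H.val s (C + 1) h1.2.1 hle
  obtain ⟨n, hn, h7⟩ := reach_sound hG hv hr
  exact ⟨yt hG e s (C + 1) * n, ⟨s', s, h1, h2, n, hn, rfl⟩, h7.symm⟩

include hS hg hp L hG H hy in
theorem sx_complete {C : ℕ} {v : Gm} (hv : Gd d g p e m0 (yt hG e) C v) :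
    ∃ K y s' s l z w u, Sx d g e m0 B C (G C v) (nod p K) y s' s l z w u := by
  obtain ⟨v', ⟨s', s, h1, h2, n, hn, h3⟩, h4⟩ := gd_next hS hg hp L H hv
  have hc := H.cut s' s h1
  have hle : C + 1 ≤ cM (d.C s e - 1) := by
    have : cM (d.C s e - 1) = s' := hc
    omega
  have hyv : Val d (C + 1) (yt hG e s (C + 1)) := H.val s (C + 1) h1.2.1 hle
  have hr := reach_complete hG (S := GdL d g p e m0 (C + 1)) hn hyv
  rw [← h3, hy s (C + 1) h1.2.1 hle] at hr
  obtain ⟨l, z, wl, hz0, hzl, hzs⟩ := seq_of_reach (r := fun l x y =>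
    GdL d g p e m0 (C + 1) l ∧ (B (Nat.pair 2 l) x y ∨ B (Nat.pair 2 l) y x)) hr
  have hu : ∀ i, ∃ u k, i < l → W d (C + 1) (wl i) ∧ d.J u = nod p k + 1 ∧ d.N u = e + 1 ∧
      vis d.toDat g u (e + 1) ∧ m0 ≤ u ∧ C + 1 < u ∧
      anc d.pa (C + 1) (wl i).unpair.1 = anc d.pa (C + 1) u := by
    intro i
    by_cases hi : i < l
    · obtain ⟨⟨h5, u, ⟨⟨k, h6⟩, h7, h8, h9⟩, h10, h11⟩, _⟩ := hzs i hi
      exact ⟨u, k, fun _ => ⟨h5, h6, h7, h8, h9, h10, h11⟩⟩
    · exact ⟨0, 0, fun h => (hi h).elim⟩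
  choose ul kl hul using hu
  obtain ⟨z', hz⟩ := exists_ent (l + 1) z
  obtain ⟨w', hw⟩ := exists_ent l wl
  obtain ⟨u', hu'⟩ := exists_ent l ul
  set K := ∑ i ∈ Finset.range l, kl i with hK
  have hkK : ∀ i < l, kl i ≤ K := fun i hi =>
    Finset.single_le_sum (f := kl) (fun _ _ => Nat.zero_le _) (Finset.mem_range.2 hi)
  refine ⟨K, G (C + 1) v', s', s, l, z', w', u', ⟨h1, h2⟩, ?_, ?_, ?_, fun i hi => ?_⟩
  · rw [hz 0 (by omega), hz0]
  · rw [hz l (by omega), hzl]
  · have hv' : Val d (C + 1) v' := Gd.val H ⟨s', s, h1, h2, n, hn, h3⟩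
    have := hG.mk_three (x := 0) hv'
    rwa [h4] at this
  · obtain ⟨h5, h6, h7, h8, h9, h10, h11⟩ := hul i hi
    rw [hw i hi, hu' i hi, hz i (by omega), hz (i + 1) (by omega)]
    refine ⟨⟨h5, ⟨by omega, ?_, h7, h8, h9⟩, h10, h11⟩, (hzs i hi).2⟩
    rw [h6, Nat.add_sub_cancel]
    exact nod_pf (hkK i hi)

include hS hg hp L hG H hy in
/-- a coherent family whose base points are computable relative to the path -/
theorem exists_xflow (hd : DtC d) (hBc : IsComp B) :
    ∃ F : ℕ → Gm, Flw d F ∧ RecT {(p : ℕ →. ℕ)} fun c => G c (F c) := by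
  let Nx : ℕ → ℕ → ℕ → ℕ → Prop := fun c x q σ => Sx d g e m0 B (m0 + c) x σ q.unpair.2.unpair.1
    q.unpair.2.unpair.2.unpair.1 q.unpair.2.unpair.2.unpair.2.unpair.1
    q.unpair.2.unpair.2.unpair.2.unpair.2.unpair.1
    q.unpair.2.unpair.2.unpair.2.unpair.2.unpair.2.unpair.1
    q.unpair.2.unpair.2.unpair.2.unpair.2.unpair.2.unpair.2.unpair.1
    q.unpair.2.unpair.2.unpair.2.unpair.2.unpair.2.unpair.2.unpair.2
  have hNx : ComputablePred fun v : ℕ × ℕ × ℕ × ℕ => Nx v.1 v.2.1 v.2.2.1 v.2.2.2 := by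
    have q : Computable fun v : ℕ × ℕ × ℕ × ℕ => v.2.2.1 := c_fst (c_snd (c_snd c_id))
    have q1 := c_up2 q
    have q2 := c_up2 q1
    have q3 := c_up2 q2
    have q4 := c_up2 q3
    have q5 := c_up2 q4
    have q6 := c_up2 q5
    exact p_Sx hd hBc g e m0 (c_add (c_const m0) (c_fst c_id)) (c_fst (c_snd c_id))
      (c_snd (c_snd (c_snd c_id))) (c_up1 q1) (c_up1 q2) (c_up1 q3) (c_up1 q4) (c_up1 q5)
      (c_up1 q6) (c_up2 q6)
  obtain ⟨w0, hw0⟩ : ∃ w0, Gd d g p e m0 (yt hG e) m0 w0 := by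
    obtain ⟨a, ha1, ha2⟩ := H.inf m0
    obtain ⟨b, hb1, hb2⟩ := H.inf (a + 1)
    obtain ⟨a', h1, h2⟩ := exists_pv ha2 hb2 (by omega)
    exact ⟨_, a', b, h1, by omega, 1, one_mem _, rfl⟩
  obtain ⟨X, hX, hX0, hXs⟩ := xsearch (p := p) hNx (val := fun q => q.unpair.2.unpair.1)
    (c_up1 (c_up2 c_id)) (fun c x => ∃ v, Gd d g p e m0 (yt hG e) (m0 + c) v ∧
      G (m0 + c) v = x) (G m0 w0) ⟨w0, hw0, rfl⟩ (by
      rintro c x q _ h
      exact sx_sound hG H hy h) (by
      rintro c x ⟨v, hv, rfl⟩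
      obtain ⟨K, y, s', s, l, z, w, u, h⟩ := sx_complete hS hg hp L hG H hy hv
      refine ⟨Nat.pair K (Nat.pair y (Nat.pair s' (Nat.pair s (Nat.pair l
        (Nat.pair z (Nat.pair w u)))))), ?_⟩
      show Sx d g e m0 B (m0 + c) _ _ _ _ _ _ _ _ _
      simp only [Nat.unpair_pair]
      exact h)
  choose F' hF' hGF using fun k => (hXs k).1
  have hval : ∀ k, Val d (m0 + k) (F' k) := fun k => Gd.val H (hF' k)
  have hfold : ∀ k, fold d (m0 + k) (F' (k + 1)) = F' k := by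
    intro k
    obtain ⟨q, h1, h2⟩ := (hXs k).2
    have h3 : B (Nat.pair 3 0) q.unpair.2.unpair.1 (X k) := h1.2.2.2.1
    have h4 : X (k + 1) = q.unpair.2.unpair.1 := h2
    rw [← h4, ← hGF (k + 1), ← hGF k] at h3
    have h5 : Val d (m0 + k + 1) (F' (k + 1)) := hval (k + 1)
    have h6 := hG.three (c := m0 + k) h5 h3
    exact ((hG.inj _ _ _ _ (hval k) (h5.fold' (Nat.le_succ _)) h6).2).symm
  let F : ℕ → Gm := fun c => if m0 ≤ c then F' (c - m0) else fold d c (F' 0)
  have hFge : ∀ c, m0 ≤ c → F c = F' (c - m0) := fun c hc => if_pos hc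
  have hFlt : ∀ c, c < m0 → F c = fold d c (F' 0) := fun c hc => if_neg (by omega)
  have hv0 : Val d m0 (F' 0) := hval 0
  have hFl : Flw d F := by
    refine ⟨fun c => ?_, fun c => ?_⟩
    · by_cases hc : m0 ≤ c
      · rw [hFge c hc]
        have := hval (c - m0)
        rwa [show m0 + (c - m0) = c by omega] at this
      · rw [hFlt c (by omega)]
        exact hv0.fold' (by omega)
    · by_cases hc : m0 ≤ c
      · rw [hFge c hc, hFge (c + 1) (by omega), show c + 1 - m0 = c - m0 + 1 by omega]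
        have := hfold (c - m0)
        rwa [show m0 + (c - m0) = c by omega] at this
      · rw [hFlt c (by omega)]
        by_cases hc1 : c + 1 = m0
        · rw [hFge (c + 1) (by omega), show c + 1 - m0 = 0 by omega]
        · rw [hFlt (c + 1) (by omega)]
          exact fold_fold hS.pt (Nat.le_succ c) (show c + 1 ≤ m0 by omega) hv0
  refine ⟨F, hFl, ?_⟩
  obtain ⟨tb, htb⟩ := exists_ent m0 fun c => G c (F c)
  let Hf : ℕ → ℕ := fun v => if m0 ≤ v.unpair.1 then v.unpair.2 else ent tb v.unpair.1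
  have hHf : Computable Hf := c_ite (p_le (c_const m0) (c_up1 c_id)) (c_up2 c_id)
    (c_ent (c_const tb) (c_up1 c_id))
  have h1 := (Pool.Agent.Helper743.Computable.recT (O := {(p : ℕ →. ℕ)}) hHf).comp
    (RecT.pair (Pool.Agent.Helper743.Computable.recT (c_id (α := ℕ)))
      (hX.comp (Pool.Agent.Helper743.Computable.recT (c_sub (c_id (α := ℕ)) (c_const m0)))))
  have h2 : (fun n : ℕ => Hf (Nat.pair n (X (n - m0)))) = fun c => G c (F c) := by
    funext c
    show (if m0 ≤ (Nat.pair c (X (c - m0))).unpair.1 then (Nat.pair c (X (c - m0))).unpair.2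
      else ent tb (Nat.pair c (X (c - m0))).unpair.1) = _
    rw [Nat.unpair_pair]
    show (if m0 ≤ c then X (c - m0) else ent tb c) = _
    by_cases hc : m0 ≤ c
    · rw [if_pos hc, hFge c hc, ← hGF (c - m0), show m0 + (c - m0) = c by omega]
    · rw [if_neg hc, htb c (by omega)]
  rw [← h2]
  exact h1

end

/-- every computable copy is isomorphic to one of the structures relative to the path -/
theorem copiesX (hT : ComputablePred T) (hp : ∀ k, T (nod p k)) {j : Fin (κ + 1)} {B : Str}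
    (hB : IsCopy (As (con T) j) B) : ∃ i : Fin (κ + 1), ∃ f : ℕ ≃ ℕ,
      IsIso (As (con T) i) B f ∧ RecT {(p : ℕ →. ℕ)} fun n => f n := by
  obtain ⟨hBc, f, hf⟩ := hB
  have hS := con_spec T
  have hd := con_comp hT
  have hG := ci_of_iso hf
  obtain ⟨c, hc⟩ : ∃ c : Code, ∀ a, (fun a : ℕ => B a.unpair.1 a.unpair.2.unpair.1
      a.unpair.2.unpair.2) a ↔ (Code.eval c (encode a)).Dom := by
    refine sigma1_code (ComputablePred.sigma ?_)
    exact computablePred_comp (P := fun q : ℕ × ℕ × ℕ => B q.1 q.2.1 q.2.2) hBc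
      (c_pair (c_up1 c_id) (c_pair (c_up1 (c_up2 c_id)) (c_up2 (c_up2 c_id))))
  set e := encode c with he
  have hBe : ∀ i x y, B i x y ↔
      (Code.eval (ofNat Code e) (Nat.pair i (Nat.pair x y))).Dom := by
    intro i x y
    have := hc (Nat.pair i (Nat.pair x y))
    simp only [Nat.unpair_pair, Encodable.encode_nat] at this
    rw [this, he, ofNat_encode]
  obtain ⟨g, hg⟩ := exists_tp (d := (con T).toDat) hS.O_le
  have hone : g e = 1 := by
    obtain ⟨N, hN⟩ := hg.left e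
    obtain ⟨s, h1, h2⟩ := inf_resp' (N := 0) hS hG hBe hg N
    have h3 := hN s h1 h2.2.1
    obtain ⟨t, _, h4⟩ := hg.inf (e + 1) 0
    have h5 := h4 e (by omega)
    have h6 := hS.O_cases t e
    have h7 := h2.2.2
    have h8 : (con T).toDat.O t e = g e := h5
    have h9 : (con T).toDat.O s e = 1 := h7
    omega
  obtain ⟨N, hN⟩ := hg.stable (e + 1)
  obtain ⟨M, hM⟩ := bl_bounds hS (e + 1)
  have L : Lrg (con T) g e (N + M) :=
    ⟨fun s hs i hi hv => hN s (by omega) i hi hv, fun j hj s v h1 h2 => by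
      have := hM j hj s v h1 h2
      omega, hone⟩
  obtain ⟨H, hy⟩ := exists_rsp' (N := N + M) hS hG hBe hg
    (fun s hs i hi hv => hN s (by omega) i (by omega) hv)
  obtain ⟨F, hF, hZ⟩ := exists_xflow hS hg hp L hG H hy hd hBc
  refine ⟨j - Multiplicative.toAdd (dg κ (F 0)), ?_⟩
  have hG' := hG.shift hF (i := j - Multiplicative.toAdd (dg κ (F 0))) (sub_add_cancel _ _)
  obtain ⟨f', h1, h2⟩ := hG'.toIso
  refine ⟨f', h1, ?_⟩
  have h3 := walkX hd hBc hG hF hZ
  have h4 : (fun n => f' n) = fun n => (fun c w => f (em (con T) c w)) (ec (con T) n)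
      (F (ec (con T) n) * ew (con T) n) := funext h2
  rw [h4]
  exact h3

end Pool.Agent.H668.Low
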