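import Mathlib
import Pool.Agent.H668.Low.Upper

set_option autoImplicit false

/-! Coherent families and isomorphisms between the structures. -/

namespace Pool.Agent.H668.Low

open Encodable Denumerable Nat.Partrec Pool.Agent.Helper941 Pool.Agent.Helper941.IsoProb
open Pool.Agent.Helper941.Zeta
open Pool.Agent.Helper743 (TR RecT pre recT_pre cert pre_length pre_getElem?)
open Pool.Agent.Helper941.Dim hiding entry row row_zero row_succ row_length row_get nxt hist
  hist_succ hist_length hist_get hh getc_hist con c_entry c_row c_nxt c_hist c_hh con_O con_C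
  con_J con_pa hh_row con_ent con_ent' getc_ext getc_ext' entry_eq deq_con con_spec
  el idx el_valid idx_el el_idx c_idx c_el As as_comp

variable {d : Dt} {T : ℕ → Prop} {g p : ℕ → ℕ} {κ : ℕ}

/-! ### the base nodes -/

/-- the base nodes form a chain computable relative to the path -/
theorem exists_base (hS : Spec T d) (hd : DtC d) (hg : TP d.toDat g)
    (hp : ∀ k, T (nod p k)) : ∃ v : ℕ → ℕ, RecT {(p : ℕ →. ℕ)} v ∧
      (∀ k, d.J (v k) = nod p k + 1 ∧ d.N (v k) = 0) ∧ ∀ k, d.pa (v (k + 1)) = v k := by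
  let Nx : ℕ → ℕ → ℕ → ℕ → Prop := fun c x q σ => d.pa q.unpair.2 = x ∧
    ¬ d.J q.unpair.2 = 0 ∧ Pf (d.J q.unpair.2 - 1) σ ∧ len (d.J q.unpair.2 - 1) = c + 1 ∧
    d.N q.unpair.2 = 0
  have hNx : ComputablePred fun v : ℕ × ℕ × ℕ × ℕ => Nx v.1 v.2.1 v.2.2.1 v.2.2.2 := by
    have q : Computable fun v : ℕ × ℕ × ℕ × ℕ => v.2.2.1.unpair.2 :=
      c_up2 (c_fst (c_snd (c_snd c_id)))
    have hJ : Computable fun v : ℕ × ℕ × ℕ × ℕ => d.J v.2.2.1.unpair.2 - 1 :=
      c_sub (hd.J.comp q) (c_const 1)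
    exact p_and (p_eq (hd.pa.comp q) (c_fst (c_snd c_id))) (p_and
      (p_not (p_eq (hd.J.comp q) (c_const 0))) (p_and (p_Pf hJ (c_snd (c_snd (c_snd c_id))))
      (p_and (p_eq (c_lenj hJ) (c_succ (c_fst c_id))) (p_eq (hd.N.comp q) (c_const 0)))))
  obtain ⟨X, hX, hX0, hXs⟩ := xsearch (p := p) hNx (val := fun q => q.unpair.2)
    (c_up2 c_id) (fun c x => d.J x = nod p c + 1 ∧ d.N x = 0) 0
    ⟨by rw [hS.zero.1, nod_zero], hS.zero.2.2⟩ (by
      rintro c x q _ ⟨_, h2, h3, h4, h5⟩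
      refine ⟨?_, h5⟩
      have h6 := pf_nod h3
      rw [h4] at h6
      show d.J q.unpair.2 = _
      omega) (by
      rintro c x ⟨h1, h2⟩
      obtain ⟨u, h3, h4, h5, _⟩ := born hS hg (v := x) (j := nod p (c + 1)) (n := 0)
        (by omega) 0 (fun s _ _ j' hj' _ => by omega) (fun s _ _ _ => Or.inl
          ⟨nod_pos p c, hp _, by rw [prn_nod, h1], h2, fun i hi => by omega⟩)
      refine ⟨Nat.pair (c + 1) u, ?_⟩
      show d.pa (Nat.pair (c + 1) u).unpair.2 = x ∧ ¬ d.J (Nat.pair (c + 1) u).unpair.2 = 0 ∧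
        Pf (d.J (Nat.pair (c + 1) u).unpair.2 - 1) (nod p (Nat.pair (c + 1) u).unpair.1) ∧
        len (d.J (Nat.pair (c + 1) u).unpair.2 - 1) = c + 1 ∧
        d.N (Nat.pair (c + 1) u).unpair.2 = 0
      rw [Nat.unpair_pair]
      show d.pa u = x ∧ ¬ d.J u = 0 ∧ Pf (d.J u - 1) (nod p (c + 1)) ∧
        len (d.J u - 1) = c + 1 ∧ d.N u = 0
      rw [h4, Nat.add_sub_cancel, len_nod]
      exact ⟨h3, by omega, nod_pf (le_refl _), rfl, h5⟩)
  refine ⟨X, hX, fun k => (hXs k).1, fun k => ?_⟩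
  obtain ⟨q, h1, h2⟩ := (hXs k).2
  rw [h2]
  exact h1.1

theorem cwd_of (l : ℕ) : cwd (FreeGroup.of l : Gm).toWord = Nat.pair (2 * l + 1) 0 + 1 := by
  rw [FreeGroup.toWord_of]
  rfl

/-- the flow along the base nodes -/
theorem exists_bflow (hS : Spec T d) (hd : DtC d) (hg : TP d.toDat g)
    (hp : ∀ k, T (nod p k)) : ∃ q : ℕ → ℕ, (∀ c, Lam d c (q c)) ∧
      Flw d (fun c => FreeGroup.of (q c)) ∧
      RecT {(p : ℕ →. ℕ)} fun c => em d c (FreeGroup.of (q c)) := by
  obtain ⟨v, hv, hJN, hpa⟩ := exists_base hS hd hg hp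
  have hlt : ∀ k, v k < v (k + 1) := by
    intro k
    have h1 : 1 ≤ v (k + 1) := by
      by_contra hc
      have h2 : v (k + 1) = 0 := by omega
      have h3 := (hJN (k + 1)).1
      rw [h2, hS.zero.1] at h3
      have := nod_pos p k
      omega
    have h2 := hS.pt.lt _ h1
    rwa [hpa] at h2
  have hge : ∀ k, k ≤ v k := by
    intro k
    induction k with
    | zero => exact Nat.zero_le _
    | succ k ih => have := hlt k; omega
  let l : ℕ → ℕ := fun c => Nat.pair (v (c + 1)) 0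
  have hl1 : ∀ c, (l c).unpair.1 = v (c + 1) := fun c => by
    show (Nat.pair _ _).unpair.1 = _
    rw [Nat.unpair_pair]
  have hW : ∀ c, W d c (l c) := by
    intro c
    unfold W
    rw [hl1]
    have h1 := (hJN (c + 1)).1
    have h2 := hge (c + 1)
    refine ⟨by omega, by omega, fun i hi => ?_⟩
    rw [(hJN (c + 1)).2] at hi
    omega
  have hE : ∀ c, E d c (l (c + 1)) (l c) := by
    intro c
    unfold E
    rw [hl1, hl1]
    have h2 := hge (c + 1)
    exact anc_desc hS.pt.lt hS.pt.zero ⟨1, hpa (c + 1)⟩ (by omega)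
  let q : ℕ → ℕ := fun c => rep d c (l c)
  have hq : ∀ c, Lam d c (q c) := fun c => rep_Lam (hW c)
  refine ⟨q, hq, ⟨fun c => Val.of (hq c), fun c => ?_⟩, ?_⟩
  · rw [fold_of]
    show FreeGroup.of (rep d c (rep d (c + 1) (l (c + 1)))) = FreeGroup.of (rep d c (l c))
    rw [rep_rep hS.pt (hW (c + 1)) (Nat.le_succ c),
      rep_eq ((hW (c + 1)).mono (Nat.le_succ c)) (hW c) (hE c)]
  · let Hf : ℕ → ℕ := fun z => idx d (Nat.pair z.unpair.1
      (Nat.pair (2 * rep d z.unpair.1 (Nat.pair z.unpair.2 0) + 1) 0 + 1))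
    have hHf : Computable Hf := by
      have a1 : Computable fun z : ℕ => z.unpair.1 := c_up1 c_id
      have a2 : Computable fun z : ℕ => z.unpair.2 := c_up2 c_id
      refine (c_idx hd).comp (c_npair a1 (c_succ (c_npair (c_succ ?_) (c_const 0))))
      have h1 : Computable fun z : ℕ => rep d z.unpair.1 (Nat.pair z.unpair.2 0) :=
        d_rep hd a1 (c_npair a2 (c_const 0))
      refine (c_add h1 h1).of_eq fun z => ?_
      show _ + _ = 2 * _
      omega
    have h1 := (Pool.Agent.Helper743.Computable.recT (O := {(p : ℕ →. ℕ)}) hHf).comp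
      (RecT.pair (Pool.Agent.Helper743.Computable.recT (c_id (α := ℕ)))
        (hv.comp (Pool.Agent.Helper743.Computable.recT (c_succ (c_id (α := ℕ))))))
    have h2 : (fun n : ℕ => Hf (Nat.pair n (v (n + 1)))) =
        fun c => em d c (FreeGroup.of (q c)) := by
      funext c
      show idx d _ = idx d (Nat.pair c (cwd (FreeGroup.of (q c) : Gm).toWord))
      rw [Nat.unpair_pair, cwd_of]
    rw [← h2]
    exact h1

/-! ### isomorphisms between the structures -/

theorem ci_self (d : Dt) (i : Fin (κ + 1)) : CI d i (As d i) (em d) where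
  rel := fun sy c w c' w' hw hw' => by
    show _ ↔ RelG d i sy _ _ _ _
    rw [ec_em hw, ew_em hw, ec_em hw', ew_em hw']
  inj := fun c w c' w' hw hw' e =>
    ⟨by rw [← ec_em hw, ← ec_em hw', e], by rw [← ew_em hw, ← ew_em hw', e]⟩
  surj := fun z => ⟨ec d z, ew d z, e_val d z, em_ec d z⟩

/-- the structures are isomorphic relative to the path -/
theorem as_isoX (hS : Spec T d) (hd : DtC d) (hg : TP d.toDat g) (hp : ∀ k, T (nod p k))
    (i : Fin (κ + 1)) : ∃ f : ℕ ≃ ℕ, IsIso (As d i) (As d (i + 1)) f ∧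
      RecT {(p : ℕ →. ℕ)} fun n => f n := by
  obtain ⟨q, _, hq, hr⟩ := exists_bflow hS hd hg hp
  have h1 := (ci_self d (i + 1)).shift hq (i := i) (by rw [dg_of, toAdd_ofAdd])
  obtain ⟨f, hf, h2⟩ := h1.toIso
  refine ⟨f, hf, ?_⟩
  have h3 := walkX hd (as_comp hd (i + 1)) (ci_self d (i + 1)) hq hr
  have h4 : (fun n => f n) = fun n => em d (ec d n)
      (FreeGroup.of (q (ec d n)) * ew d n) := funext h2
  rw [h4]
  exact h3

theorem dg_pow (l n : ℕ) :
    Multiplicative.toAdd (dg κ (FreeGroup.of l ^ n)) = n • (1 : Fin (κ + 1)) := by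
  rw [map_pow, dg_of, toAdd_pow, toAdd_ofAdd]

/-- every isomorphism between the structures is given by a coherent family -/
theorem iso_flow (hS : Spec T d) (hd : DtC d) (hg : TP d.toDat g) (hp : ∀ k, T (nod p k))
    {i j : Fin (κ + 1)}
    {f : ℕ ≃ ℕ} (hf : IsIso (As d i) (As d j) f) : Flw d (fun c => ew d (f (em d c 1))) ∧
      ∀ c, i + Multiplicative.toAdd (dg κ (ew d (f (em d c 1)))) = j := by
  have hG := ci_of_iso hf
  set G : ℕ → Gm → ℕ := fun c w => f (em d c w) with hGd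
  have hself := ci_self d j
  have hec : ∀ c w, Val d c w → ec d (G c w) = c := by
    intro c w hw
    have h1 := hG.mk_one hw
    have h2 : RelG d j (Nat.pair 1 c) (ec d (G c w)) (ew d (G c w)) (ec d (G c w))
      (ew d (G c w)) := h1
    exact (relG_one.1 h2).2.2
  have hmul : ∀ c n, n ∈ Sb (Lam d c) → ∀ w, Val d c w →
      ew d (G c (w * n)) = ew d (G c w) * n := by
    intro c n hn
    refine Sb_ind (p := fun n => ∀ w, Val d c w → ew d (G c (w * n)) = ew d (G c w) * n)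
      ?_ ?_ ?_ ?_ hn
    · intro l hl w hw
      have h1 := hG.mk_two hw hl
      have h2 : RelG d j (Nat.pair 2 l) (ec d (G c w)) (ew d (G c w))
        (ec d (G c (w * FreeGroup.of l))) (ew d (G c (w * FreeGroup.of l))) := h1
      exact (relG_two.1 h2).2.2
    · intro w _
      rw [mul_one, mul_one]
    · intro x y hx _ h1 h2 w hw
      rw [← mul_assoc, h2 _ (hw.mul hx), h1 w hw, mul_assoc]
    · intro x hx h1 w hw
      have h2 := h1 (w * x⁻¹) (hw.mul (inv_mem hx))
      rw [inv_mul_cancel_right] at h2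
      rw [h2, mul_inv_cancel_right]
  let t : ℕ → Gm := fun c => ew d (G c 1)
  have ht : ∀ c w, Val d c w → ew d (G c w) = t c * w := by
    intro c w hw
    have := hmul c w hw 1 (Val.one d c)
    rwa [one_mul] at this
  have htv : ∀ c, Val d c (t c) := by
    intro c
    have h1 := e_val d (G c 1)
    rwa [hec c 1 (Val.one d c)] at h1
  have hfl : Flw d t := by
    refine ⟨htv, fun c => ?_⟩
    have h1 := hG.mk_three (x := 0) (Val.one d (c + 1))
    rw [fold_one] at h1
    have h2 : RelG d j (Nat.pair 3 0) (ec d (G (c + 1) 1)) (ew d (G (c + 1) 1))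
      (ec d (G c 1)) (ew d (G c 1)) := h1
    have h3 := (relG_three.1 h2).2
    rw [hec c 1 (Val.one d c)] at h3
    exact h3.symm
  obtain ⟨q, hq1, _⟩ := exists_bflow hS hd hg hp
  have h0 : i + Multiplicative.toAdd (dg κ (t 0)) = j := by
    set w : Gm := FreeGroup.of (q 0) ^ i.val with hw
    have hwv : Val d 0 w := pow_mem (of_mem (hq1 0)) _
    have hdw : dg κ w = Multiplicative.ofAdd i := by
      apply Multiplicative.toAdd.injective
      rw [hw, dg_pow, nsmul_one_fin _ i.isLt, toAdd_ofAdd]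
    have h1 : RelG d i (Nat.pair 0 0) 0 w 0 w := relG_zero.2 ⟨rfl, rfl, rfl, hdw⟩
    have h2 := (hG.rel _ _ _ _ _ hwv hwv).1 h1
    have h3 : RelG d j (Nat.pair 0 0) (ec d (G 0 w)) (ew d (G 0 w)) (ec d (G 0 w))
      (ew d (G 0 w)) := h2
    have h4 := (relG_zero.1 h3).2.2.2
    rw [ht 0 w hwv, map_mul, hdw] at h4
    have h5 := congrArg Multiplicative.toAdd h4
    rw [toAdd_mul, toAdd_ofAdd, toAdd_ofAdd] at h5
    exact (add_comm i _).trans h5
  have hdc : ∀ c, dg κ (t c) = dg κ (t 0) := by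
    intro c
    induction c with
    | zero => rfl
    | succ c ih => rw [← ih, ← hfl.fold c, dg_fold]
  exact ⟨hfl, fun c => by
    show i + Multiplicative.toAdd (dg κ (t c)) = j
    rw [hdc]; exact h0⟩

theorem supp_ew (d : Dt) (n l : ℕ) :
    supp (ew d n) l ↔ ¬ ∀ x ∈ lw (el d n).unpair.2, ¬ x.1 = l := by
  unfold supp ew wd
  rw [FreeGroup.toWord_mk, (el_vd d n).1]
  push Not
  constructor
  · rintro ⟨b, hb⟩
    exact ⟨(l, b), hb, rfl⟩
  · rintro ⟨⟨a, b⟩, h1, h2⟩
    have : a = l := h2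
    subst this
    exact ⟨b, h1⟩

theorem one_of_no_supp {w : Gm} (h : ∀ l, ¬ supp w l) : w = 1 := by
  have h1 : w.toWord = [] := by
    by_contra hc
    obtain ⟨x, hx⟩ := List.exists_mem_of_ne_nil _ hc
    exact h x.1 ⟨x.2, hx⟩
  exact FreeGroup.toWord_eq_nil_iff.1 h1

/-- the letters of a computable coherent family give a computable chain of nodes -/
theorem comp_chain (hS : Spec T d) (hd : DtC d) {t : ℕ → Gm} (hF : Flw d t)
    (hsc : ComputablePred fun z : ℕ × ℕ => supp (t z.1) z.2) {l0 : ℕ} (hl0 : supp (t 0) l0) :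
    ∃ a : ℕ → ℕ, Computable a ∧ (∀ k, k < a k) ∧ (∀ k, An d.pa (a (k + 1)) (a k)) ∧
      ∀ k, ¬ d.J (a k) = 0 := by
  have hpt := hS.pt
  -- the computable sequence of the letters
  let R : ℕ × ℕ → ℕ → Prop := fun z m => ¬ supp (t z.1) z.2 ∨
    (supp (t (z.1 + 1)) m ∧ rep d z.1 m = z.2)
  have hR : ComputablePred fun z : (ℕ × ℕ) × ℕ => R z.1 z.2 := by
    have a1 : Computable fun z : (ℕ × ℕ) × ℕ => z.1.1 := c_fst (c_fst c_id)
    have a2 : Computable fun z : (ℕ × ℕ) × ℕ => z.1.2 := c_snd (c_fst c_id)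
    have h1 : ComputablePred fun z : (ℕ × ℕ) × ℕ => supp (t z.1.1) z.1.2 :=
      computablePred_comp (P := fun z : ℕ × ℕ => supp (t z.1) z.2) hsc
        (f := fun z : (ℕ × ℕ) × ℕ => (z.1.1, z.1.2)) (c_pair a1 a2)
    have a3 : Computable fun z : (ℕ × ℕ) × ℕ => z.2 := c_snd c_id
    have a4 : Computable fun z : (ℕ × ℕ) × ℕ => z.1.1 + 1 := c_succ a1
    have h2 : ComputablePred fun z : (ℕ × ℕ) × ℕ => supp (t (z.1.1 + 1)) z.2 :=
      computablePred_comp (P := fun z : ℕ × ℕ => supp (t z.1) z.2) hsc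
        (f := fun z : (ℕ × ℕ) × ℕ => (z.1.1 + 1, z.2)) (c_pair a4 a3)
    have h4 : Computable fun z : (ℕ × ℕ) × ℕ => rep d z.1.1 z.2 := d_rep hd a1 a3
    have h3 : ComputablePred fun z : (ℕ × ℕ) × ℕ => rep d z.1.1 z.2 = z.1.2 := p_eq h4 a2
    exact p_or (p_not h1) (p_and h2 h3)
  have hRex : ∀ z, ∃ m, R z m := by
    rintro ⟨c, x⟩
    by_cases h : supp (t c) x
    · have h1 := h
      rw [← hF.fold c] at h1
      obtain ⟨m, h2, h3⟩ := supp_map h1
      exact ⟨m, Or.inr ⟨h2, h3⟩⟩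
    · exact ⟨0, Or.inl h⟩
  obtain ⟨nx, hnx, hnxs⟩ : ∃ nx : ℕ × ℕ → ℕ, Computable nx ∧ ∀ z, R z (nx z) :=
    ⟨fun z => sInf {m | R z m}, c_least hR hRex, fun z =>
      Nat.sInf_mem (s := {m | R z m}) (hRex z)⟩
  let lam : ℕ → ℕ := fun k => Nat.rec l0 (fun c x => nx (c, x)) k
  have hlamc : Computable lam := by
    refine Computable.nat_rec (f := fun k : ℕ => k) (g := fun _ => l0)
      (h := fun (_ : ℕ) (q : ℕ × ℕ) => nx (q.1, q.2)) Computable.id
      (Computable.const _) ?_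
    exact hnx.comp (c_pair (c_fst (c_snd c_id)) (c_snd (c_snd c_id)))
  have hlamS : ∀ k, lam (k + 1) = nx (k, lam k) := fun k => rfl
  have hlam : ∀ k, supp (t k) (lam k) := by
    intro k
    induction k with
    | zero => exact hl0
    | succ k ih =>
      have h1 : R (k, lam k) (lam (k + 1)) := by
        rw [hlamS]
        exact hnxs _
      rcases h1 with h1 | h1
      · exact (h1 ih).elim
      · exact h1.1
  have hrep : ∀ k, rep d k (lam (k + 1)) = lam k := by
    intro k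
    have h1 : R (k, lam k) (lam (k + 1)) := by
      rw [hlamS]
      exact hnxs _
    rcases h1 with h1 | h1
    · exact (h1 (hlam k)).elim
    · exact h1.2
  have hLam : ∀ k, Lam d k (lam k) := fun k => supp_of_mem (hF.val _) (hlam k)
  have hE : ∀ k, E d k (lam (k + 1)) (lam k) := by
    intro k
    have h1 := (rep_W ((hLam (k + 1)).1.mono (show k ≤ k + 1 by omega))).2
    rwa [hrep] at h1
  have hsp : ∀ k, k < anc d.pa k (lam k).unpair.1 ∧
      An d.pa (lam k).unpair.1 (anc d.pa k (lam k).unpair.1) := fun k => by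
    obtain ⟨h1, _, h2⟩ := anc_spec hpt.lt (hLam k).1.2.1
    exact ⟨h1, h2⟩
  refine ⟨fun k => anc d.pa k (lam k).unpair.1, d_anc hd c_id (c_up1 hlamc), fun k =>
    (hsp k).1, fun k => ?_, fun k => hS.node_an (hLam k).1.1 (hsp k).2⟩
  have h0 : anc d.pa k (anc d.pa (k + 1) (lam (k + 1)).unpair.1) =
      anc d.pa k (lam k).unpair.1 := by
    rw [anc_anc hpt.lt hpt.zero (Nat.le_succ k) (hLam (k + 1)).1.2.1]
    exact hE k
  have h1 := (anc_spec hpt.lt (show k < anc d.pa (k + 1) (lam (k + 1)).unpair.1 by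
    have := (hsp (k + 1)).1; omega)).2.2
  rw [h0] at h1
  exact h1

/-- computable structures have an index -/
theorem exists_index {B : Str} (hB : IsComp B) : ∃ e, ∀ i x y, B i x y ↔
    (Code.eval (ofNat Code e) (Nat.pair i (Nat.pair x y))).Dom := by
  obtain ⟨c, hc⟩ : ∃ c : Code, ∀ a, (fun a : ℕ => B a.unpair.1 a.unpair.2.unpair.1
      a.unpair.2.unpair.2) a ↔ (Code.eval c (encode a)).Dom := by
    refine sigma1_code (ComputablePred.sigma ?_)
    exact computablePred_comp (P := fun q : ℕ × ℕ × ℕ => B q.1 q.2.1 q.2.2) hB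
      (c_pair (c_up1 c_id) (c_pair (c_up1 (c_up2 c_id)) (c_up2 (c_up2 c_id))))
  refine ⟨encode c, fun i x y => ?_⟩
  have := hc (Nat.pair i (Nat.pair x y))
  simp only [Nat.unpair_pair, Encodable.encode_nat] at this
  rw [this, ofNat_encode]

/-- there is no computable chain of nodes -/
theorem no_comp_chain (hS : Spec T d) (hd : DtC d) (hT : TH T prn)
    (hNC : ∀ f : ℕ → ℕ, Computable f → ¬ ∀ k, T (nod f k)) {a : ℕ → ℕ}
    (hac : Computable a) (hlt : ∀ k, k < a k) (hA : ∀ k, An d.pa (a (k + 1)) (a k))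
    (hJ : ∀ k, ¬ d.J (a k) = 0) : False := by
  have hpt := hS.pt
  have hA' : ∀ k l, k ≤ l → An d.pa (a l) (a k) := by
    intro k l hkl
    induction l, hkl using Nat.le_induction with
    | base => exact An.refl _
    | succ l _ ih => exact (hA l).trans ih
  let B : Str := fun i x y => i = 0 ∧ x = y ∧ ∃ c < x, x = a c
  have hB : IsComp B := by
    have h1 : Computable fun q : ℕ × ℕ × ℕ => q.1 := c_fst c_id
    have h2 : Computable fun q : ℕ × ℕ × ℕ => q.2.1 := c_fst (c_snd c_id)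
    have h3 : Computable fun q : ℕ × ℕ × ℕ => q.2.2 := c_snd (c_snd c_id)
    have h4 : Computable fun z : (ℕ × ℕ × ℕ) × ℕ => a z.2 := hac.comp (c_snd c_id)
    have h5 : Computable fun z : (ℕ × ℕ × ℕ) × ℕ => z.1.2.1 := c_l h2
    have h6 : ComputablePred fun q : ℕ × ℕ × ℕ => ∃ c < q.2.1, q.2.1 = a c :=
      p_bex (P := fun (q : ℕ × ℕ × ℕ) c => q.2.1 = a c) h2 (p_eq h5 h4)
    exact p_and (p_eq h1 (c_const 0)) (p_and (p_eq h2 h3) h6)
  obtain ⟨e, hBe⟩ := exists_index hB
  have hEn : ∀ s x, En e s x → ∃ c, x = a c := by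
    intro s x h
    obtain ⟨_, _, c, _, h1⟩ := fa_sound hBe h
    exact ⟨c, h1⟩
  refine no_chain hS hT hd hNC (j := e) ?_ ?_ ?_
  · intro s y _ x hx h1 h2
    obtain ⟨c1, rfl⟩ := hEn _ _ h1
    obtain ⟨c2, rfl⟩ := hEn _ _ h2
    rw [an_iff hpt]
    rcases Nat.le_total c1 c2 with h | h
    · exact hA' c1 c2 h
    · have h3 := (hA' c2 c1 h).le hpt.le
      have h4 : a c1 = a c2 := by omega
      rw [h4]
      exact An.refl _
  · intro M
    have h1 : B 0 (a M) (a M) := ⟨rfl, rfl, M, hlt M, rfl⟩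
    obtain ⟨S, hS'⟩ := fa_ev hBe h1
    exact ⟨a M, S, le_of_lt (hlt M), hS' S (le_refl S)⟩
  · intro x s h
    obtain ⟨c, rfl⟩ := hEn _ _ h
    exact hJ c

/-- there is no computable isomorphism -/
theorem no_iso (hS : Spec T d) (hd : DtC d) (hg : TP d.toDat g) (hT : TH T prn)
    (hp : ∀ k, T (nod p k)) (hNC : ∀ f : ℕ → ℕ, Computable f → ¬ ∀ k, T (nod f k))
    {i j : Fin (κ + 1)} (hij : i ≠ j) : ¬ CompIso (As d i) (As d j) := by
  rintro ⟨f, hf, hfc⟩
  obtain ⟨hF, hdg⟩ := iso_flow hS hd hg hp hf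
  have hem : Computable fun c => em d c 1 := by
    refine ((c_idx hd).comp (c_npair c_id (c_const 0))).of_eq fun c => ?_
    show idx d (Nat.pair c 0) = idx d (Nat.pair c (cwd (1 : Gm).toWord))
    rw [FreeGroup.toWord_one]
    rfl
  have h1 : Computable fun z : ℕ × ℕ => lw (el d (f (em d z.1 1))).unpair.2 :=
    (c_lel hd).comp (hfc.comp (hem.comp (c_fst c_id)))
  have h2 : ComputablePred fun z : ℕ × ℕ =>
      ¬ ∀ x ∈ lw (el d (f (em d z.1 1))).unpair.2, ¬ x.1 = z.2 :=
    p_not (p_lall (R := fun (z : ℕ × ℕ) l => ¬ l = z.2) h1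
      (p_not (p_eq c_r (c_l (c_snd c_id)))))
  have hsc : ComputablePred fun z : ℕ × ℕ => supp (ew d (f (em d z.1 1))) z.2 :=
    h2.of_eq fun z => (supp_ew d _ _).symm
  obtain ⟨l0, hl0⟩ : ∃ l0, supp (ew d (f (em d 0 1))) l0 := by
    by_contra hc
    push Not at hc
    have h1 := one_of_no_supp hc
    have h2 := hdg 0
    rw [h1, map_one, toAdd_one, add_zero] at h2
    exact hij h2
  obtain ⟨a, h3, h4, h5, h6⟩ := comp_chain hS hd hF hsc hl0
  exact no_comp_chain hS hd hT hNC h3 h4 h5 h6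

end Pool.Agent.H668.Low
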