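import Mathlib
import Pool.Agent.H668.Low.Flow

set_option autoImplicit false

/-! The tree of the finite partial isomorphisms between two structures. -/

namespace Pool.Agent.H668.Low

open Encodable Denumerable Nat.Partrec Pool.Agent.Helper941 Pool.Agent.Helper941.IsoProb
open Pool.Agent.Helper941.Zeta
open Pool.Agent.Helper743 (TR RecT)
open Pool.Agent.Helper941.Dim hiding entry row row_zero row_succ row_length row_get nxt hist
  hist_succ hist_length hist_get hh getc_hist con c_entry c_row c_nxt c_hist c_hh con_O con_C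
  con_J con_pa hh_row con_ent con_ent' getc_ext getc_ext' entry_eq deq_con con_spec
  el idx el_valid idx_el el_idx c_idx c_el As as_comp

/-- the image of the list coded by `q` under the partial map given by `j` -/
def im (j q : ℕ) : List ℕ := (ofNat (List ℕ) q).map fun x => dig j (2 * x)

/-- the node `j` is a finite partial isomorphism together with its inverse -/
def PI (D E : ℕ → List ℕ → Bool) (j : ℕ) : Prop :=
  (∀ i < len j, ∀ k < len j, 2 * i < len j → 2 * k + 1 < len j →
    (dig j (2 * i) = k ↔ dig j (2 * k + 1) = i)) ∧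
  ∀ r < len j, ∀ q < len j, 2 * q < len j → D r (ofNat (List ℕ) q) = E r (im j q)

theorem pr_dig : Primrec fun z : ℕ × ℕ => dig z.1 z.2 := by
  unfold dig len seq ent
  have h1 : Primrec fun z : ℕ × ℕ => (ofNat (List ℕ) z.1) := (Primrec.ofNat (List ℕ)).comp Primrec.fst
  have h2 : Primrec fun z : ℕ × ℕ => (ofNat (List ℕ) z.1).length := Primrec.list_length.comp h1
  exact Primrec.option_getD.comp (Primrec.list_getElem?.comp h1 (Primrec.nat_sub.comp
    (Primrec.nat_sub.comp h2 (Primrec.const 1)) Primrec.snd)) (Primrec.const 0)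

theorem pr_im : Primrec fun z : ℕ × ℕ => im z.1 z.2 := by
  unfold im
  refine Primrec.list_map ((Primrec.ofNat (List ℕ)).comp Primrec.snd) ?_
  have h1 : Primrec fun z : (ℕ × ℕ) × ℕ => 2 * z.2 :=
    Primrec.nat_mul.comp (Primrec.const 2) Primrec.snd
  exact pr_dig.comp ((Primrec.fst.comp Primrec.fst).pair h1)

theorem le_encode (l : List ℕ) : ∀ x ∈ l, x ≤ encode l := by
  induction l with
  | nil => intro x hx; exact (List.not_mem_nil hx).elim
  | cons a l ih =>
    intro x hx
    rw [encode_list_cons]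
    have h1 := Nat.left_le_pair (encode a) (encode l)
    have h2 := Nat.right_le_pair (encode a) (encode l)
    have h3 : encode a = a := rfl
    rcases List.mem_cons.1 hx with h | h
    · omega
    · have := ih x h
      omega

theorem le_of_mem {x q : ℕ} (h : x ∈ ofNat (List ℕ) q) : x ≤ q := by
  have := le_encode _ x h
  rwa [encode_ofNat] at this

theorem im_congr {j j' q : ℕ} (h : ∀ i, i ≤ 2 * q → dig j i = dig j' i) : im j q = im j' q := by
  unfold im
  refine List.map_congr_left fun x hx => ?_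
  have := le_of_mem hx
  exact h _ (by omega)

variable {D E : ℕ → List ℕ → Bool}

theorem pi_th : TH (PI D E) prn where
  zero := by
    have h0 : len 0 = 0 := by
      have := len_nod (fun _ => 0) 0
      rwa [nod_zero] at this
    exact ⟨fun i hi => by omega, fun r hr => by omega⟩
  up := fun j hj h => by
    have h1 := len_prn hj
    have h2 : ∀ i, i < len (prn j) → dig (prn j) i = dig j i := fun i hi => dig_prn hj hi
    refine ⟨fun i hi k hk h3 h4 => ?_, fun r hr q hq h3 => ?_⟩
    · rw [h2 _ h3, h2 _ h4]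
      exact h.1 i (by omega) k (by omega) (by omega) (by omega)
    · rw [im_congr (j := prn j) (j' := j) fun i hi => h2 i (by omega)]
      exact h.2 r (by omega) q (by omega) (by omega)
  lt := fun j hj => prn_lt hj

theorem pi_comp (hD : Computable₂ D) (hE : Computable₂ E) : ComputablePred (PI D E) := by
  have j1 : Computable fun z : (ℕ × ℕ) × ℕ => z.1.1 := c_fst (c_fst c_id)
  have i1 : Computable fun z : (ℕ × ℕ) × ℕ => z.1.2 := c_snd (c_fst c_id)
  have k1 : Computable fun z : (ℕ × ℕ) × ℕ => z.2 := c_snd c_id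
  have tw : ∀ {f : (ℕ × ℕ) × ℕ → ℕ}, Computable f → Computable fun z => 2 * f z := by
    intro f hf
    exact (Primrec.nat_mul.comp (Primrec.const 2) Primrec.id).to_comp.comp hf
  have hl : Computable fun z : (ℕ × ℕ) × ℕ => len z.1.1 := c_lenj j1
  have h1 : ComputablePred fun z : (ℕ × ℕ) × ℕ => 2 * z.1.2 < len z.1.1 → 2 * z.2 + 1 < len z.1.1 →
      (dig z.1.1 (2 * z.1.2) = z.2 ↔ dig z.1.1 (2 * z.2 + 1) = z.1.2) :=
    p_imp (p_lt (tw i1) hl) (p_imp (p_lt (c_succ (tw k1)) hl)
      (p_iff (p_eq (c_dig j1 (tw i1)) k1) (p_eq (c_dig j1 (c_succ (tw k1))) i1)))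
  have hll : Computable fun z : ℕ × ℕ => len z.1 := c_lenj (c_fst c_id)
  have h2 : ComputablePred fun j : ℕ => ∀ i < len j, ∀ k < len j, 2 * i < len j →
      2 * k + 1 < len j → (dig j (2 * i) = k ↔ dig j (2 * k + 1) = i) :=
    p_ball (c_lenj c_id) (P := fun j i => ∀ k < len j, 2 * i < len j →
      2 * k + 1 < len j → (dig j (2 * i) = k ↔ dig j (2 * k + 1) = i))
      (p_ball hll (P := fun (z : ℕ × ℕ) k => 2 * z.2 < len z.1 →
        2 * k + 1 < len z.1 → (dig z.1 (2 * z.2) = k ↔ dig z.1 (2 * k + 1) = z.2)) h1)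
  have hDq : Computable fun z : (ℕ × ℕ) × ℕ => D z.1.2 (ofNat (List ℕ) z.2) :=
    hD.comp i1 ((Computable.ofNat (List ℕ)).comp k1)
  have hEq : Computable fun z : (ℕ × ℕ) × ℕ => E z.1.2 (im z.1.1 z.2) :=
    hE.comp i1 (pr_im.to_comp.comp (j1.pair k1))
  have h3 : ComputablePred fun z : (ℕ × ℕ) × ℕ => 2 * z.2 < len z.1.1 →
      D z.1.2 (ofNat (List ℕ) z.2) = E z.1.2 (im z.1.1 z.2) :=
    p_imp (p_lt (tw k1) hl) (eq_comp hDq hEq)
  have h4 : ComputablePred fun j : ℕ => ∀ r < len j, ∀ q < len j, 2 * q < len j →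
      D r (ofNat (List ℕ) q) = E r (im j q) :=
    p_ball (c_lenj c_id) (P := fun j r => ∀ q < len j, 2 * q < len j →
      D r (ofNat (List ℕ) q) = E r (im j q))
      (p_ball hll (P := fun (z : ℕ × ℕ) q => 2 * q < len z.1 →
      D z.2 (ofNat (List ℕ) q) = E z.2 (im z.1 q)) h3)
  exact p_and h2 h4

/-- a path is an isomorphism -/
theorem pi_path {f : ℕ → ℕ} (h : ∀ k, PI D E (nod f k)) :
    Function.Bijective (fun n => f (2 * n)) ∧
      ∀ r xs, D r xs = E r (xs.map fun n => f (2 * n)) := by
  have h1 : ∀ i k, f (2 * i) = k ↔ f (2 * k + 1) = i := by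
    intro i k
    have h2 := (h (2 * i + 2 * k + 2)).1 i (by rw [len_nod]; omega) k (by rw [len_nod]; omega)
      (by rw [len_nod]; omega) (by rw [len_nod]; omega)
    rwa [dig_nod f (by omega), dig_nod f (by omega)] at h2
  refine ⟨⟨fun a b hab => ?_, fun b => ⟨f (2 * b + 1), (h1 _ _).2 rfl⟩⟩, fun r xs => ?_⟩
  · have h2 := (h1 a _).1 rfl
    have h3 := (h1 b _).1 rfl
    have h4 : f (2 * a) = f (2 * b) := hab
    rw [h4] at h2
    omega
  · set q := encode xs with hq
    have h2 := (h (r + 2 * q + 1)).2 r (by rw [len_nod]; omega) q (by rw [len_nod]; omega)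
      (by rw [len_nod]; omega)
    have h3 : ofNat (List ℕ) q = xs := by rw [hq, ofNat_encode]
    have h4 : im (nod f (r + 2 * q + 1)) q = xs.map fun n => f (2 * n) := by
      unfold im
      rw [h3]
      refine List.map_congr_left fun x hx => ?_
      have h5 := le_encode xs x hx
      rw [← hq] at h5
      exact dig_nod f (by omega)
    rw [h3, h4] at h2
    exact h2

/-- the path given by an isomorphism -/
noncomputable def pth (F : ℕ → ℕ) (G : ℕ → ℕ) (n : ℕ) : ℕ :=
  if n % 2 = 0 then F (n / 2) else G (n / 2)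

theorem pth_even (F G : ℕ → ℕ) (n : ℕ) : pth F G (2 * n) = F n := by
  unfold pth
  rw [if_pos (by omega), show 2 * n / 2 = n by omega]

theorem pth_odd (F G : ℕ → ℕ) (n : ℕ) : pth F G (2 * n + 1) = G n := by
  unfold pth
  rw [if_neg (by omega), show (2 * n + 1) / 2 = n by omega]

theorem pi_of_iso {F G : ℕ → ℕ} (h1 : ∀ n, G (F n) = n) (h2 : ∀ n, F (G n) = n)
    (h3 : ∀ r xs, D r xs = E r (xs.map F)) (k : ℕ) : PI D E (nod (pth F G) k) := by
  refine ⟨fun i hi k' hk h4 h5 => ?_, fun r hr q hq h4 => ?_⟩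
  · rw [len_nod] at h4 h5
    rw [dig_nod _ h4, dig_nod _ h5, pth_even, pth_odd]
    constructor
    · intro h; rw [← h, h1]
    · intro h; rw [← h, h2]
  · rw [len_nod] at h4
    rw [h3]
    congr 1
    unfold im
    refine List.map_congr_left fun x hx => ?_
    have h5 := le_of_mem hx
    rw [dig_nod _ (by omega), pth_even]

theorem pth_rec {O : Set (ℕ →. ℕ)} {F G : ℕ → ℕ} (hF : RecT O F) (h1 : ∀ n, G (F n) = n)
    (h2 : ∀ n, F (G n) = n) : RecT O (pth F G) := by
  classical
  have hG : RecT O G := by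
    have h3 : RecT O fun v : ℕ => if F v.unpair.2 = v.unpair.1 then 0 else 1 := by
      have h4 : Computable fun v : ℕ => (if v.unpair.2 = v.unpair.1 then 0 else 1 : ℕ) :=
        c_ite (p_eq (c_up2 c_id) (c_up1 c_id)) (c_const 0) (c_const 1)
      have h5 := (Pool.Agent.Helper743.Computable.recT (O := O) h4).comp
        (RecT.pair (Pool.Agent.Helper743.Computable.recT (c_up1 c_id))
          (hF.comp (Pool.Agent.Helper743.Computable.recT (c_up2 c_id))))
      have h6 : (fun n : ℕ => (if (Nat.pair n.unpair.1 (F n.unpair.2)).unpair.2 =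
          (Nat.pair n.unpair.1 (F n.unpair.2)).unpair.1 then 0 else 1 : ℕ)) =
          fun v : ℕ => if F v.unpair.2 = v.unpair.1 then 0 else 1 := by
        funext n
        simp only [Nat.unpair_pair]
      rw [h6] at h5
      exact h5
    obtain ⟨fd, h4, h5⟩ := find_rec (P := fun a n => F n = a) h3 fun a => ⟨G a, h2 a⟩
    have h6 : fd = G := by
      funext n
      have := h5 n
      rw [← h1 (fd n), this]
    rw [← h6]
    exact h4
  let Hf : ℕ → ℕ := fun z => if z.unpair.1 % 2 = 0 then z.unpair.2.unpair.1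
    else z.unpair.2.unpair.2
  have hHf : Computable Hf := by
    have h3 : Computable fun z : ℕ => z.unpair.1 % 2 :=
      (Primrec.nat_mod.comp (Primrec.fst.comp Primrec.unpair) (Primrec.const 2)).to_comp
    exact c_ite (p_eq h3 (c_const 0)) (c_up1 (c_up2 c_id)) (c_up2 (c_up2 c_id))
  have hdiv : Computable fun z : ℕ => z / 2 :=
    (Primrec.nat_div.comp Primrec.id (Primrec.const 2)).to_comp
  have h3 := (Pool.Agent.Helper743.Computable.recT (O := O) hHf).comp
    (RecT.pair (Pool.Agent.Helper743.Computable.recT (c_id (α := ℕ)))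
      (RecT.pair (hF.comp (Pool.Agent.Helper743.Computable.recT hdiv))
        (hG.comp (Pool.Agent.Helper743.Computable.recT hdiv))))
  have h4 : (fun n : ℕ => Hf (Nat.pair n (Nat.pair (F (n / 2)) (G (n / 2))))) = pth F G := by
    funext n
    show (if _ then _ else _) = _
    simp only [Nat.unpair_pair]
    rfl
  rw [← h4]
  exact h3

end Pool.Agent.H668.Low
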