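import Mathlib
import Pool.Agent.H668.Low.PIso

set_option autoImplicit false

/-! Degrees which are low for categoricity are low for isomorphism. -/

namespace Pool.Agent.H668.Low

open Encodable Denumerable Nat.Partrec Pool.Agent.Helper941 Pool.Agent.Helper941.IsoProb
open Pool.Agent.Helper941.Zeta
open Pool.Agent.Helper743 (TR RecT)
open Pool.Agent.Helper941.Dim hiding entry row row_zero row_succ row_length row_get nxt hist
  hist_succ hist_length hist_get hh getc_hist con c_entry c_row c_nxt c_hist c_hh con_O con_C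
  con_J con_pa hh_row con_ent con_ent' getc_ext getc_ext' entry_eq deq_con con_spec
  el idx el_valid idx_el el_idx c_idx c_el As as_comp

open Classical in
/-- a structure with binary relations as a structure in the general sense -/
noncomputable def enc (A : Str) (i : ℕ) (xs : List ℕ) : Bool :=
  if xs.length = 2 ∧ A i ((xs[0]?).getD 0) ((xs[1]?).getD 0) then true else false

theorem enc_comp {A : Str} (hA : IsComp A) : Computable₂ (enc A) := by
  classical
  unfold enc
  have h0 : ∀ k : ℕ, Computable fun z : ℕ × List ℕ => (z.2[k]?).getD 0 := fun k =>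
    Primrec.option_getD.to_comp.comp (Computable.list_getElem?.comp Computable.snd
      (Computable.const k)) (Computable.const 0)
  have h1 : ComputablePred fun z : ℕ × List ℕ => A z.1 ((z.2[0]?).getD 0) ((z.2[1]?).getD 0) :=
    computablePred_comp (P := fun q : ℕ × ℕ × ℕ => A q.1 q.2.1 q.2.2) hA
      (f := fun z : ℕ × List ℕ => (z.1, (z.2[0]?).getD 0, (z.2[1]?).getD 0))
      (c_pair Computable.fst (c_pair (h0 0) (h0 1)))
  have h2 : ComputablePred fun z : ℕ × List ℕ => z.2.length = 2 :=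
    p_eq (Computable.list_length.comp Computable.snd) (c_const 2)
  exact c_ite (p_and h2 h1) (c_const true) (c_const false)

theorem enc_two (A : Str) (i x y : ℕ) : enc A i [x, y] = true ↔ A i x y := by
  classical
  unfold enc
  split_ifs with h
  · simpa using h
  · simpa using h

theorem enc_ne (A : Str) (i : ℕ) {xs : List ℕ} (h : xs.length ≠ 2) : enc A i xs = false := by
  classical
  unfold enc
  rw [if_neg (fun h' => h h'.1)]

theorem enc_iso {A B : Str} {f : ℕ ≃ ℕ} (h : IsIso A B f) (i : ℕ) (xs : List ℕ) :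
    enc A i xs = enc B i (xs.map f) := by
  by_cases hl : xs.length = 2
  · obtain ⟨x, y, rfl⟩ : ∃ x y, xs = [x, y] := List.length_eq_two.1 hl
    rw [Bool.eq_iff_iff, enc_two]
    show _ ↔ enc B i [f x, f y] = true
    rw [enc_two]
    exact h i x y
  · rw [enc_ne A i hl, enc_ne B i (by rw [List.length_map]; exact hl)]

theorem iso_enc {A B : Str} {f : ℕ ≃ ℕ} (h : ∀ i xs, enc A i xs = enc B i (xs.map f)) :
    IsIso A B f := by
  intro i x y
  have h1 := h i [x, y]
  rw [Bool.eq_iff_iff, enc_two] at h1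
  rw [h1]
  exact enc_two B i (f x) (f y)

/-- the structure `E` restricted to pairs -/
def two (E : ℕ → List ℕ → Bool) : Str := fun i x y => E i [x, y] = true

theorem two_comp {E : ℕ → List ℕ → Bool} (hE : Computable₂ E) : IsComp (two E) := by
  have h1 : Computable fun q : ℕ × ℕ × ℕ => E q.1 [q.2.1, q.2.2] := by
    refine hE.comp (c_fst c_id) ?_
    exact (Primrec.list_cons.comp (Primrec.fst.comp Primrec.snd) (Primrec.list_cons.comp
      (Primrec.snd.comp Primrec.snd) (Primrec.const []))).to_comp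
  exact p_of_bool h1

theorem two_iso {A : Str} {E : ℕ → List ℕ → Bool} {f : ℕ ≃ ℕ}
    (h : ∀ i xs, enc A i xs = E i (xs.map f)) : IsIso A (two E) f := by
  intro i x y
  have h1 := h i [x, y]
  rw [Bool.eq_iff_iff, enc_two] at h1
  exact h1

theorem two_len {A : Str} {E : ℕ → List ℕ → Bool} {f : ℕ ≃ ℕ}
    (h : ∀ i xs, enc A i xs = E i (xs.map f)) (i : ℕ) {ys : List ℕ} (hy : ys.length ≠ 2) :
    E i ys = false := by
  have h1 := h i (ys.map f.symm)
  rw [enc_ne A i (by rw [List.length_map]; exact hy), List.map_map] at h1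
  have h2 : (f : ℕ → ℕ) ∘ f.symm = id := by funext n; simp
  rw [h2, List.map_id] at h1
  exact h1.symm

theorem two_iso' {A A' : Str} {E : ℕ → List ℕ → Bool} {f g : ℕ ≃ ℕ}
    (h : ∀ i xs, enc A i xs = E i (xs.map f)) (hg : IsIso A' (two E) g) (i : ℕ)
    (xs : List ℕ) : enc A' i xs = E i (xs.map g) := by
  by_cases hl : xs.length = 2
  · obtain ⟨x, y, rfl⟩ : ∃ x y, xs = [x, y] := List.length_eq_two.1 hl
    rw [Bool.eq_iff_iff, enc_two]
    exact hg i x y
  · rw [enc_ne A' i hl, two_len h i (by rw [List.length_map]; exact hl)]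

theorem iso_trans {A B C : Str} {f g : ℕ ≃ ℕ} (hf : IsIso A B f) (hg : IsIso B C g) :
    IsIso A C (f.trans g) := fun i x y => (hf i x y).trans (hg i (f x) (f y))

/-- the main theorem -/
theorem main (X : ℕ → ℕ)
    (hX : ∀ D : ℕ → List ℕ → Bool, Computable₂ D →
        (∀ E : ℕ → List ℕ → Bool, Computable₂ E →
          (∃ f : ℕ → ℕ, Function.Bijective f ∧ ∀ i xs, D i xs = E i (xs.map f)) →
          ∃ f : ℕ → ℕ, Function.Bijective f ∧ (∀ i xs, D i xs = E i (xs.map f)) ∧
            TR f X) →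
        (∀ E : ℕ → List ℕ → Bool, Computable₂ E →
          (∃ f : ℕ → ℕ, Function.Bijective f ∧ ∀ i xs, D i xs = E i (xs.map f)) →
          ∃ f : ℕ → ℕ, Function.Bijective f ∧ (∀ i xs, D i xs = E i (xs.map f)) ∧
            Computable f))
    (D E : ℕ → List ℕ → Bool) (hD : Computable₂ D) (hE : Computable₂ E)
    (hDE : ∃ f : ℕ → ℕ, Function.Bijective f ∧ (∀ i xs, D i xs = E i (xs.map f)) ∧ TR f X) :
    ∃ f : ℕ → ℕ, Function.Bijective f ∧ (∀ i xs, D i xs = E i (xs.map f)) ∧ Computable f := by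
  obtain ⟨F, hF, hiso, hTR⟩ := hDE
  by_contra hno
  set T : ℕ → Prop := PI D E with hTdef
  have hT : ComputablePred T := pi_comp hD hE
  have hTH : TH T prn := pi_th
  set F' := Equiv.ofBijective F hF with hF'
  have h1 : ∀ n, F'.symm (F n) = n := fun n => F'.symm_apply_apply n
  have h2 : ∀ n, F (F'.symm n) = n := fun n => F'.apply_symm_apply n
  set p := pth F F'.symm with hpdef
  have hp : ∀ k, T (nod p k) := fun k => pi_of_iso h1 h2 hiso k
  have hpX : TR p X := pth_rec hTR h1 h2
  have hNC : ∀ f : ℕ → ℕ, Computable f → ¬ ∀ k, T (nod f k) := by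
    intro f hf hpath
    obtain ⟨h3, h4⟩ := pi_path hpath
    refine hno ⟨fun n => f (2 * n), h3, h4, hf.comp ?_⟩
    exact (Primrec.nat_mul.comp (Primrec.const 2) Primrec.id).to_comp
  have hS := con_spec T
  have hd := con_comp hT
  obtain ⟨g, hg⟩ := exists_tp (d := (con T).toDat) hS.O_le
  let A : Fin 2 → Str := fun i => As (κ := 1) (con T) i
  have hA : ∀ i, IsComp (A i) := fun i => as_comp hd i
  obtain ⟨f0, hf0, hr0⟩ := as_isoX (κ := 1) hS hd hg hp 0
  have hf0' : IsIso (A 0) (A 1) f0 := hf0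
  -- relative categoricity
  have hcat := hX (enc (A 0)) (enc_comp (hA 0)) (by
    rintro E' hE' ⟨f, hf, hfi⟩
    set f' := Equiv.ofBijective f hf with hf'
    have h3 : ∀ i xs, enc (A 0) i xs = E' i (xs.map f') := hfi
    obtain ⟨i, g', h4, h5⟩ := copiesX (κ := 1) (j := 0) (B := two E') hT hp
      ⟨two_comp hE', f', two_iso h3⟩
    have h6 : ∃ g'' : ℕ ≃ ℕ, IsIso (A 0) (two E') g'' ∧ RecT {(p : ℕ →. ℕ)} fun n => g'' n := by
      have h7 : i = 0 ∨ i = 1 := by
        fin_cases i
        · exact Or.inl rfl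
        · exact Or.inr rfl
      rcases h7 with h7 | h7
      · subst h7
        exact ⟨g', h4, h5⟩
      · subst h7
        exact ⟨f0.trans g', iso_trans hf0' h4, h5.comp hr0⟩
    obtain ⟨g'', h7, h8⟩ := h6
    exact ⟨g'', g''.bijective, two_iso' h3 h7, TR.trans h8 hpX⟩)
  obtain ⟨f, hf, hfi, hfc⟩ := hcat (enc (A 1)) (enc_comp (hA 1))
    ⟨f0, f0.bijective, enc_iso hf0'⟩
  have h3 : IsIso (A 0) (A 1) (Equiv.ofBijective f hf) := iso_enc hfi
  exact no_iso (κ := 1) hS hd hg hTH hp hNC (i := 0) (j := 1) (by decide)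
    ⟨Equiv.ofBijective f hf, h3, hfc⟩

end Pool.Agent.H668.Low
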